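import Pool.Agent.HU26.Stokes2

set_option autoImplicit false

open Complex Set MeasureTheory Filter Topology Metric
open scoped Real

namespace Pool.Agent.HU26

/-- the regularised weight -/
noncomputable def Ve (ε ρ : ℝ) : ℝ := (ρ + ε) ^ (-(3 / 2) : ℝ)
noncomputable def Ve' (ε ρ : ℝ) : ℝ := -(3 / 2) * (ρ + ε) ^ (-(5 / 2) : ℝ)

theorem Ve_hasDerivAt {ε : ℝ} (hε : 0 < ε) (ρ : ℝ) (hρ : 0 ≤ ρ) :
    HasDerivAt (Ve ε) (Ve' ε ρ) ρ := by
  have h1 : HasDerivAt (fun ρ : ℝ => ρ + ε) 1 ρ := (hasDerivAt_id ρ).add_const ε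
  have h2 := h1.rpow_const (p := (-(3 / 2) : ℝ)) (Or.inl (by positivity))
  refine h2.congr_deriv ?_
  unfold Ve'
  rw [show (-(3 / 2) : ℝ) - 1 = -(5 / 2) by norm_num]
  ring

theorem Ve'_cont {ε : ℝ} (hε : 0 < ε) : ContinuousOn (Ve' ε) (Ici 0) := by
  unfold Ve'
  apply ContinuousOn.mul continuousOn_const
  apply ContinuousOn.rpow_const (by fun_prop)
  intro x hx
  left
  have : 0 ≤ x := hx
  positivity

theorem Ve_cont {ε : ℝ} (hε : 0 < ε) : ContinuousOn (Ve ε) (Ici 0) := fun ρ hρ =>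
  (Ve_hasDerivAt hε ρ hρ).continuousAt.continuousWithinAt

theorem wVe {ε ρ : ℝ} (hε : 0 < ε) (hρ : 0 ≤ ρ) :
    wV (Ve ε) (Ve' ε) ρ = (2 * ε - ρ) * (ρ + ε) ^ (-(5 / 2) : ℝ) := by
  unfold wV Ve Ve'
  have h1 : (ρ + ε) ^ (-(3 / 2) : ℝ) = (ρ + ε) * (ρ + ε) ^ (-(5 / 2) : ℝ) := by
    have hp : 0 < ρ + ε := by positivity
    rw [show (-(3 / 2) : ℝ) = 1 + -(5 / 2) by norm_num, Real.rpow_add hp, Real.rpow_one]
  rw [h1]
  ring

variable {κ R : ℝ} {m : ℕ} {h g E : ℂ → ℂ}

/-- the scaled identity -/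
theorem har_id {M : ℝ} (hM : 0 < M) : Har 2 (fun z => (M : ℂ) * z) (fun _ => 0) := by
  have hd : ∀ z : ℂ, deriv (fun z => (M : ℂ) * z) z = M := by
    intro z
    have := (hasDerivAt_id z).const_mul (M : ℂ)
    simpa using this.deriv
  refine ⟨by norm_num, by fun_prop, by fun_prop, fun z _ => ?_, ?_⟩
  · rw [hd, deriv_const, norm_zero, norm_pos_iff]
    exact_mod_cast hM.ne'
  · intro a _ b _ hab
    unfold hm at hab
    simp only [map_zero, add_zero] at hab
    exact mul_left_cancel₀ (by exact_mod_cast hM.ne') hab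

theorem int_ball {M ε : ℝ} (hM : 0 < M) (hε : 0 < ε) :
    0 ≤ (1 / (2 * π)) * ∫ y in ball (0 : ℂ) M, wV (Ve ε) (Ve' ε) (‖y‖ ^ 2) := by
  have hd : ∀ z : ℂ, deriv (fun z => (M : ℂ) * z) z = M := by
    intro z
    have := (hasDerivAt_id z).const_mul (M : ℂ)
    simpa using this.deriv
  have h1 := stokes (har_id hM) (fun ρ hρ => Ve_hasDerivAt hε ρ hρ) (Ve'_cont hε)
  have h2 : hm (fun z => (M : ℂ) * z) (fun _ => 0) '' ball (0 : ℂ) 1 = ball 0 M := by
    ext y
    simp only [mem_image, mem_ball_zero_iff, hm, map_zero, add_zero]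
    have hMc : (M : ℂ) ≠ 0 := by exact_mod_cast hM.ne'
    constructor
    · rintro ⟨z, hz, rfl⟩
      rw [norm_mul, Complex.norm_real, Real.norm_of_nonneg hM.le]
      calc M * ‖z‖ < M * 1 := mul_lt_mul_of_pos_left hz hM
        _ = M := mul_one M
    · intro hy
      refine ⟨y / M, ?_, by field_simp⟩
      rw [norm_div, Complex.norm_real, Real.norm_of_nonneg hM.le, div_lt_one hM]
      exact hy
  rw [h2] at h1
  rw [← h1]
  have h3 : Bf (Ve ε) (fun z => (M : ℂ) * z) (fun _ => 0) 1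
      = fun _ => Ve ε (M ^ 2) * M ^ 2 := by
    funext x
    unfold Bf Ff Fx hm
    have hn : ‖pt 1 x‖ = 1 := by rw [norm_pt, abs_one]
    have hn2 : (starRingEnd ℂ) (pt 1 x) * pt 1 x = 1 := by
      rw [← Complex.normSq_eq_conj_mul_self, Complex.normSq_eq_norm_sq, hn]; norm_num
    rw [hd, deriv_const]
    simp only [map_zero, add_zero, zero_mul]
    congr 2
    · rw [norm_mul, hn, Complex.norm_real, Real.norm_of_nonneg hM.le, mul_one]
    · rw [map_mul, Complex.conj_ofReal,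
        show (M : ℂ) * (starRingEnd ℂ) (pt 1 x) * (M * (I * pt 1 x))
          = M * M * I * ((starRingEnd ℂ) (pt 1 x) * pt 1 x) by ring, hn2, mul_one,
        ← Complex.ofReal_mul, Complex.im_ofReal_mul, Complex.I_im]
      ring
  rw [h3, mean_const]
  unfold Ve
  positivity

theorem Iε_nonneg (D : Dat κ m R h g) : ∀ᶠ ε in 𝓝[>] (0 : ℝ), 0 ≤ mean (Bf (Ve ε) h g 1) := by
  have hR := D.R1
  have hsub : ball (0 : ℂ) 1 ⊆ ball 0 R := ball_subset_ball D.R1.le
  have hsub2 : closedBall (0 : ℂ) 1 ⊆ ball 0 R := closedBall_subset_ball hR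
  -- the image contains a ball
  have h1 := (D.strict_zero).map_nhds_eq_of_surj (by
    rw [LinearMap.range_eq_top]
    intro y
    exact ⟨y, rfl⟩)
  rw [D.hm_zero] at h1
  have h2 : hm h g '' ball (0 : ℂ) 1 ∈ 𝓝 (0 : ℂ) := by
    rw [← h1]
    exact image_mem_map (ball_mem_nhds 0 one_pos)
  obtain ⟨r, hr, hball⟩ := Metric.mem_nhds_iff.1 h2
  -- the image is bounded
  obtain ⟨C, hC⟩ := (isCompact_closedBall (0 : ℂ) 1).exists_bound_of_continuousOn
    (D.cont_hm.mono hsub2)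
  set M := |C| + 1 with hMdef
  have hM : 0 < M := by positivity
  have himg : hm h g '' ball (0 : ℂ) 1 ⊆ ball 0 M := by
    rintro y ⟨z, hz, rfl⟩
    rw [mem_ball_zero_iff]
    have := hC z (ball_subset_closedBall hz)
    have := le_abs_self C
    linarith
  have hmeas : MeasurableSet (hm h g '' ball (0 : ℂ) 1) := by
    choose! L hL using fun z (hz : z ∈ ball (0 : ℂ) R) => hm_hasFDerivAt D.har hz
    exact measurable_image_of_fderivWithin measurableSet_ball
      (fun z hz => (hL z (hsub hz)).1.hasFDerivWithinAt) (D.har.inj.mono hsub)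
  have hev : ∀ᶠ ε in 𝓝[>] (0 : ℝ), ε < r ^ 2 / 2 :=
    (gt_mem_nhds (show (0 : ℝ) < r ^ 2 / 2 by positivity)).filter_mono nhdsWithin_le_nhds
  filter_upwards [hev, self_mem_nhdsWithin] with ε hεr hε
  have hε0 : 0 < ε := hε
  rw [stokes D.har (fun ρ hρ => Ve_hasDerivAt hε0 ρ hρ) (Ve'_cont hε0)]
  refine (int_ball hM hε0).trans ?_
  apply mul_le_mul_of_nonneg_left _ (by positivity)
  have hwc : ContinuousOn (fun y : ℂ => wV (Ve ε) (Ve' ε) (‖y‖ ^ 2)) univ := by
    unfold wV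
    have h3 : ContinuousOn (fun y : ℂ => ‖y‖ ^ 2) univ := by fun_prop
    have hmaps : MapsTo (fun y : ℂ => ‖y‖ ^ 2) univ (Ici 0) := fun z _ => by
      simp only [mem_Ici]; positivity
    exact ((continuousOn_const.mul h3).mul ((Ve'_cont hε0).comp h3 hmaps)).add
      (continuousOn_const.mul ((Ve_cont hε0).comp h3 hmaps))
  have hint : IntegrableOn (fun y : ℂ => wV (Ve ε) (Ve' ε) (‖y‖ ^ 2)) (ball (0 : ℂ) M) :=
    ((hwc.mono (subset_univ _)).integrableOn_compact (isCompact_closedBall (0 : ℂ) M)).mono_set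
      ball_subset_closedBall
  rw [← integral_inter_add_sdiff hmeas hint]
  rw [inter_eq_self_of_subset_right himg]
  have hneg : ∫ y in ball (0 : ℂ) M \ hm h g '' ball (0 : ℂ) 1,
      wV (Ve ε) (Ve' ε) (‖y‖ ^ 2) ≤ 0 := by
    apply setIntegral_nonpos (measurableSet_ball.diff hmeas)
    intro y hy
    rw [wVe hε0 (by positivity)]
    have h4 : r ≤ ‖y‖ := by
      by_contra hc
      rw [not_le] at hc
      exact hy.2 (hball (by rw [mem_ball_zero_iff]; exact hc))
    have h5 : r ^ 2 ≤ ‖y‖ ^ 2 := pow_le_pow_left₀ hr.le h4 2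
    apply mul_nonpos_of_nonpos_of_nonneg
    · linarith
    · positivity
  linarith

/-- The area principle. -/
theorem area (D : Dat κ m R h g) (hE : IsE R h g E) :
    (mean fun x => 2 * ((starRingEnd ℂ (e E 1 x)) * (-I * ex E h g 1 x)).re
      - ‖e E 1 x‖ ^ 2) ≤ 0 := by
  have hR := D.R1
  have h1R : (1 : ℝ) ∈ Ioo (-R) R := ⟨by linarith, hR⟩
  have hsph : sphere (0 : ℂ) 1 ⊆ ball 0 R := by
    intro z hz
    rw [mem_sphere_zero_iff_norm] at hz
    rw [mem_ball_zero_iff, hz]; exact hR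
  -- positive lower bound on the circle
  obtain ⟨z0, hz0, hmin⟩ := (isCompact_sphere (0 : ℂ) 1).exists_isMinOn
    (NormedSpace.sphere_nonempty.2 zero_le_one) ((D.cont_hm.mono hsph).norm.pow 2)
  set δ := ‖hm h g z0‖ ^ 2 with hδ
  have hz00 : z0 ≠ 0 := by
    intro hc
    rw [mem_sphere_zero_iff_norm, hc, norm_zero] at hz0
    exact zero_ne_one hz0
  have hδ0 : 0 < δ := by
    have := D.f_ne (hsph hz0) hz00
    positivity
  have hge : ∀ x, δ ≤ ‖Ff h g 1 x‖ ^ 2 := by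
    intro x
    exact hmin (show pt 1 x ∈ sphere (0 : ℂ) 1 by
      rw [mem_sphere_zero_iff_norm, norm_pt, abs_one])
  have hcF : Continuous (Ff h g 1) := slice D.har.cF h1R
  have hcFx : Continuous (Fx h g 1) := slice D.har.cFx h1R
  have hcont : ContinuousOn (fun ε => mean (Bf (Ve ε) h g 1)) (Ioo (-δ) δ) := by
    apply continuousOn_mean (F := fun ε => Bf (Ve ε) h g 1)
    unfold Bf Ve
    apply ContinuousOn.mul
    · apply ContinuousOn.rpow_const
      · have h3 : Continuous (fun p : ℝ × ℝ => ‖Ff h g 1 p.2‖ ^ 2 + p.1) := by fun_prop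
        exact h3.continuousOn
      · intro p hp
        left
        have := hge p.2
        have := hp.1.1
        linarith
    · have h3 : Continuous (fun p : ℝ × ℝ => ((starRingEnd ℂ) (Ff h g 1 p.2)
          * Fx h g 1 p.2).im) := by
        have h4 : Continuous (fun p : ℝ × ℝ => (starRingEnd ℂ) (Ff h g 1 p.2)
          * Fx h g 1 p.2) := (Complex.continuous_conj.comp (hcF.comp continuous_snd)).mul
            (hcFx.comp continuous_snd)
        exact Complex.continuous_im.comp h4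
      exact h3.continuousOn
  have hc0 : ContinuousAt (fun ε => mean (Bf (Ve ε) h g 1)) 0 :=
    hcont.continuousAt (isOpen_Ioo.mem_nhds ⟨by linarith, hδ0⟩)
  have hlim := hc0.tendsto.mono_left (nhdsWithin_le_nhds (s := Ioi (0 : ℝ)))
  have hnn : 0 ≤ mean (Bf (Ve 0) h g 1) := ge_of_tendsto hlim (Iε_nonneg D)
  -- identification
  have hid : Bf (Ve 0) h g 1 = fun x => (-1) * (2 * ((starRingEnd ℂ (e E 1 x))
      * (-I * ex E h g 1 x)).re - ‖e E 1 x‖ ^ 2) := by
    funext x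
    have hz := pt_mem_ball x h1R
    have hE0 := hE.ne _ hz
    have hsq := hE.sq _ hz
    have hn : ‖pt 1 x‖ = 1 := by rw [norm_pt, abs_one]
    have hn2 : (starRingEnd ℂ) (pt 1 x) * pt 1 x = 1 := by
      rw [← Complex.normSq_eq_conj_mul_self, Complex.normSq_eq_norm_sq, hn]; norm_num
    have hpt : pt 1 x = cexp (x * I) := by unfold pt; simp
    have hcp : (starRingEnd ℂ) (pt 1 x) = cexp (-(2 * x * I)) * pt 1 x := by
      rw [hpt, conj_exp]
    have hFn : ‖Ff h g 1 x‖ = (‖E (pt 1 x)‖ ^ 2)⁻¹ := by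
      have h5 : ‖E (pt 1 x)‖ ^ 2 * ‖Ff h g 1 x‖ = 1 := by
        rw [← norm_pow, ← norm_mul]
        unfold Ff
        rw [hsq, hn]
      exact eq_inv_of_mul_eq_one_right h5
    have hV0 : Ve 0 (‖Ff h g 1 x‖ ^ 2) = ‖E (pt 1 x)‖ ^ 6 := by
      unfold Ve
      rw [add_zero, hFn]
      have hEp : 0 < ‖E (pt 1 x)‖ := norm_pos_iff.2 hE0
      have h6 : (‖E (pt 1 x)‖ ^ 2)⁻¹ ^ 2 = (‖E (pt 1 x)‖ ^ (4 : ℕ))⁻¹ := by
        rw [inv_pow, ← pow_mul]
      rw [h6, Real.inv_rpow (by positivity), Real.rpow_neg (by positivity), inv_inv,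
        ← Real.rpow_natCast, ← Real.rpow_mul hEp.le, ← Real.rpow_natCast]
      norm_num
    unfold Bf
    rw [hV0]
    unfold ex e P Q Ff Fx
    rw [map_mul, map_mul, hcp, Complex.conj_I]
    have hF : hm h g (pt 1 x) = pt 1 x / E (pt 1 x) ^ 2 := by
      rw [eq_div_iff (pow_ne_zero 2 hE0), mul_comm]; exact hsq
    rw [hF, map_div₀, map_pow]
    set a := E (pt 1 x) with ha
    set H := deriv h (pt 1 x)
    set G := (starRingEnd ℂ) (deriv g (pt 1 x))
    set v := cexp (-(2 * x * I))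
    set q := pt 1 x
    have ha' : (starRingEnd ℂ) a ≠ 0 := by
      rw [map_ne_zero]; exact hE0
    have hE0' : a ≠ 0 := hE0
    have hnn : ((‖a‖ ^ 2 : ℝ) : ℂ) = (starRingEnd ℂ) a * a := by
      rw [← Complex.normSq_eq_norm_sq, Complex.normSq_eq_conj_mul_self]
    have h7 : ‖a‖ ^ 6 * ((starRingEnd ℂ) q / (starRingEnd ℂ) a ^ 2
        * (H * (I * q) + G * (-I * (v * q)))).im
        = (((starRingEnd ℂ) a * a) ^ 3 * ((starRingEnd ℂ) q / (starRingEnd ℂ) a ^ 2
        * (H * (I * q) + G * (-I * (v * q))))).im := by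
      rw [← hnn, ← Complex.ofReal_pow, Complex.im_ofReal_mul]
      ring
    rw [h7]
    have h8 : ((starRingEnd ℂ) a * a) ^ 3 * ((starRingEnd ℂ) q / (starRingEnd ℂ) a ^ 2
        * (H * (I * q) + G * (-I * (v * q))))
        = I * ((starRingEnd ℂ) a * (a ^ 3 * (H - G * v))) := by
      have h9 : (starRingEnd ℂ) q / (starRingEnd ℂ) a ^ 2
        * (H * (I * q) + G * (-I * (v * q)))
        = ((starRingEnd ℂ) q * q) * (I * (H - G * v)) / (starRingEnd ℂ) a ^ 2 := by ring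
      rw [h9, hn2]
      field_simp
    rw [h8, Complex.I_mul_im]
    have h10 : (starRingEnd ℂ) a * (-I * (I / 2 * (a + -(a ^ 3 * H) - -(a ^ 3 * v * G))))
        = (1 / 2 : ℝ) * ((‖a‖ ^ 2 : ℝ) - (starRingEnd ℂ) a * (a ^ 3 * (H - G * v))) := by
      rw [hnn]
      push_cast
      linear_combination (-(1/2) * (starRingEnd ℂ) a * (a + -(a ^ 3 * H) - -(a ^ 3 * v * G)))
        * Complex.I_mul_I
    rw [h10, Complex.re_ofReal_mul, Complex.sub_re, Complex.ofReal_re]
    ring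
  rw [hid, mean_const_mul] at hnn
  linarith

end Pool.Agent.HU26
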