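import Pool.Agent.HU26.Coeff

set_option autoImplicit false

namespace Pool.Agent.HU26

noncomputable def Y1 (t : ℝ) : ℝ := (50999/280000) + (277/250) * t + (-318/125) * t ^ 2 + (24389/3000) * t ^ 3 + (-62151/4000) * t ^ 4 + (48233/2500) * t ^ 5 + (-17903/1200) * t ^ 6 + (45579/7000) * t ^ 7 + (-9787/8000) * t ^ 8
noncomputable def Y1' (t : ℝ) : ℝ := (277/250) + (-636/125) * t + (24389/1000) * t ^ 2 + (-62151/1000) * t ^ 3 + (48233/500) * t ^ 4 + (-17903/200) * t ^ 5 + (45579/1000) * t ^ 6 + (-9787/1000) * t ^ 7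

theorem Y1_deriv (t : ℝ) : HasDerivAt Y1 (Y1' t) t := by
  have h := (((((((((hasDerivAt_const t ((50999/280000) : ℝ)).add ((hasDerivAt_id t).const_mul ((277/250) : ℝ))).add ((hasDerivAt_pow 2 t).const_mul ((-318/125) : ℝ))).add ((hasDerivAt_pow 3 t).const_mul ((24389/3000) : ℝ))).add ((hasDerivAt_pow 4 t).const_mul ((-62151/4000) : ℝ))).add ((hasDerivAt_pow 5 t).const_mul ((48233/2500) : ℝ))).add ((hasDerivAt_pow 6 t).const_mul ((-17903/1200) : ℝ))).add ((hasDerivAt_pow 7 t).const_mul ((45579/7000) : ℝ))).add ((hasDerivAt_pow 8 t).const_mul ((-9787/8000) : ℝ)))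
  unfold Y1 Y1'
  refine h.congr_deriv ?_
  push_cast
  ring

theorem Y1_one : Y1 1 ≤ 1 := by
  unfold Y1; norm_num

theorem Y1_val : 3191 / 10000 ≤ Y1 (4 / 25) := by
  unfold Y1; norm_num

theorem Y1_pos {x : ℝ} (h0 : 4 / 25 ≤ x) (h1 : x ≤ 1) : 0 < Y1 x := by
  have hid : ∀ t u : ℝ, t + u = 1 → x = 4 / 25 + 21 / 25 * t → Y1 x =
        (389647058436893/1220703125000000) * u ^ 8
        + (3853693995013/1220703125000) * t ^ 1 * u ^ 7
        + (6298472596619/488281250000) * t ^ 2 * u ^ 6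
        + (736980389747/24414062500) * t ^ 3 * u ^ 5
        + (16846421347/390625000) * t ^ 4 * u ^ 4
        + (30807091/781250) * t ^ 5 * u ^ 3
        + (27859181/1250000) * t ^ 6 * u ^ 2
        + (178979/25000) * t ^ 7 * u ^ 1
        + (1) * t ^ 8 := by
    intro t u hu hx
    obtain rfl : u = 1 - t := by linarith
    rw [hx]
    unfold Y1
    ring
  have ht0 : 0 ≤ (x - 4 / 25) / (21 / 25) := div_nonneg (by linarith) (by norm_num)
  have ht1 : 0 ≤ 1 - (x - 4 / 25) / (21 / 25) := by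
    rw [sub_nonneg, div_le_one (by norm_num)]
    linarith
  rw [hid ((x - 4 / 25) / (21 / 25)) (1 - (x - 4 / 25) / (21 / 25)) (by ring) (by ring)]
  have hsum : (x - 4 / 25) / (21 / 25) + (1 - (x - 4 / 25) / (21 / 25)) = 1 := by ring
  generalize 1 - (x - 4 / 25) / (21 / 25) = u at ht1 hsum ⊢
  generalize (x - 4 / 25) / (21 / 25) = t at ht0 hsum ⊢
  rcases ht1.eq_or_lt with h | h
  · subst h
    have : t = 1 := by linarith
    subst this
    norm_num
  · positivity

theorem Y1_ode {x : ℝ} (h0 : 4 / 25 < x) (h1 : x < 1) :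
    1 * x ^ 1 * (Y1 x / x - 1 * x ^ 1) ^ 2 ≤ (1 - (1 * x ^ 1) ^ 2) * (Y1' x - 1 * x ^ 1) := by
  have hid : ∀ t u : ℝ, t + u = 1 → x = 4 / 25 + 21 / 25 * t →
      x * (1 - x ^ 2) * (Y1' x - x) - (Y1 x - x ^ 2) ^ 2 = (1 - x) * (
        (59447175037931147025547931/59604644775390625000000000000) * u ^ 15
        + (772050486173993788465971/29802322387695312500000000) * t ^ 1 * u ^ 14
        + (466731067490125539311973/11920928955078125000000000) * t ^ 2 * u ^ 13
        + (191564726591326577444599/596046447753906250000000) * t ^ 3 * u ^ 12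
        + (2931608634837109983819/1192092895507812500000) * t ^ 4 * u ^ 11
        + (3145250936771591808909/476837158203125000000) * t ^ 5 * u ^ 10
        + (5599325318570558180347/762939453125000000000) * t ^ 6 * u ^ 9
        + (9910436020168764501/3051757812500000000) * t ^ 7 * u ^ 8
        + (30022058426565159/12207031250000000) * t ^ 8 * u ^ 7
        + (8483727814263961/1220703125000000) * t ^ 9 * u ^ 6
        + (373248341356653/48828125000000) * t ^ 10 * u ^ 5
        + (657078447837/195312500000) * t ^ 11 * u ^ 4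
        + (27567018619/62500000000) * t ^ 12 * u ^ 3
        + (18710181/625000000) * t ^ 13 * u ^ 2
        + (1106979/25000000) * t ^ 14 * u ^ 1
        + (1/500) * t ^ 15) := by
    intro t u hu hx
    obtain rfl : u = 1 - t := by linarith
    rw [hx]
    unfold Y1 Y1'
    ring
  have ht0 : 0 ≤ (x - 4 / 25) / (21 / 25) := div_nonneg (by linarith) (by norm_num)
  have ht1 : 0 ≤ 1 - (x - 4 / 25) / (21 / 25) := by
    rw [sub_nonneg, div_le_one (by norm_num)]
    linarith
  have h2 : 0 ≤ x * (1 - x ^ 2) * (Y1' x - x) - (Y1 x - x ^ 2) ^ 2 := by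
    rw [hid ((x - 4 / 25) / (21 / 25)) (1 - (x - 4 / 25) / (21 / 25)) (by ring) (by ring)]
    apply mul_nonneg (by linarith)
    generalize 1 - (x - 4 / 25) / (21 / 25) = u at ht1 ⊢
    generalize (x - 4 / 25) / (21 / 25) = t at ht0 ⊢
    positivity
  have hx : 0 < x := by linarith
  have h3 : 1 * x ^ 1 * (Y1 x / x - 1 * x ^ 1) ^ 2 = (Y1 x - x ^ 2) ^ 2 / x := by
    field_simp
  rw [h3, div_le_iff₀ hx]
  nlinarith

end Pool.Agent.HU26
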