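import Pool.Agent.HU26.InnerPoly
import Pool.Agent.HU26.Yone
import Pool.Agent.HU85.Tools

set_option autoImplicit false

open Complex Set MeasureTheory Filter Topology Metric
open scoped Real ComplexConjugate

namespace Pool.Agent.HU26

noncomputable def JI (x t : ℝ) : ℝ := ((1/3) + (-1/3) * x + (1/6) * x ^ 2 + (-1/18) * x ^ 3 + (21/1000) * x ^ 4) * t ^ 3 + ((1/2) * x + (-1/2) * x ^ 2 + (1/4) * x ^ 3 + (-63/500) * x ^ 4) * t ^ 4 + ((2/5) * x ^ 2 + (-2/5) * x ^ 3 + (189/625) * x ^ 4) * t ^ 5 + ((2/9) * x ^ 3 + (-42/125) * x ^ 4) * t ^ 6 + ((18/125) * x ^ 4) * t ^ 7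

theorem JI_deriv (x t : ℝ) : HasDerivAt (JI x) (t ^ 2 * pe (2 * x * (t - 1 / 2))) t := by
  have h := ((((((hasDerivAt_pow 3 t).const_mul ((1/3) + (-1/3) * x + (1/6) * x ^ 2 + (-1/18) * x ^ 3 + (21/1000) * x ^ 4)).add ((hasDerivAt_pow 4 t).const_mul ((1/2) * x + (-1/2) * x ^ 2 + (1/4) * x ^ 3 + (-63/500) * x ^ 4))).add ((hasDerivAt_pow 5 t).const_mul ((2/5) * x ^ 2 + (-2/5) * x ^ 3 + (189/625) * x ^ 4))).add ((hasDerivAt_pow 6 t).const_mul ((2/9) * x ^ 3 + (-42/125) * x ^ 4))).add ((hasDerivAt_pow 7 t).const_mul ((18/125) * x ^ 4)))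
  unfold JI
  refine h.congr_deriv ?_
  unfold pe
  push_cast
  ring

theorem JI_zero (x : ℝ) : JI x 0 = 0 := by
  unfold JI
  ring

theorem JI_one (x : ℝ) : JI x 1 = JJ x := by
  unfold JI JJ
  ring

noncomputable def GI (x t : ℝ) : ℝ := ((1/2) + (-3/4) * x + (9/16) * x ^ 2 + (-9/32) * x ^ 3 + (5103/32000) * x ^ 4) * t ^ 2 + ((2/3) * x + (-1) * x ^ 2 + (3/4) * x ^ 3 + (-567/1000) * x ^ 4) * t ^ 3 + ((113/4000) + (-339/8000) * x + (17017/32000) * x ^ 2 + (-49017/64000) * x ^ 3 + (55008639/64000000) * x ^ 4) * t ^ 4 + ((113/2500) * x + (-339/5000) * x ^ 2 + (19051/60000) * x ^ 3 + (-3216213/5000000) * x ^ 4) * t ^ 5 + ((113/3000) * x ^ 2 + (-113/2000) * x ^ 3 + (232071/1000000) * x ^ 4) * t ^ 6 + ((113/5250) * x ^ 3 + (-3051/62500) * x ^ 4) * t ^ 7 + ((7119/500000) * x ^ 4) * t ^ 8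

theorem GI_deriv (x t : ℝ) : HasDerivAt (GI x) (t * (1 + 113 / 1000 * t ^ 2) * pe (2 * x * (t - 3 / 4))) t := by
  have h := ((((((((hasDerivAt_pow 2 t).const_mul ((1/2) + (-3/4) * x + (9/16) * x ^ 2 + (-9/32) * x ^ 3 + (5103/32000) * x ^ 4)).add ((hasDerivAt_pow 3 t).const_mul ((2/3) * x + (-1) * x ^ 2 + (3/4) * x ^ 3 + (-567/1000) * x ^ 4))).add ((hasDerivAt_pow 4 t).const_mul ((113/4000) + (-339/8000) * x + (17017/32000) * x ^ 2 + (-49017/64000) * x ^ 3 + (55008639/64000000) * x ^ 4))).add ((hasDerivAt_pow 5 t).const_mul ((113/2500) * x + (-339/5000) * x ^ 2 + (19051/60000) * x ^ 3 + (-3216213/5000000) * x ^ 4))).add ((hasDerivAt_pow 6 t).const_mul ((113/3000) * x ^ 2 + (-113/2000) * x ^ 3 + (232071/1000000) * x ^ 4))).add ((hasDerivAt_pow 7 t).const_mul ((113/5250) * x ^ 3 + (-3051/62500) * x ^ 4))).add ((hasDerivAt_pow 8 t).const_mul ((7119/500000) * x ^ 4)))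
  unfold GI
  refine h.congr_deriv ?_
  unfold pe
  push_cast
  ring

theorem GI_zero (x : ℝ) : GI x 0 = 0 := by
  unfold GI
  ring

theorem GI_one (x : ℝ) : GI x 1 = PsiG x := by
  unfold GI PsiG
  ring

end Pool.Agent.HU26
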