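import Pool.Agent.HU26.Inner
import Pool.Agent.HU85.Pick

set_option autoImplicit false

open Complex Set MeasureTheory Filter Topology Metric
open scoped Real ComplexConjugate

namespace Pool.Agent.HU26

namespace Inner

variable {R : ℝ} {h g L : ℂ → ℂ}

theorem XX_pos {z : ℂ} (hz : ‖z‖ ≤ 4 / 25) : 1 / 2 ≤ XX (29 / 4 * z.re) := by
  have h1 := abs_le.1 (xi_bd hz)
  have := XX_ge (x := 29 / 4 * z.re) (by linarith [h1.1]) h1.2
  linarith

theorem h_ge (I : Inner R h g L) {z : ℂ} (hz : ‖z‖ ≤ 4 / 25) :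
    ‖z‖ * Real.exp (29 / 4 * z.re) * XX (29 / 4 * z.re) ≤ ‖h z‖ := by
  have h1 := I.h_sub hz
  have h2 := model_ge hz
  have h3 : ‖(cexp (29 / 2 * z) - 1) / (29 / 2)‖
      ≤ ‖h z‖ + ‖h z - (cexp (29 / 2 * z) - 1) / (29 / 2)‖ := by
    have := norm_sub_norm_le ((cexp (29 / 2 * z) - 1) / (29 / 2)) (h z)
    rw [norm_sub_rev] at this
    linarith
  unfold XX
  have h4 : ‖z‖ * Real.exp (29 / 4 * z.re) * (WW ((29 / 4 * z.re) ^ 2)
      - 113 / 1000 * JJ (29 / 4 * z.re)) = ‖z‖ * Real.exp (29 / 4 * z.re) * WW ((29 / 4 * z.re) ^ 2)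
      - ‖z‖ * Real.exp (29 / 4 * z.re) * (113 / 1000) * JJ (29 / 4 * z.re) := by ring
  rw [h4]
  linarith

theorem h_ne (I : Inner R h g L) {z : ℂ} (hz : ‖z‖ ≤ 4 / 25) (hz0 : z ≠ 0) : h z ≠ 0 := by
  have h1 := I.h_ge hz
  have h2 := XX_pos hz
  have h3 : 0 < ‖z‖ := norm_pos_iff.2 hz0
  have h4 : 0 < ‖z‖ * Real.exp (29 / 4 * z.re) * XX (29 / 4 * z.re) := by
    have := Real.exp_pos (29 / 4 * z.re)
    positivity
  exact norm_pos_iff.1 (lt_of_lt_of_le h4 h1)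

theorem g_h (I : Inner R h g L) {z : ℂ} (hz : ‖z‖ ≤ 4 / 25) : ‖g z‖ ≤ 131 / 1000 * ‖h z‖ := by
  have h1 := I.g_le hz
  have h2 := I.h_ge hz
  set x := 29 / 4 * z.re with hx
  have hxb := abs_le.1 (xi_bd hz)
  rw [← hx] at hxb
  have h3 := q_poly (x := x) (by linarith [hxb.1]) hxb.2
  have h4 : Real.exp (1 / 2 * x) ≤ pe (x / 2) := by
    rw [show 1 / 2 * x = x / 2 by ring]
    exact exp_le_pe (by linarith [hxb.1]) (by linarith [hxb.2])
  have hP := PsiG_nonneg (x := x) (by linarith [hxb.1]) hxb.2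
  have h5 : Real.exp (3 / 2 * x) = Real.exp x * Real.exp (1 / 2 * x) := by
    rw [← Real.exp_add]; ring_nf
  have hz0 := norm_nonneg z
  calc ‖g z‖ ≤ ‖z‖ ^ 2 * Real.exp (3 / 2 * x) * PsiG x := h1
    _ = (‖z‖ * Real.exp x) * (‖z‖ * (Real.exp (1 / 2 * x) * PsiG x)) := by rw [h5]; ring
    _ ≤ (‖z‖ * Real.exp x) * (4 / 25 * (pe (x / 2) * PsiG x)) := by
        apply mul_le_mul_of_nonneg_left _ (by positivity)
        apply mul_le_mul hz _ (by positivity) (by norm_num)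
        exact mul_le_mul_of_nonneg_right h4 hP
    _ ≤ (‖z‖ * Real.exp x) * (131 / 1000 * XX x) := by
        apply mul_le_mul_of_nonneg_left _ (by positivity)
        linarith
    _ = 131 / 1000 * (‖z‖ * Real.exp x * XX x) := by ring
    _ ≤ 131 / 1000 * ‖h z‖ := by linarith

/-- the analytic branch `(h/z)^{-1/2}` -/
theorem exists_H (I : Inner R h g L) : ∃ (r : ℝ) (H : ℂ → ℂ), 4 / 25 < r ∧ r ≤ R ∧
    DifferentiableOn ℂ H (ball 0 r) ∧ H 0 = 1 ∧
    (∀ z ∈ ball (0 : ℂ) r, H z ^ 2 * h z = z ∧ H z ≠ 0) ∧ deriv H 0 = -(1 / 2) * ds2 h 0 := by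
  have hR0 := I.dat.R0
  have hR1 := I.dat.R1
  set k : ℂ → ℂ := dslope h 0 with hk
  have h0m : (0 : ℂ) ∈ ball (0 : ℂ) R := mem_ball_self hR0
  have hkd : DifferentiableOn ℂ k (ball 0 R) := by
    rw [hk, Complex.differentiableOn_dslope (ball_mem_nhds 0 hR0)]
    exact I.dat.dh
  have hk0 : k 0 = 1 := by rw [hk, dslope_same, I.dat.h1]
  have hkz : ∀ z, z * k z = h z := by
    intro z
    have h1 := sub_smul_dslope h 0 z
    rw [I.dat.h0, sub_zero, sub_zero, smul_eq_mul] at h1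
    exact h1
  have hopen : IsOpen (ball (0 : ℂ) R ∩ k ⁻¹' {0}ᶜ) :=
    hkd.continuousOn.isOpen_inter_preimage isOpen_ball isOpen_compl_singleton
  have hsub : closedBall (0 : ℂ) (4 / 25) ⊆ ball (0 : ℂ) R ∩ k ⁻¹' {0}ᶜ := by
    intro z hz
    rw [mem_closedBall_zero_iff] at hz
    refine ⟨I.mem hz, ?_⟩
    simp only [mem_preimage, mem_compl_iff, mem_singleton_iff]
    rcases eq_or_ne z 0 with h1 | h1
    · rw [h1, hk0]; exact one_ne_zero
    · intro hc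
      apply I.h_ne hz h1
      rw [← hkz, hc, mul_zero]
  obtain ⟨δ, hδ, hth⟩ := (isCompact_closedBall (0 : ℂ) (4 / 25)).exists_thickening_subset_open
    hopen hsub
  rw [thickening_closedBall hδ (by norm_num)] at hth
  set r : ℝ := δ + 4 / 25 with hr
  have hr0 : 0 < r := by positivity
  have hrR : r ≤ R := by
    by_contra hc
    rw [not_le] at hc
    have h1 : ((R : ℝ) : ℂ) ∈ ball (0 : ℂ) r := by
      rw [mem_ball_zero_iff, Complex.norm_real, Real.norm_of_nonneg hR0.le]; exact hc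
    have h2 := (hth h1).1
    rw [mem_ball_zero_iff, Complex.norm_real, Real.norm_of_nonneg hR0.le] at h2
    exact lt_irrefl _ h2
  have hrc : (r : ℂ) ≠ 0 := by exact_mod_cast hr0.ne'
  set F : ℂ → ℂ := fun z => k (r * z) with hF
  have hmaps : ∀ z ∈ ball (0 : ℂ) 1, (r : ℂ) * z ∈ ball (0 : ℂ) r := by
    intro z hz
    rw [mem_ball_zero_iff] at hz ⊢
    rw [norm_mul, Complex.norm_real, Real.norm_of_nonneg hr0.le]
    nlinarith
  have hFd : DifferentiableOn ℂ F (ball 0 1) := by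
    have h1 : DifferentiableOn ℂ (fun z : ℂ => (r : ℂ) * z) (ball 0 1) := by fun_prop
    exact hkd.comp h1 (fun z hz => (hth (hmaps z hz)).1)
  obtain ⟨Λ, hΛ0, hΛd, hΛe⟩ := Pool.Agent.HU85.exists_log hFd
    (fun z hz => (hth (hmaps z hz)).2) (by simp only [hF, mul_zero]; exact hk0)
  refine ⟨r, fun z => cexp (-(1 / 2) * Λ (z / r)), by rw [hr]; linarith, hrR, ?_, ?_, ?_, ?_⟩
  · intro z hz
    have h1 : ‖z / r‖ < 1 := by
      rw [mem_ball_zero_iff] at hz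
      rw [norm_div, Complex.norm_real, Real.norm_of_nonneg hr0.le, div_lt_one hr0]
      exact hz
    have h2 : HasDerivAt (fun z : ℂ => z / r) (1 / r) z := (hasDerivAt_id z).div_const _
    exact ((((hΛd _ h1).comp z h2).const_mul (-(1 / 2) : ℂ)).cexp).differentiableAt.differentiableWithinAt
  · simp [hΛ0]
  · intro z hz
    refine ⟨?_, Complex.exp_ne_zero _⟩
    have h1 : ‖z / r‖ < 1 := by
      rw [mem_ball_zero_iff] at hz
      rw [norm_div, Complex.norm_real, Real.norm_of_nonneg hr0.le, div_lt_one hr0]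
      exact hz
    have h2 := hΛe _ h1
    simp only [hF] at h2
    rw [mul_div_cancel₀ z hrc] at h2
    rw [← hkz z, ← h2, ← Complex.exp_nat_mul]
    have h3 : cexp (((2 : ℕ) : ℂ) * (-(1 / 2) * Λ (z / r))) * cexp (Λ (z / r)) = 1 := by
      rw [← Complex.exp_add]
      have h4 : ((2 : ℕ) : ℂ) * (-(1 / 2) * Λ (z / r)) + Λ (z / r) = 0 := by
        push_cast
        ring
      rw [h4, Complex.exp_zero]
    linear_combination z * h3
  · have h1 : ‖(0 : ℂ) / r‖ < 1 := by simp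
    have h2 : HasDerivAt (fun z : ℂ => z / r) (1 / r) 0 := (hasDerivAt_id (0 : ℂ)).div_const _
    have h3 := (((hΛd _ h1).comp (0 : ℂ) h2).const_mul (-(1 / 2) : ℂ)).cexp
    have h3' : HasDerivAt (fun z : ℂ => cexp (-(1 / 2) * Λ (z / r))) _ 0 := h3
    rw [h3'.deriv]
    have h4 : deriv F 0 = r * ds2 h 0 := by
      simp only [hF]
      rw [deriv_comp_mul_left (r : ℂ) k 0, mul_zero, smul_eq_mul]
      congr 1
      unfold ds2
      rw [dslope_same]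
    simp only [Function.comp_apply, zero_div, hΛ0, mul_zero, Complex.exp_zero, one_mul]
    rw [h4]
    simp only [hF, mul_zero, hk0]
    field_simp

end Inner

/-- algebra of the square root near one -/
theorem root_near {u : ℂ} (hu : 0 < u.re) {q : ℝ} (hq : ‖u ^ 2 - 1‖ ≤ q) (hq1 : q ≤ 131 / 1000) :
    ‖u⁻¹ - 1‖ ≤ 347 / 625 * q ∧ ‖u⁻¹‖ ≤ 10000 / 9322 ∧ ‖(u⁻¹) ^ 3 - 1‖ ≤ 2345 / 10000 := by
  have hq0 : 0 ≤ q := (norm_nonneg _).trans hq
  have hre : 1 - q ≤ (u ^ 2).re := by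
    have h1 := (Complex.abs_re_le_norm (u ^ 2 - 1)).trans hq
    rw [Complex.sub_re, Complex.one_re] at h1
    linarith [(abs_le.1 h1).1]
  have hsq : (u ^ 2).re = u.re ^ 2 - u.im ^ 2 := by
    rw [pow_two, Complex.mul_re]; ring
  have h2 : (9322 / 10000 : ℝ) ≤ u.re := by
    have h3 : (9322 / 10000 : ℝ) ^ 2 ≤ u.re ^ 2 := by
      have := sq_nonneg u.im
      norm_num
      nlinarith
    exact abs_le_of_sq_le_sq' h3 hu.le |>.2
  have hun : (9322 / 10000 : ℝ) ≤ ‖u‖ := h2.trans (Complex.re_le_norm u)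
  have hu0 : u ≠ 0 := by
    intro hc
    rw [hc, norm_zero] at hun
    norm_num at hun
  have hup : (19322 / 10000 : ℝ) ≤ ‖u + 1‖ := by
    have h3 := Complex.re_le_norm (u + 1)
    rw [Complex.add_re, Complex.one_re] at h3
    linarith
  have h4 : ‖u - 1‖ * ‖u + 1‖ ≤ q := by
    rw [← norm_mul]
    refine le_trans (le_of_eq ?_) hq
    congr 1
    ring
  have h5 : ‖u⁻¹ - 1‖ * (‖u‖ * ‖u + 1‖) ≤ q := by
    have h6 : ‖u⁻¹ - 1‖ * ‖u‖ = ‖u - 1‖ := by
      rw [← norm_mul, sub_mul, inv_mul_cancel₀ hu0, one_mul, norm_sub_rev]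
    rw [← mul_assoc, h6]
    exact h4
  have h6 : (9322 / 10000 : ℝ) * (19322 / 10000) ≤ ‖u‖ * ‖u + 1‖ :=
    mul_le_mul hun hup (by norm_num) (norm_nonneg _)
  have h7 : ‖u⁻¹ - 1‖ * ((9322 / 10000 : ℝ) * (19322 / 10000)) ≤ q :=
    (mul_le_mul_of_nonneg_left h6 (norm_nonneg _)).trans h5
  have hv : ‖u⁻¹‖ ≤ 10000 / 9322 := by
    rw [norm_inv, inv_le_comm₀ (by linarith) (by norm_num)]
    norm_num at hun ⊢
    linarith
  have h8 : ‖u⁻¹ - 1‖ ≤ 347 / 625 * q := by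
    nlinarith [norm_nonneg (u⁻¹ - 1)]
  refine ⟨h8, hv, ?_⟩
  have h9 : (u⁻¹) ^ 3 - 1 = (u⁻¹ - 1) * ((u⁻¹) ^ 2 + u⁻¹ + 1) := by ring
  rw [h9, norm_mul]
  have h10 : ‖u⁻¹ - 1‖ ≤ 72735 / 1000000 := by
    norm_num at h7
    nlinarith
  have h11 : ‖(u⁻¹) ^ 2 + u⁻¹ + 1‖ ≤ (10000 / 9322) ^ 2 + 10000 / 9322 + 1 := by
    refine (norm_add_le _ _).trans ?_
    rw [norm_one]
    refine add_le_add ((norm_add_le _ _).trans ?_) le_rfl
    rw [norm_pow]
    exact add_le_add (pow_le_pow_left₀ (norm_nonneg _) hv 2) hv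
  calc ‖u⁻¹ - 1‖ * ‖(u⁻¹) ^ 2 + u⁻¹ + 1‖
      ≤ 72735 / 1000000 * ((10000 / 9322) ^ 2 + 10000 / 9322 + 1) :=
        mul_le_mul h10 h11 (norm_nonneg _) (by norm_num)
    _ ≤ 2345 / 10000 := by norm_num

end Pool.Agent.HU26
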