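import Pool.Agent.HU26.Area

set_option autoImplicit false

open Complex Set MeasureTheory Filter Topology Metric
open scoped Real

namespace Pool.Agent.HU26

theorem exp_hasDerivAt (k : ℤ) (x : ℝ) :
    HasDerivAt (fun x : ℝ => cexp (k * x * I)) (k * I * cexp (k * x * I)) x := by
  have h1 : HasDerivAt (fun x : ℝ => (k * (x : ℂ) * I)) (k * I) x := by
    have := ((Complex.ofRealCLM.hasDerivAt (x := x)).const_mul (k : ℂ)).mul_const I
    simpa using this
  exact h1.cexp.congr_deriv (by ring)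

theorem FC_exp_ne {k n : ℤ} (hkn : k ≠ n) : FC (fun x : ℝ => cexp (k * x * I)) n = 0 := by
  have hper : cexp (k * (π : ℝ) * I) = cexp (k * ((-π : ℝ) : ℂ) * I) := by
    rw [Complex.exp_eq_exp_iff_exists_int]
    refine ⟨k, ?_⟩
    push_cast
    ring
  have h1 := FC_deriv (exp_hasDerivAt k) (by fun_prop) hper n
  rw [FC_const_mul] at h1
  have h2 : ((k : ℂ) - n) * I * FC (fun x : ℝ => cexp (k * x * I)) n = 0 := by
    linear_combination h1
  rcases mul_eq_zero.1 h2 with h3 | h3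
  · rcases mul_eq_zero.1 h3 with h4 | h4
    · exfalso
      apply hkn
      exact_mod_cast sub_eq_zero.1 h4
    · exact absurd h4 Complex.I_ne_zero
  · exact h3

theorem FC_exp_self (n : ℤ) : FC (fun x : ℝ => cexp (n * x * I)) n = 1 := by
  unfold FC
  have h1 : (fun x : ℝ => cexp (-(n * x * I)) * cexp (n * x * I)) = fun _ => (1 : ℂ) := by
    funext x
    rw [← Complex.exp_add, neg_add_cancel, Complex.exp_zero]
  simp only [h1]
  rw [intervalIntegral.integral_const]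
  have hp := Real.pi_ne_zero
  rw [Complex.real_smul, mul_one, ← Complex.ofReal_mul]
  rw [show 1 / (2 * π) * (π - -π) = 1 by field_simp; ring]
  simp

theorem FC_const_ne (c : ℂ) {n : ℤ} (hn : n ≠ 0) : FC (fun _ => c) n = 0 := by
  have h1 := FC_exp_ne (k := 0) (n := n) (Ne.symm hn)
  have h2 : (fun _ : ℝ => c) = fun x : ℝ => c * cexp (((0 : ℤ) : ℂ) * x * I) := by
    funext x; simp
  rw [h2, FC_const_mul, h1, mul_zero]

theorem FC_const_zero (c : ℂ) : FC (fun _ => c) 0 = c := by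
  have h1 := FC_exp_self 0
  have h2 : (fun _ : ℝ => c) = fun x : ℝ => c * cexp (((0 : ℤ) : ℂ) * x * I) := by
    funext x; simp
  rw [h2, FC_const_mul, h1, mul_one]

/-- second order quotient -/
noncomputable def ds2 (h : ℂ → ℂ) : ℂ → ℂ := dslope (dslope h 0) 0

theorem ds2_diff {R : ℝ} {h : ℂ → ℂ} (hR : 0 < R) (dh : DifferentiableOn ℂ h (ball 0 R)) :
    DifferentiableOn ℂ (ds2 h) (ball 0 R) := by
  unfold ds2
  have hn : ball (0 : ℂ) R ∈ 𝓝 (0 : ℂ) := ball_mem_nhds 0 hR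
  rw [Complex.differentiableOn_dslope hn, Complex.differentiableOn_dslope hn]
  exact dh

theorem ds2_eq {h : ℂ → ℂ} (z : ℂ) : h z = h 0 + z * (deriv h 0 + z * ds2 h z) := by
  have h1 := sub_smul_dslope h 0 z
  have h2 := sub_smul_dslope (dslope h 0) 0 z
  rw [dslope_same] at h2
  simp only [sub_zero, smul_eq_mul] at h1 h2
  unfold ds2
  linear_combination (-1 : ℂ) * h1 - z * h2

theorem ds2_zero {R : ℝ} {h : ℂ → ℂ} (hR : 0 < R) (dh : DifferentiableOn ℂ h (ball 0 R)) :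
    iteratedDeriv 2 h 0 = 2 * ds2 h 0 := by
  have hd := ds2_diff hR dh
  have hd' := hd.deriv isOpen_ball
  have h0 : (0 : ℂ) ∈ ball (0 : ℂ) R := mem_ball_self hR
  have h1 : ∀ z ∈ ball (0 : ℂ) R, HasDerivAt h
      ((deriv h 0 + z * ds2 h z) + z * (ds2 h z + z * deriv (ds2 h) z)) z := by
    intro z hz
    have h2 : HasDerivAt (ds2 h) (deriv (ds2 h) z) z :=
      ((hd z hz).differentiableAt (isOpen_ball.mem_nhds hz)).hasDerivAt
    have h3 : HasDerivAt (fun z => h 0 + z * (deriv h 0 + z * ds2 h z))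
        ((deriv h 0 + z * ds2 h z) + z * (ds2 h z + z * deriv (ds2 h) z)) z := by
      have h4 := (((hasDerivAt_id z).mul (((hasDerivAt_id z).mul h2).const_add
        (deriv h 0)))).const_add (h 0)
      refine h4.congr_deriv ?_
      simp
    exact h3.congr_of_eventuallyEq (Eventually.of_forall ds2_eq)
  have h2 : deriv h =ᶠ[𝓝 0] fun z =>
      (deriv h 0 + z * ds2 h z) + z * (ds2 h z + z * deriv (ds2 h) z) := by
    filter_upwards [isOpen_ball.mem_nhds h0] with z hz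
    exact (h1 z hz).deriv
  rw [iteratedDeriv_succ, iteratedDeriv_one, h2.deriv_eq]
  have h3 : HasDerivAt (ds2 h) (deriv (ds2 h) 0) 0 :=
    ((hd 0 h0).differentiableAt (isOpen_ball.mem_nhds h0)).hasDerivAt
  have h4 : HasDerivAt (deriv (ds2 h)) (deriv (deriv (ds2 h)) 0) 0 :=
    ((hd' 0 h0).differentiableAt (isOpen_ball.mem_nhds h0)).hasDerivAt
  have h5 := (((hasDerivAt_id (0 : ℂ)).mul h3).const_add (deriv h 0)).add
    ((hasDerivAt_id (0 : ℂ)).mul (h3.add ((hasDerivAt_id (0 : ℂ)).mul h4)))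
  have h6 := h5.deriv
  refine Eq.trans ?_ (h6.trans ?_)
  · rfl
  · simp
    ring

variable {κ R : ℝ} {m : ℕ} {h g E : ℂ → ℂ}

/-- `f(pt s x) = pt s x (1 + s K)` -/
noncomputable def Kf (h g : ℂ → ℂ) (s x : ℝ) : ℂ :=
  cexp (x * I) * ds2 h (pt s x) + cexp (-(3 * x * I)) * (starRingEnd ℂ) (ds2 g (pt s x))

theorem Kf_eq (D : Dat κ m R h g) (s x : ℝ) :
    hm h g (pt s x) = pt s x * (1 + s * Kf h g s x) := by
  unfold hm Kf
  have h1 := ds2_eq (h := h) (pt s x)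
  have h2 := ds2_eq (h := g) (pt s x)
  rw [D.h0, D.h1] at h1
  rw [D.g0, D.g1] at h2
  rw [h1, h2]
  have hpt : pt s x = s * cexp (x * I) := rfl
  have hexp : cexp (-(3 * x * I)) * cexp (x * I) = cexp (-(2 * x * I)) := by
    rw [← Complex.exp_add]; congr 1; ring
  have hce : (starRingEnd ℂ) (pt s x) = s * (cexp (-(2 * x * I)) * cexp (x * I)) := by
    rw [hpt, map_mul, conj_exp, Complex.conj_ofReal]
  have hce2 : (starRingEnd ℂ) (pt s x) * (starRingEnd ℂ) (pt s x)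
      = s * (pt s x * cexp (-(3 * x * I))) := by
    rw [hce, hpt, ← hexp]
    have h3 : cexp (-(3 * x * I)) * cexp (x * I) * cexp (x * I) * cexp (x * I) = 1 := by
      rw [← Complex.exp_add, ← Complex.exp_add, ← Complex.exp_add]
      rw [← Complex.exp_zero]
      congr 1
      ring
    linear_combination (s * s * cexp (-(3 * x * I)) * cexp (x * I)) * h3
  simp only [map_mul, zero_add]
  linear_combination (starRingEnd ℂ) (ds2 g (pt s x)) * hce2
    + pt s x * ds2 h (pt s x) * hpt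

theorem cK (D : Dat κ m R h g) :
    ContinuousOn (fun p : ℝ × ℝ => Kf h g p.1 p.2) (Ioo (-R) R ×ˢ univ) := by
  unfold Kf
  have h1 := (ds2_diff D.R0 D.dh).continuousOn.comp continuous_pt.continuousOn (mapsTo_pt R)
  have h2 := (ds2_diff D.R0 D.dg).continuousOn.comp continuous_pt.continuousOn (mapsTo_pt R)
  have h3 : ContinuousOn (fun p : ℝ × ℝ => cexp ((p.2 : ℂ) * I)) (Ioo (-R) R ×ˢ univ) := by
    fun_prop
  have h4 : ContinuousOn (fun p : ℝ × ℝ => cexp (-(3 * (p.2 : ℂ) * I)))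
      (Ioo (-R) R ×ˢ univ) := by fun_prop
  exact (h3.mul h1).add (h4.mul (Complex.continuous_conj.comp_continuousOn h2))

theorem E_K (D : Dat κ m R h g) (hE : IsE R h g E) {s : ℝ} (x : ℝ) (hs : s ∈ Ioo (-R) R) :
    e E s x ^ 2 * (1 + s * Kf h g s x) = 1 := by
  by_cases hs0 : s = 0
  · subst hs0
    unfold e pt
    simp [hE.zero]
  · have hz := pt_mem_ball x hs
    have h1 := hE.sq _ hz
    rw [Kf_eq D] at h1
    have h2 := pt_ne_zero x hs0
    have h3 : pt s x * (e E s x ^ 2 * (1 + s * Kf h g s x)) = pt s x * 1 := by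
      rw [mul_one]
      unfold e
      linear_combination h1
    exact mul_left_cancel₀ h2 h3

theorem tendsto_E1 (D : Dat κ m R h g) (hE : IsE R h g E) :
    Tendsto (fun s : ℝ => En E s 1 / s) (𝓝[>] 0) (𝓝 (-(1 / 2) * ds2 h 0)) := by
  have hR := D.R0
  -- δ
  have hc0 : ContinuousAt E 0 := hE.cont.continuousAt (isOpen_ball.mem_nhds (mem_ball_self hR))
  have hnb : ∀ᶠ z in 𝓝 (0 : ℂ), E z + 1 ≠ 0 := by
    have h1 : ContinuousAt (fun z => E z + 1) 0 := hc0.add continuousAt_const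
    apply h1.eventually_ne
    rw [hE.zero]; norm_num
  obtain ⟨δ1, hδ1, hb⟩ := Metric.eventually_nhds_iff_ball.1 hnb
  set δ := min δ1 R with hδ
  have hδ0 : 0 < δ := lt_min hδ1 hR
  have hsubI : Ioo (-δ) δ ⊆ Ioo (-R) R := by
    intro s hs
    have : δ ≤ R := min_le_right _ _
    exact ⟨by linarith [hs.1], by linarith [hs.2]⟩
  have hsub : Ioo (-δ) δ ×ˢ (univ : Set ℝ) ⊆ Ioo (-R) R ×ˢ univ := prod_mono hsubI le_rfl
  have hden1 : ∀ s ∈ Ioo (-δ) δ, ∀ x, e E s x + 1 ≠ 0 := by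
    intro s hs x
    apply hb
    have : δ ≤ δ1 := min_le_left _ _
    exact pt_mem_ball x ⟨by linarith [hs.1], by linarith [hs.2]⟩
  have hden2 : ∀ s ∈ Ioo (-δ) δ, ∀ x, (1 + s * Kf h g s x : ℂ) ≠ 0 := by
    intro s hs x hc
    have h1 := E_K D hE x (hsubI hs)
    rw [hc, mul_zero] at h1
    exact zero_ne_one h1
  set L : ℝ → ℝ → ℂ := fun s x => -(Kf h g s x / ((e E s x + 1) * (1 + s * Kf h g s x))) with hL
  have hLc : ContinuousOn (fun p : ℝ × ℝ => L p.1 p.2) (Ioo (-δ) δ ×ˢ univ) := by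
    apply ContinuousOn.neg
    apply ContinuousOn.div ((cK D).mono hsub)
    · apply ContinuousOn.mul
      · exact ((cont_e hE).mono hsub).add continuousOn_const
      · apply continuousOn_const.add
        apply ContinuousOn.mul _ ((cK D).mono hsub)
        fun_prop
    · rintro ⟨s, x⟩ hp
      exact mul_ne_zero (hden1 s hp.1 x) (hden2 s hp.1 x)
  have hLeq : ∀ s ∈ Ioo 0 δ, En E s 1 / s = FC (L s) 1 := by
    intro s hs
    have hs' : s ∈ Ioo (-δ) δ := ⟨by linarith [hs.1], hs.2⟩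
    have hs0 : (s : ℂ) ≠ 0 := by exact_mod_cast hs.1.ne'
    have h1 : e E s = fun x => 1 + s * L s x := by
      funext x
      have h2 := E_K D hE x (hsubI hs')
      have h3 := hden1 s hs' x
      have h4 := hden2 s hs' x
      simp only [hL]
      field_simp
      linear_combination h2
    have hcL : Continuous (L s) := slice hLc hs'
    unfold En
    rw [h1, FC_add continuous_const (by fun_prop), FC_const_ne 1 one_ne_zero, FC_const_mul,
      zero_add, mul_div_cancel_left₀ _ hs0]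
  have hlim : Tendsto (fun s => FC (L s) 1) (𝓝[>] 0) (𝓝 (FC (L 0) 1)) := by
    have h1 := continuousOn_FC hLc 1
    have h2 : ContinuousAt (fun s => FC (L s) 1) 0 :=
      h1.continuousAt (isOpen_Ioo.mem_nhds ⟨by linarith, hδ0⟩)
    exact h2.tendsto.mono_left nhdsWithin_le_nhds
  have hL0 : FC (L 0) 1 = -(1 / 2) * ds2 h 0 := by
    have h1 : L 0 = fun x : ℝ => -(1 / 2) * ds2 h 0 * cexp (((1 : ℤ) : ℂ) * x * I)
        + -(1 / 2) * (starRingEnd ℂ) (ds2 g 0) * cexp (((-3 : ℤ) : ℂ) * x * I) := by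
      funext x
      simp only [hL, Kf, e, pt]
      simp only [Complex.ofReal_zero, zero_mul, hE.zero, add_zero, mul_one]
      rw [show (((1 : ℤ) : ℂ) * x * I) = x * I by push_cast; ring,
        show (((-3 : ℤ) : ℂ) * x * I) = -(3 * x * I) by push_cast; ring]
      ring
    rw [h1, FC_add (by fun_prop) (by fun_prop), FC_const_mul, FC_const_mul, FC_exp_self,
      FC_exp_ne (by norm_num), mul_one, mul_zero, add_zero]
  rw [hL0] at hlim
  apply hlim.congr'
  have h5 : Ioo 0 δ ∈ 𝓝[>] (0 : ℝ) := Ioo_mem_nhdsGT hδ0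
  filter_upwards [h5] with s hs
  exact (hLeq s hs).symm

theorem tendsto_E0 (D : Dat κ m R h g) (hE : IsE R h g E) :
    Tendsto (fun s : ℝ => En E s 0) (𝓝[>] 0) (𝓝 1) := by
  have h1 := continuousOn_FC (cont_e hE) 0
  have hR := D.R0
  have h2 : ContinuousAt (fun s => FC (e E s) 0) 0 :=
    h1.continuousAt (isOpen_Ioo.mem_nhds ⟨by linarith, hR⟩)
  have h3 : FC (e E 0) 0 = 1 := by
    have : e E 0 = fun _ => (1 : ℂ) := by
      funext x; unfold e pt; simp [hE.zero]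
    rw [this, FC_const_zero]
  have h4 := h2.tendsto.mono_left (nhdsWithin_le_nhds (s := Ioi (0 : ℝ)))
  rw [h3] at h4
  exact h4

/-- the bound for the negative modes -/
noncomputable def Bs (E h g : ℂ → ℂ) (s : ℝ) : ℝ := 3 * mean fun x => ‖ex E h g s x‖ ^ 2

theorem tendsto_Bs (D : Dat κ m R h g) (hE : IsE R h g E) :
    Tendsto (Bs E h g) (𝓝[>] 0) (𝓝 0) := by
  have hR := D.R0
  have hcex : ContinuousOn (fun p : ℝ × ℝ => ex E h g p.1 p.2) (Ioo (-R) R ×ˢ univ) := by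
    unfold ex
    exact continuousOn_const.mul (((cont_e hE).add (cont_P D hE)).sub (cont_Q D hE))
  have h1 := continuousOn_mean (F := fun s x => ‖ex E h g s x‖ ^ 2) (hcex.norm.pow 2)
  have h2 : ContinuousAt (fun s => mean fun x => ‖ex E h g s x‖ ^ 2) 0 :=
    h1.continuousAt (isOpen_Ioo.mem_nhds ⟨by linarith, hR⟩)
  have h4 := (h2.tendsto.mono_left (nhdsWithin_le_nhds (s := Ioi (0 : ℝ)))).const_mul 3
  have h3 : (mean fun x => ‖ex E h g 0 x‖ ^ 2) = 0 := by
    have : (fun x => ‖ex E h g 0 x‖ ^ 2) = fun _ => (0 : ℝ) := by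
      funext x
      unfold ex e P Q pt
      simp [hE.zero, D.h1, D.g1]
    rw [this, mean_const]
  rw [h3, mul_zero] at h4
  exact h4

theorem Bs_bound (D : Dat κ m R h g) (hE : IsE R h g E) {s : ℝ} (hs : s ∈ Ioo 0 R) (M : ℕ) :
    ∑ k ∈ Finset.Icc 1 M, (2 * (k : ℝ) + 1) * ‖En E s (-(k : ℤ))‖ ^ 2 ≤ Bs E h g s := by
  have hc1 := slice (cont_e hE) (pos_sub D hs)
  have hc2 := slice (cont_P D hE) (pos_sub D hs)
  have hc3 := slice (cont_Q D hE) (pos_sub D hs)
  have hexc : Continuous (ex E h g s) := by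
    unfold ex
    exact continuous_const.mul ((hc1.add hc2).sub hc3)
  have h1 := bessel hexc ((Finset.Icc 1 M).image (fun k : ℕ => (-(k : ℤ))))
  rw [Finset.sum_image (fun a _ b _ hab => by simpa using hab)] at h1
  unfold Bs
  refine le_trans ?_ (mul_le_mul_of_nonneg_left h1 (by norm_num))
  rw [Finset.mul_sum]
  apply Finset.sum_le_sum
  intro k hk
  rw [Finset.mem_Icc] at hk
  have hk1 : (1 : ℝ) ≤ k := by exact_mod_cast hk.1
  have h2 := FC_deriv (fun x => e_hasDerivAt_snd D hE x hs) hexc (e_pi E s) (-(k : ℤ))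
  rw [h2, norm_mul, norm_mul, Complex.norm_I, mul_one, mul_pow]
  have h3 : ‖(((-(k : ℤ) : ℤ)) : ℂ)‖ = k := by
    push_cast
    rw [norm_neg, Complex.norm_natCast]
  rw [h3, ← mul_assoc]
  apply mul_le_mul_of_nonneg_right _ (by positivity)
  nlinarith

theorem coeff_two (D : Dat κ m R h g) {Y Y' : ℝ → ℝ} (hYc : ContinuousOn Y (Icc 0 1))
    (hYd : ∀ t ∈ Ioo (0 : ℝ) 1, HasDerivAt Y (Y' t) t)
    (hYpos : ∀ t ∈ Icc (0 : ℝ) 1, 0 < Y t) (hY1 : Y 1 ≤ 1)
    (hode : ∀ t ∈ Ioo (0 : ℝ) 1, κ * t ^ m * (Y t / t - κ * t ^ m) ^ 2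
      ≤ (1 - (κ * t ^ m) ^ 2) * (Y' t - κ * t ^ m)) :
    ‖ds2 h 0‖ ≤ 2 / Y 0 := by
  obtain ⟨E, hE1, hE2, hE3⟩ := D.exists_E
  have hE : IsE R h g E := ⟨hE1, hE2, fun z hz => (hE3 z hz).1, fun z hz => (hE3 z hz).2⟩
  have hS := area D hE
  have hY0 : 0 < Y 0 := hYpos 0 ⟨le_rfl, zero_le_one⟩
  have hineq : ∀ s ∈ Ioo (0 : ℝ) 1, Y s * ‖En E s 1 / s‖ ^ 2
      ≤ 1 / Y s * ‖En E s 0‖ ^ 2 + 2 / (1 + s ^ 2) * Bs E h g s := by
    intro s hs
    have h1 := lyapunov D hE hs.1 hs.2 (hYc.mono (Icc_subset_Icc hs.1.le le_rfl))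
      (fun t ht => hYd t ⟨by linarith [hs.1, ht.1], ht.2⟩)
      (fun t ht => hYpos t ⟨by linarith [hs.1, ht.1], ht.2⟩) hY1
      (fun t ht => hode t ⟨by linarith [hs.1, ht.1], ht.2⟩) hS
      (Bs_bound D hE ⟨hs.1, by linarith [hs.2, D.R1]⟩)
    refine le_trans (le_of_eq ?_) h1
    rw [norm_div, Complex.norm_real, Real.norm_of_nonneg hs.1.le, div_pow]
    ring
  have hYt : Tendsto Y (𝓝[>] 0) (𝓝 (Y 0)) := by
    have h1 : ContinuousWithinAt Y (Icc 0 1) 0 := hYc 0 ⟨le_rfl, zero_le_one⟩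
    apply h1.tendsto.mono_left
    rw [nhdsWithin_le_iff]
    exact mem_of_superset (Ioo_mem_nhdsGT one_pos) Ioo_subset_Icc_self
  have hl : Tendsto (fun s => Y s * ‖En E s 1 / s‖ ^ 2) (𝓝[>] 0)
      (𝓝 (Y 0 * ‖-(1 / 2) * ds2 h 0‖ ^ 2)) :=
    hYt.mul ((tendsto_E1 D hE).norm.pow 2)
  have hst : Tendsto (fun s : ℝ => 2 / (1 + s ^ 2)) (𝓝[>] 0) (𝓝 (2 / (1 + 0 ^ 2))) := by
    have h1 : ContinuousAt (fun s : ℝ => 2 / (1 + s ^ 2)) 0 := by
      apply ContinuousAt.div (by fun_prop) (by fun_prop)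
      norm_num
    exact h1.tendsto.mono_left nhdsWithin_le_nhds
  have hr : Tendsto (fun s => 1 / Y s * ‖En E s 0‖ ^ 2 + 2 / (1 + s ^ 2) * Bs E h g s)
      (𝓝[>] 0) (𝓝 (1 / Y 0 * ‖(1 : ℂ)‖ ^ 2 + 2 / (1 + 0 ^ 2) * 0)) := by
    refine Tendsto.add (Tendsto.mul ?_ ((tendsto_E0 D hE).norm.pow 2))
      (hst.mul (tendsto_Bs D hE))
    exact tendsto_const_nhds.div hYt hY0.ne'
  have hfin := le_of_tendsto_of_tendsto hl hr (by
    filter_upwards [Ioo_mem_nhdsGT one_pos] with s hs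
    exact hineq s hs)
  rw [norm_mul, norm_neg, norm_one, mul_zero, add_zero, one_pow, mul_one] at hfin
  have h2 : ‖(1 / 2 : ℂ)‖ = 1 / 2 := by norm_num
  rw [h2] at hfin
  rw [le_div_iff₀ hY0]
  have h3 : (‖ds2 h 0‖ * Y 0) ^ 2 ≤ 2 ^ 2 := by
    have h4 := mul_le_mul_of_nonneg_left hfin (show 0 ≤ 4 * Y 0 by positivity)
    have h5 : 4 * Y 0 * (1 / Y 0) = 4 := by field_simp
    rw [h5] at h4
    nlinarith
  exact (abs_le_of_sq_le_sq' h3 (by norm_num)).2

end Pool.Agent.HU26
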