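import Pool.Agent.HU26.Means
import Pool.Agent.HU26.Yone

set_option autoImplicit false

open Complex Set MeasureTheory Filter Topology Metric
open scoped Real ComplexConjugate

namespace Pool.Agent.HU26

/-- the two branches near the origin -/
structure Br (r R : ℝ) (h g E H : ℂ → ℂ) : Prop where
  r1 : 4 / 25 < r
  rR : r ≤ R
  dH : DifferentiableOn ℂ H (ball 0 r)
  H0 : H 0 = 1
  sqH : ∀ z ∈ ball (0 : ℂ) r, H z ^ 2 * h z = z ∧ H z ≠ 0
  dH0 : deriv H 0 = -(1 / 2) * ds2 h 0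
  hE : IsE R h g E

namespace Br

variable {r R : ℝ} {h g L E H : ℂ → ℂ}

theorem memr (B : Br r R h g E H) {z : ℂ} (hz : ‖z‖ ≤ 4 / 25) : z ∈ ball (0 : ℂ) r := by
  rw [mem_ball_zero_iff]
  linarith [B.r1]

theorem u_sq (I : Inner R h g L) (B : Br r R h g E H) {z : ℂ} (hz : ‖z‖ ≤ 4 / 25) :
    ((H z / E z) ^ 2 - 1) * h z = conj (g z) := by
  have h1 := B.sqH z (B.memr hz)
  have h2 := B.hE.sq z (I.mem hz)
  have h3 := B.hE.ne z (I.mem hz)
  have h4 : E z ^ 2 ≠ 0 := pow_ne_zero 2 h3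
  unfold hm at h2
  rw [div_pow, sub_mul, one_mul, div_mul_eq_mul_div, h1.1, sub_eq_iff_eq_add, div_eq_iff h4]
  linear_combination (-1 : ℂ) * h2

theorem u_norm (I : Inner R h g L) (B : Br r R h g E H) {z : ℂ} (hz : ‖z‖ ≤ 4 / 25) :
    ‖(H z / E z) ^ 2 - 1‖ * ‖h z‖ = ‖g z‖ := by
  rw [← norm_mul, u_sq I B hz, RCLike.norm_conj]

theorem u_zero (B : Br r R h g E H) : H 0 / E 0 = 1 := by
  rw [B.H0, B.hE.zero, div_one]

theorem u_near (I : Inner R h g L) (B : Br r R h g E H) {z : ℂ} (hz : ‖z‖ ≤ 4 / 25) :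
    ‖(H z / E z) ^ 2 - 1‖ ≤ 131 / 1000 := by
  rcases eq_or_ne z 0 with h0 | h0
  · rw [h0, B.u_zero]
    norm_num
  · have h1 := norm_pos_iff.2 (I.h_ne hz h0)
    have h2 := I.g_h hz
    rw [← u_norm I B hz] at h2
    exact le_of_mul_le_mul_right h2 h1

theorem u_re (I : Inner R h g L) (B : Br r R h g E H) {z : ℂ} (hz : ‖z‖ ≤ 4 / 25) :
    0 < (H z / E z).re := by
  by_contra hc
  rw [not_lt] at hc
  have hcont : ContinuousOn (fun t : ℝ => (H ((t : ℂ) * z) / E ((t : ℂ) * z)).re) (Icc 0 1) := by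
    have h1 : ContinuousOn (fun t : ℝ => (t : ℂ) * z) (Icc 0 1) := by fun_prop
    have h2 : ContinuousOn (fun t : ℝ => H ((t : ℂ) * z)) (Icc 0 1) :=
      B.dH.continuousOn.comp h1 (fun t ht => B.memr (Inner.tz hz ht).2.1)
    have h3 : ContinuousOn (fun t : ℝ => E ((t : ℂ) * z)) (Icc 0 1) :=
      B.hE.cont.comp h1 (fun t ht => I.mem (Inner.tz hz ht).2.1)
    exact Complex.continuous_re.comp_continuousOn
      (h2.div h3 (fun t ht => B.hE.ne _ (I.mem (Inner.tz hz ht).2.1)))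
  have hmem : (0 : ℝ) ∈ Icc ((H (((1 : ℝ) : ℂ) * z) / E (((1 : ℝ) : ℂ) * z)).re)
      ((H (((0 : ℝ) : ℂ) * z) / E (((0 : ℝ) : ℂ) * z)).re) := by
    refine ⟨by simpa using hc, ?_⟩
    rw [Complex.ofReal_zero, zero_mul, B.u_zero]
    norm_num
  obtain ⟨t, ht, ht0⟩ := intermediate_value_Icc' zero_le_one hcont hmem
  simp only at ht0
  have h4 := u_near I B (Inner.tz hz ht).2.1
  set u := H ((t : ℂ) * z) / E ((t : ℂ) * z) with hu
  have h5 := (Complex.abs_re_le_norm (u ^ 2 - 1)).trans h4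
  have h6 : (u ^ 2 - 1).re = -(1 + u.im ^ 2) := by
    rw [Complex.sub_re, Complex.one_re, pow_two, Complex.mul_re, ht0]
    ring
  rw [h6, abs_neg] at h5
  have h7 := le_abs_self (1 + u.im ^ 2)
  have h8 := sq_nonneg u.im
  linarith

theorem H_norm (B : Br r R h g E H) {z : ℂ} (hz : ‖z‖ = 4 / 25) : ‖H z‖ ^ 2 * ‖h z‖ = 4 / 25 := by
  rw [← norm_pow, ← norm_mul, (B.sqH z (B.memr hz.le)).1, hz]

theorem inv_u (B : Br r R h g E H) {z : ℂ} (hz : ‖z‖ ≤ 4 / 25) :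
    E z = H z * (H z / E z)⁻¹ := by
  rw [inv_div, mul_div_cancel₀ _ (B.sqH z (B.memr hz)).2]

theorem h_cube_ge (I : Inner R h g L) {z : ℂ} (hz : ‖z‖ = 4 / 25) :
    (4 / 25 * Real.exp (29 / 4 * z.re) * XX (29 / 4 * z.re)) ^ 3 ≤ ‖h z‖ ^ 3 := by
  have h1 := I.h_ge hz.le
  rw [hz] at h1
  have h2 := Inner.XX_pos hz.le
  have h3 := Real.exp_pos (29 / 4 * z.re)
  exact pow_le_pow_left₀ (by positivity) h1 3

theorem d_bound (I : Inner R h g L) (B : Br r R h g E H) {z : ℂ} (hz : ‖z‖ = 4 / 25) :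
    ‖E z - H z‖ ^ 2 ≤ (4 / 25) ^ 2 * ZZ (29 / 4 * z.re) := by
  have hn := u_near I B hz.le
  have hr := (root_near (u_re I B hz.le) le_rfl hn).1
  have hg := I.g_le hz.le
  have hgn := u_norm I B hz.le
  have hH := B.H_norm hz
  have hc := h_cube_ge I hz
  have hX := Inner.XX_pos hz.le
  have hxb := abs_le.1 (Inner.xi_bd hz.le)
  rw [hz] at hg
  set x := 29 / 4 * z.re with hx
  have hZ := Z_poly (x := x) (by linarith [hxb.1]) hxb.2
  have hP := PsiG_nonneg (x := x) (by linarith [hxb.1]) hxb.2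
  set q := ‖(H z / E z) ^ 2 - 1‖ with hq
  set v := (H z / E z)⁻¹ with hv
  have e1 : E z - H z = H z * (v - 1) := by
    rw [mul_sub, mul_one, hv, ← B.inv_u hz.le]
  have h1 : ‖E z - H z‖ ^ 2 ≤ ‖H z‖ ^ 2 * (347 / 625 * q) ^ 2 := by
    rw [e1, norm_mul, mul_pow]
    exact mul_le_mul_of_nonneg_left (pow_le_pow_left₀ (norm_nonneg _) hr 2) (by positivity)
  have h2 : ‖E z - H z‖ ^ 2 * ‖h z‖ ^ 3 ≤ (347 / 625) ^ 2 * (4 / 25) * ‖g z‖ ^ 2 := by
    calc ‖E z - H z‖ ^ 2 * ‖h z‖ ^ 3 ≤ (‖H z‖ ^ 2 * (347 / 625 * q) ^ 2) * ‖h z‖ ^ 3 :=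
          mul_le_mul_of_nonneg_right h1 (by positivity)
      _ = (347 / 625) ^ 2 * (‖H z‖ ^ 2 * ‖h z‖) * (q * ‖h z‖) ^ 2 := by ring
      _ = (347 / 625) ^ 2 * (4 / 25) * ‖g z‖ ^ 2 := by rw [hH, hgn]
  have h3 : ‖g z‖ ^ 2 ≤ ((4 / 25) ^ 2 * Real.exp (3 / 2 * x) * PsiG x) ^ 2 :=
    pow_le_pow_left₀ (norm_nonneg _) hg 2
  have h4 : Real.exp (3 / 2 * x) ^ 2 = Real.exp x ^ 3 := by
    rw [← Real.exp_nat_mul, ← Real.exp_nat_mul]
    congr 1
    push_cast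
    ring
  have hex := Real.exp_pos x
  have h5 : ‖E z - H z‖ ^ 2 * (4 / 25 * Real.exp x * XX x) ^ 3
      ≤ ((4 / 25) ^ 2 * ZZ x) * (4 / 25 * Real.exp x * XX x) ^ 3 := by
    calc ‖E z - H z‖ ^ 2 * (4 / 25 * Real.exp x * XX x) ^ 3
        ≤ ‖E z - H z‖ ^ 2 * ‖h z‖ ^ 3 := mul_le_mul_of_nonneg_left hc (by positivity)
      _ ≤ (347 / 625) ^ 2 * (4 / 25) * ‖g z‖ ^ 2 := h2
      _ ≤ (347 / 625) ^ 2 * (4 / 25) * ((4 / 25) ^ 2 * Real.exp (3 / 2 * x) * PsiG x) ^ 2 :=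
          mul_le_mul_of_nonneg_left h3 (by positivity)
      _ = (4 / 25) ^ 5 * Real.exp x ^ 3 * ((347 / 625) ^ 2 * PsiG x ^ 2) := by
          rw [mul_pow, mul_pow, h4]; ring
      _ ≤ (4 / 25) ^ 5 * Real.exp x ^ 3 * (ZZ x * XX x ^ 3) := by
          apply mul_le_mul_of_nonneg_left _ (by positivity)
          linarith
      _ = ((4 / 25) ^ 2 * ZZ x) * (4 / 25 * Real.exp x * XX x) ^ 3 := by ring
  exact le_of_mul_le_mul_right h5 (by positivity)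

theorem w_bound (I : Inner R h g L) (B : Br r R h g E H) {z c : ℂ} (hz : ‖z‖ = 4 / 25)
    (hc1 : ‖c‖ = 1) :
    ‖E z ^ 3 * c * conj (deriv g z) - (E z ^ 3 - H z ^ 3) * deriv h z‖ ^ 2 ≤ 789 / 1000 := by
  have hn := u_near I B hz.le
  obtain ⟨-, hv1, hv3⟩ := root_near (u_re I B hz.le) le_rfl hn
  have hH := B.H_norm hz
  have hc := h_cube_ge I hz
  have hX := Inner.XX_pos hz.le
  have hxb := abs_le.1 (Inner.xi_bd hz.le)
  have hd := I.d_le hz.le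
  have hdil := I.dat.dil z (by rw [hz]; norm_num)
  rw [one_mul, pow_one, hz] at hdil
  rw [hz] at hd
  set x := 29 / 4 * z.re with hx
  have hC := C_poly (x := x) (by linarith [hxb.1]) hxb.2
  have hpe := exp_le_pe (y := x) (by linarith [hxb.1]) (by linarith [hxb.2])
  set v := (H z / E z)⁻¹ with hv
  have e1 : E z = H z * v := B.inv_u hz.le
  set T := ‖H z‖ ^ 3 * ‖deriv h z‖ with hT
  have hT0 : 0 ≤ T := by positivity
  have h1 : ‖E z ^ 3 * c * conj (deriv g z) - (E z ^ 3 - H z ^ 3) * deriv h z‖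
      ≤ T * (43202 / 100000) := by
    refine (norm_sub_le _ _).trans ?_
    have h2 : ‖E z ^ 3 * c * conj (deriv g z)‖ ≤ T * ((10000 / 9322) ^ 3 * (4 / 25)) := by
      rw [e1, norm_mul, norm_mul, norm_pow, norm_mul, hc1, mul_one, RCLike.norm_conj, mul_pow]
      calc ‖H z‖ ^ 3 * ‖v‖ ^ 3 * ‖deriv g z‖
          ≤ ‖H z‖ ^ 3 * (10000 / 9322) ^ 3 * (4 / 25 * ‖deriv h z‖) := by
            apply mul_le_mul _ hdil (norm_nonneg _) (by positivity)
            exact mul_le_mul_of_nonneg_left (pow_le_pow_left₀ (norm_nonneg _) hv1 3)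
              (by positivity)
        _ = T * ((10000 / 9322) ^ 3 * (4 / 25)) := by rw [hT]; ring
    have h3 : ‖(E z ^ 3 - H z ^ 3) * deriv h z‖ ≤ T * (2345 / 10000) := by
      have e2 : E z ^ 3 - H z ^ 3 = H z ^ 3 * (v ^ 3 - 1) := by
        rw [e1]; ring
      rw [e2, norm_mul, norm_mul, norm_pow]
      calc ‖H z‖ ^ 3 * ‖v ^ 3 - 1‖ * ‖deriv h z‖
          ≤ ‖H z‖ ^ 3 * (2345 / 10000) * ‖deriv h z‖ := by
            apply mul_le_mul_of_nonneg_right _ (norm_nonneg _)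
            exact mul_le_mul_of_nonneg_left hv3 (by positivity)
        _ = T * (2345 / 10000) := by rw [hT]; ring
    calc _ ≤ T * ((10000 / 9322) ^ 3 * (4 / 25)) + T * (2345 / 10000) := add_le_add h2 h3
      _ = T * ((10000 / 9322) ^ 3 * (4 / 25) + 2345 / 10000) := by ring
      _ ≤ T * (43202 / 100000) := mul_le_mul_of_nonneg_left (by norm_num) hT0
  have hex := Real.exp_pos x
  have h4 : ‖deriv h z‖ ^ 2 ≤ (Real.exp x ^ 2 * (1113 / 1000)) ^ 2 := by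
    apply pow_le_pow_left₀ (norm_nonneg _)
    refine hd.trans (le_of_eq ?_)
    have h5 : Real.exp (29 / 2 * z.re) = Real.exp x ^ 2 := by
      rw [← Real.exp_nat_mul, hx]
      congr 1
      push_cast
      ring
    rw [h5]
    norm_num
  have h6 : T ^ 2 * (4 / 25 * Real.exp x * XX x) ^ 3
      ≤ (341 / 100 * (1113 / 1000) ^ 2) * (4 / 25 * Real.exp x * XX x) ^ 3 := by
    calc T ^ 2 * (4 / 25 * Real.exp x * XX x) ^ 3
        ≤ T ^ 2 * ‖h z‖ ^ 3 := mul_le_mul_of_nonneg_left hc (by positivity)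
      _ = (‖H z‖ ^ 2 * ‖h z‖) ^ 3 * ‖deriv h z‖ ^ 2 := by rw [hT]; ring
      _ = (4 / 25) ^ 3 * ‖deriv h z‖ ^ 2 := by rw [hH]
      _ ≤ (4 / 25) ^ 3 * (Real.exp x ^ 2 * (1113 / 1000)) ^ 2 :=
          mul_le_mul_of_nonneg_left h4 (by positivity)
      _ = (4 / 25) ^ 3 * Real.exp x ^ 3 * (1113 / 1000) ^ 2 * Real.exp x := by ring
      _ ≤ (4 / 25) ^ 3 * Real.exp x ^ 3 * (1113 / 1000) ^ 2 * (341 / 100 * XX x ^ 3) := by
          apply mul_le_mul_of_nonneg_left _ (by positivity)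
          linarith
      _ = (341 / 100 * (1113 / 1000) ^ 2) * (4 / 25 * Real.exp x * XX x) ^ 3 := by ring
  have h7 : T ^ 2 ≤ 341 / 100 * (1113 / 1000) ^ 2 := le_of_mul_le_mul_right h6 (by positivity)
  calc ‖E z ^ 3 * c * conj (deriv g z) - (E z ^ 3 - H z ^ 3) * deriv h z‖ ^ 2
      ≤ (T * (43202 / 100000)) ^ 2 := pow_le_pow_left₀ (norm_nonneg _) h1 2
    _ = T ^ 2 * (43202 / 100000) ^ 2 := by ring
    _ ≤ (341 / 100 * (1113 / 1000) ^ 2) * (43202 / 100000) ^ 2 :=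
        mul_le_mul_of_nonneg_right h7 (by positivity)
    _ ≤ 789 / 1000 := by norm_num

end Br

end Pool.Agent.HU26
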