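import Pool.Agent.HU26.Fourier

set_option autoImplicit false

open Complex Set MeasureTheory Filter Topology Metric
open scoped Real

namespace Pool.Agent.HU26

/-- Data: a normalised univalent sense preserving harmonic map `h + conj g` on a disc of radius
`R > 1` with `|g'| ≤ κ |z|^m |h'|` on the closed unit disc. -/
structure Dat (κ : ℝ) (m : ℕ) (R : ℝ) (h g : ℂ → ℂ) : Prop where
  R1 : 1 < R
  κ0 : 0 < κ
  κ1 : κ ≤ 1
  m1 : 1 ≤ m
  dh : DifferentiableOn ℂ h (ball 0 R)
  dg : DifferentiableOn ℂ g (ball 0 R)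
  h0 : h 0 = 0
  g0 : g 0 = 0
  h1 : deriv h 0 = 1
  sense : ∀ z ∈ ball (0 : ℂ) R, ‖deriv g z‖ < ‖deriv h z‖
  inj : InjOn (fun z => h z + (starRingEnd ℂ) (g z)) (ball 0 R)
  dil : ∀ z : ℂ, ‖z‖ ≤ 1 → ‖deriv g z‖ ≤ κ * ‖z‖ ^ m * ‖deriv h z‖

/-- the harmonic map -/
noncomputable def hm (h g : ℂ → ℂ) (z : ℂ) : ℂ := h z + (starRingEnd ℂ) (g z)

/-- point with polar coordinates -/
noncomputable def pt (t x : ℝ) : ℂ := t * cexp (x * I)

theorem norm_pt (t x : ℝ) : ‖pt t x‖ = |t| := by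
  unfold pt
  rw [norm_mul, Complex.norm_exp_ofReal_mul_I, mul_one, Complex.norm_real, Real.norm_eq_abs]

theorem pt_mem_ball {R t : ℝ} (x : ℝ) (ht : t ∈ Ioo (-R) R) : pt t x ∈ ball (0 : ℂ) R := by
  rw [mem_ball_zero_iff, norm_pt, abs_lt]; exact ht

theorem pt_ne_zero {t : ℝ} (x : ℝ) (ht : t ≠ 0) : pt t x ≠ 0 := by
  unfold pt
  exact mul_ne_zero (by exact_mod_cast ht) (Complex.exp_ne_zero _)

theorem continuous_pt : Continuous (fun p : ℝ × ℝ => pt p.1 p.2) := by
  unfold pt; fun_prop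

theorem pt_hasDerivAt_fst (t x : ℝ) : HasDerivAt (fun t => pt t x) (cexp (x * I)) t := by
  unfold pt
  have := (Complex.ofRealCLM.hasDerivAt (x := t)).mul_const (cexp (x * I))
  simpa using this

theorem pt_hasDerivAt_snd (t x : ℝ) : HasDerivAt (fun x => pt t x) (I * pt t x) x := by
  unfold pt
  have h1 : HasDerivAt (fun x : ℝ => ((x : ℂ) * I)) I x := by
    have := (Complex.ofRealCLM.hasDerivAt (x := x)).mul_const I
    simpa using this
  have := h1.cexp.const_mul (t : ℂ)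
  exact this.congr_deriv (by ring)

theorem pt_pi (t : ℝ) : pt t π = pt t (-π) := by
  unfold pt
  congr 1
  rw [Complex.exp_eq_exp_iff_exists_int]
  exact ⟨1, by push_cast; ring⟩

namespace Dat

variable {κ R : ℝ} {m : ℕ} {h g : ℂ → ℂ}

theorem R0 (D : Dat κ m R h g) : 0 < R := by linarith [D.R1]

theorem g1 (D : Dat κ m R h g) : deriv g 0 = 0 := by
  have h1 := D.dil 0 (by simp)
  have hm := D.m1
  rw [norm_zero, zero_pow (by omega), mul_zero, zero_mul] at h1
  exact norm_le_zero_iff.1 h1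

theorem hda (D : Dat κ m R h g) {z : ℂ} (hz : z ∈ ball (0 : ℂ) R) :
    HasDerivAt h (deriv h z) z :=
  ((D.dh z hz).differentiableAt (isOpen_ball.mem_nhds hz)).hasDerivAt

theorem gda (D : Dat κ m R h g) {z : ℂ} (hz : z ∈ ball (0 : ℂ) R) :
    HasDerivAt g (deriv g z) z :=
  ((D.dg z hz).differentiableAt (isOpen_ball.mem_nhds hz)).hasDerivAt

theorem dh' (D : Dat κ m R h g) : DifferentiableOn ℂ (deriv h) (ball 0 R) :=
  D.dh.deriv isOpen_ball

theorem dg' (D : Dat κ m R h g) : DifferentiableOn ℂ (deriv g) (ball 0 R) :=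
  D.dg.deriv isOpen_ball

theorem f_ne (D : Dat κ m R h g) {z : ℂ} (hz : z ∈ ball (0 : ℂ) R) (hz0 : z ≠ 0) :
    hm h g z ≠ 0 := by
  intro hf
  apply hz0
  apply D.inj hz (mem_ball_self D.R0)
  simp only
  rw [show h z + (starRingEnd ℂ) (g z) = 0 from hf, D.h0, D.g0]
  simp

theorem cont_hm (D : Dat κ m R h g) : ContinuousOn (hm h g) (ball 0 R) := by
  unfold hm
  exact D.dh.continuousOn.add (Complex.continuous_conj.comp_continuousOn D.dg.continuousOn)

/-- the derivative of the harmonic map at `0` is the identity -/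
theorem strict_zero (D : Dat κ m R h g) :
    HasStrictFDerivAt (hm h g) (ContinuousLinearMap.id ℝ ℂ) 0 := by
  have hz := mem_ball_self (x := (0 : ℂ)) D.R0
  have ah : AnalyticAt ℂ h 0 := D.dh.analyticAt (isOpen_ball.mem_nhds hz)
  have ag : AnalyticAt ℂ g 0 := D.dg.analyticAt (isOpen_ball.mem_nhds hz)
  have h1 : HasStrictDerivAt h 1 0 := by
    have := ah.hasStrictDerivAt
    rwa [D.h1] at this
  have h2 : HasStrictDerivAt g 0 0 := by
    have := ag.hasStrictDerivAt
    rwa [D.g1] at this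
  have h3 := h1.hasStrictFDerivAt.restrictScalars ℝ
  have h4 := h2.hasStrictFDerivAt.restrictScalars ℝ
  have h5 := (Complex.conjCLE.toContinuousLinearMap.hasStrictFDerivAt (x := g 0)).comp (0 : ℂ) h4
  have h6 := h3.add h5
  refine (h6.congr_fderiv ?_)
  ext z
  simp

theorem hm_zero (D : Dat κ m R h g) : hm h g 0 = 0 := by simp [hm, D.h0, D.g0]

theorem tendsto_hm_div (D : Dat κ m R h g) :
    Tendsto (fun z => z⁻¹ * hm h g z) (𝓝[≠] (0 : ℂ)) (𝓝 1) := by
  have hz := mem_ball_self (x := (0 : ℂ)) D.R0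
  have h1 := (D.hda hz)
  have h2 := (D.gda hz)
  rw [D.h1] at h1
  rw [D.g1] at h2
  rw [hasDerivAt_iff_tendsto_slope_zero] at h1 h2
  simp only [zero_add, D.h0, D.g0, sub_zero, smul_eq_mul] at h1 h2
  have h3 : Tendsto (fun z => z⁻¹ * (starRingEnd ℂ) (g z)) (𝓝[≠] (0 : ℂ)) (𝓝 0) := by
    rw [tendsto_zero_iff_norm_tendsto_zero] at h2 ⊢
    apply h2.congr
    intro z
    rw [norm_mul, norm_mul, RCLike.norm_conj]
  have h4 := h1.add h3
  rw [add_zero] at h4
  apply h4.congr
  intro z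
  unfold hm
  ring

/-- existence of the branch `E = (f/z)^{-1/2}`. -/
theorem exists_E (D : Dat κ m R h g) : ∃ E : ℂ → ℂ, ContinuousOn E (ball 0 R) ∧ E 0 = 1 ∧
    ∀ z ∈ ball (0 : ℂ) R, E z ^ 2 * hm h g z = z ∧ E z ≠ 0 := by
  classical
  set q : ℂ → ℂ := fun z => if z = 0 then 1 else z / hm h g z with hq
  have hq0 : q 0 = 1 := by simp [hq]
  have hqc : ContinuousOn q (ball 0 R) := by
    intro z hz
    apply ContinuousAt.continuousWithinAt
    by_cases hz0 : z = 0
    · subst hz0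
      rw [continuousAt_iff_punctured_nhds, hq0]
      have h1 := D.tendsto_hm_div.inv₀ one_ne_zero
      rw [inv_one] at h1
      apply h1.congr'
      filter_upwards [self_mem_nhdsWithin] with z hz1
      have hz2 : z ≠ 0 := hz1
      simp only [hq, if_neg hz2, mul_inv, inv_inv]
      rfl
    · have h1 : ∀ᶠ w in 𝓝 z, w / hm h g w = q w := by
        filter_upwards [isOpen_ne.mem_nhds hz0] with w hw
        simp only [hq, if_neg hw]
      apply ContinuousAt.congr _ h1
      have h2 : ContinuousAt (hm h g) z := D.cont_hm.continuousAt (isOpen_ball.mem_nhds hz)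
      exact continuousAt_id.div h2 (D.f_ne hz hz0)
  have hqn : ∀ z ∈ ball (0 : ℂ) R, q z ≠ 0 := by
    intro z hz
    by_cases hz0 : z = 0
    · subst hz0; rw [hq0]; exact one_ne_zero
    · simp only [hq, if_neg hz0]
      exact div_ne_zero hz0 (D.f_ne hz hz0)
  have hsc : IsSimplyConnected (ball (0 : ℂ) R) := by
    have := contractibleSpace_ball (x := (0 : ℂ)) D.R0
    unfold IsSimplyConnected
    infer_instance
  obtain ⟨E0, hE0c, hE0⟩ := Complex.exists_continuousOn_pow_eq hsc isOpen_ball hqc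
    (by rintro ⟨z, hz, hz2⟩; exact hqn z hz hz2) two_ne_zero
  have h00 : E0 0 ^ 2 = 1 := by rw [hE0, hq0]
  have h0n : E0 0 ≠ 0 := by
    intro hc; rw [hc] at h00; norm_num at h00
  refine ⟨fun z => E0 z / E0 0, hE0c.div_const _, div_self h0n, fun z hz => ⟨?_, ?_⟩⟩
  · rw [div_pow, h00, div_one, hE0]
    by_cases hz0 : z = 0
    · subst hz0
      simp [hm, D.h0, D.g0]
    · simp only [hq, if_neg hz0]
      exact div_mul_cancel₀ z (D.f_ne hz hz0)
  · apply div_ne_zero _ h0n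
    intro hc
    apply hqn z hz
    rw [← hE0, hc]
    simp

end Dat

end Pool.Agent.HU26
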