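import Pool.Agent.HU26.Contra

set_option autoImplicit false

open Complex Set MeasureTheory Filter Topology Metric
open scoped Real ComplexConjugate

namespace Pool.Agent.HU26

variable {r R : ℝ} {h g L E H : ℂ → ℂ}

theorem re_pt (t x : ℝ) : (pt t x).re = t * Real.cos x := by
  unfold pt
  rw [Complex.re_ofReal_mul, Complex.exp_ofReal_mul_I_re]

theorem npt (x : ℝ) : ‖pt (4 / 25) x‖ = 4 / 25 := by
  rw [norm_pt, abs_of_pos (by norm_num)]

theorem mean_d (I : Inner R h g L) (B : Br r R h g E H)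
    (hc : Continuous (fun x => e E (4 / 25) x - H (pt (4 / 25) x))) :
    (mean fun x => ‖e E (4 / 25) x - H (pt (4 / 25) x)‖ ^ 2) ≤ 3878 / 1000000 := by
  have h1 : (mean fun x => ‖e E (4 / 25) x - H (pt (4 / 25) x)‖ ^ 2) ≤
      mean fun x => (4 / 25) ^ 2 * (259 / 1000)
        + (4 / 25) ^ 2 * ((-21 / 500) * (29 / 25)) * Real.cos x
        + (4 / 25) ^ 2 * ((-143 / 500) * (29 / 25) ^ 2) * Real.cos x ^ 2
        + (4 / 25) ^ 2 * ((17 / 1000) * (29 / 25) ^ 3) * Real.cos x ^ 3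
        + (4 / 25) ^ 2 * ((1 / 8) * (29 / 25) ^ 4) * Real.cos x ^ 4 := by
    apply mean_mono
    · fun_prop
    · fun_prop
    · intro x
      refine (Br.d_bound I B (npt x)).trans (le_of_eq ?_)
      rw [re_pt]
      unfold ZZ
      ring
  refine h1.trans ?_
  rw [mean_quartic]
  norm_num

theorem inner_contra (J : Inner R h g L) (h2 : ds2 h 0 = 29 / 4) : False := by
  have D := J.dat
  obtain ⟨E, hEc, hE0, hEs⟩ := D.exists_E
  have hE : IsE R h g E := ⟨hEc, hE0, fun z hz => (hEs z hz).1, fun z hz => (hEs z hz).2⟩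
  obtain ⟨r, H, hr1, hrR, hHd, hH0, hHs, hHd0⟩ := J.exists_H
  have B : Br r R h g E H := ⟨hr1, hrR, hHd, hH0, hHs, hHd0, hE⟩
  have hR1 := D.R1
  have hs : (4 / 25 : ℝ) ∈ Ioo 0 R := ⟨by norm_num, by linarith⟩
  have hs' : (4 / 25 : ℝ) ∈ Ioo (-R) R := pos_sub D hs
  have hsr : (4 / 25 : ℝ) ∈ Ioo 0 r := ⟨by norm_num, hr1⟩
  have hsr' : (4 / 25 : ℝ) ∈ Ioo (-r) r := ⟨by linarith, hr1⟩
  have ce : Continuous (e E (4 / 25)) := slice (cont_e hE) hs'
  have cH : Continuous (fun x => H (pt (4 / 25) x)) :=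
    slice (G := fun t x => H (pt t x)) (an_cont hHd) hsr'
  have cP : Continuous (P E h (4 / 25)) := slice (cont_P D hE) hs'
  have cQ : Continuous (Q E g (4 / 25)) := slice (cont_Q D hE) hs'
  have hFd : DifferentiableOn ℂ (fun z => H z ^ 3 * deriv h z) (ball 0 r) :=
    (hHd.pow 3).mul (D.dh'.mono (ball_subset_ball hrR))
  have cF : Continuous (fun x => H (pt (4 / 25) x) ^ 3 * deriv h (pt (4 / 25) x)) :=
    slice (G := fun t x => H (pt t x) ^ 3 * deriv h (pt t x)) (an_cont hFd) hsr'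
  set d : ℝ → ℂ := fun x => e E (4 / 25) x - H (pt (4 / 25) x) with hd
  set w : ℝ → ℂ := fun x => (Q E g (4 / 25) x - P E h (4 / 25) x)
    - H (pt (4 / 25) x) ^ 3 * deriv h (pt (4 / 25) x) with hw
  have cd : Continuous d := ce.sub cH
  have cw : Continuous w := (cQ.sub cP).sub cF
  -- modes
  have dn : ∀ n, FC d n = En E (4 / 25) n - FC (fun x => H (pt (4 / 25) x)) n := fun n => by
    rw [hd, FC_sub ce cH]; rfl
  have wn : ∀ n, FC w n = (Qn E g (4 / 25) n - Pn E h (4 / 25) n)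
      - FC (fun x => H (pt (4 / 25) x) ^ 3 * deriv h (pt (4 / 25) x)) n := fun n => by
    have c1 : Continuous (fun x => Q E g (4 / 25) x - P E h (4 / 25) x) := cQ.sub cP
    rw [hw, FC_sub c1 cF]
    congr 1
    exact FC_sub cQ cP n
  have dneg : ∀ k : ℕ, 1 ≤ k → FC d (-(k : ℤ)) = En E (4 / 25) (-(k : ℤ)) := fun k hk => by
    rw [dn, an_modes_neg hHd (by omega) hsr, sub_zero]
  have wneg : ∀ k : ℕ, 1 ≤ k →
      FC w (-(k : ℤ)) = (2 * (k : ℂ) + 1) * En E (4 / 25) (-(k : ℤ)) := fun k hk => by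
    rw [wn, an_modes_neg hFd (by omega) hsr, sub_zero, Pn_eq D hE hs]
    push_cast
    ring
  -- means
  have md : (mean fun x => ‖d x‖ ^ 2) ≤ 3878 / 1000000 := mean_d J B cd
  have mw : (mean fun x => ‖w x‖ ^ 2) ≤ 789 / 1000 := by
    have h3 : (mean fun x => ‖w x‖ ^ 2) ≤ mean fun _ => 789 / 1000 := by
      apply mean_mono (by fun_prop) (by fun_prop)
      intro x
      have hcn : ‖cexp (-(2 * (x : ℂ) * I))‖ = 1 := by
        rw [show (-(2 * (x : ℂ) * I)) = ((-(2 * x) : ℝ) : ℂ) * I by push_cast; ring,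
          Complex.norm_exp_ofReal_mul_I]
      have h4 := Br.w_bound J B (npt x) hcn
      refine le_trans (le_of_eq ?_) h4
      congr 1
      rw [← norm_neg]
      congr 1
      simp only [hw, Q, P]
      ring
    rwa [mean_const] at h3
  -- Bessel
  have bes : ∀ M : ℕ, ‖FC d 1‖ ^ 2 + (‖FC d 0‖ ^ 2
      + ∑ k ∈ Finset.Icc 1 M, ‖FC d (-(k : ℤ))‖ ^ 2) ≤ 3878 / 1000000 := by
    intro M
    have h3 := (bessel cd (insert 1 (insert 0
      ((Finset.Icc 1 M).image fun k : ℕ => (-(k : ℤ)))))).trans md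
    have hn0 : (0 : ℤ) ∉ (Finset.Icc 1 M).image fun k : ℕ => (-(k : ℤ)) := by
      simp only [Finset.mem_image, Finset.mem_Icc, not_exists, not_and]
      intro k hk
      omega
    have hn1 : (1 : ℤ) ∉ insert 0 ((Finset.Icc 1 M).image fun k : ℕ => (-(k : ℤ))) := by
      simp only [Finset.mem_insert, Finset.mem_image, Finset.mem_Icc, not_or, not_exists, not_and]
      refine ⟨by norm_num, fun k hk => ?_⟩
      omega
    rw [Finset.sum_insert hn1, Finset.sum_insert hn0, Finset.sum_image (by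
      intro a _ b _ hab
      simp only [neg_inj, Nat.cast_inj] at hab
      exact hab)] at h3
    exact h3
  have besw : ∀ M : ℕ, ∑ k ∈ Finset.Icc 1 M, ‖FC w (-(k : ℤ))‖ ^ 2 ≤ 789 / 1000 := by
    intro M
    have h3 := (bessel cw ((Finset.Icc 1 M).image fun k : ℕ => (-(k : ℤ)))).trans mw
    rw [Finset.sum_image (by
      intro a _ b _ hab
      simp only [neg_inj, Nat.cast_inj] at hab
      exact hab)] at h3
    exact h3
  have hB : ∀ M : ℕ, ∑ k ∈ Finset.Icc 1 M, (2 * (k : ℝ) + 1) * ‖En E (4 / 25) (-(k : ℤ))‖ ^ 2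
      ≤ 1 / 2 * (1 / 100 * (789 / 1000)
        + 100 * (3878 / 1000000 - (‖FC d 0‖ ^ 2 + ‖FC d 1‖ ^ 2))) := by
    intro M
    have h3 : ∑ k ∈ Finset.Icc 1 M, (2 * (k : ℝ) + 1) * ‖En E (4 / 25) (-(k : ℤ))‖ ^ 2
        ≤ ∑ k ∈ Finset.Icc 1 M, (1 / 200 * ‖FC w (-(k : ℤ))‖ ^ 2
          + 50 * ‖FC d (-(k : ℤ))‖ ^ 2) := by
      apply Finset.sum_le_sum
      intro k hk
      have hk1 := (Finset.mem_Icc.1 hk).1
      rw [wneg k hk1, dneg k hk1, norm_mul]
      have h4 : ‖(2 * (k : ℂ) + 1)‖ = 2 * k + 1 := by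
        have h5 : (2 * (k : ℂ) + 1) = ((2 * k + 1 : ℝ) : ℂ) := by push_cast; ring
        rw [h5, Complex.norm_real, Real.norm_of_nonneg (by positivity)]
      rw [h4]
      nlinarith [mul_nonneg (sq_nonneg ((2 * (k : ℝ) + 1) - 100))
        (sq_nonneg ‖En E (4 / 25) (-(k : ℤ))‖)]
    refine h3.trans ?_
    rw [Finset.sum_add_distrib, ← Finset.mul_sum, ← Finset.mul_sum]
    have h4 := bes M
    have h5 := besw M
    linarith
  have key := lyapunov D hE (Y := Y1) (Y' := Y1') (s := 4 / 25) (by norm_num) (by norm_num)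
    (fun t _ => (Y1_deriv t).continuousAt.continuousWithinAt) (fun t _ => Y1_deriv t)
    (fun t ht => Y1_pos ht.1 ht.2) Y1_one (fun t ht => Y1_ode ht.1 ht.2) (area D hE) hB
  have e1 : FC d 1 = En E (4 / 25) 1 + 29 / 50 := by
    rw [dn, an_modes_one hHd hsr, hHd0, h2]
    push_cast
    ring
  have e0 : FC d 0 = En E (4 / 25) 0 - 1 := by
    rw [dn, an_modes_zero hHd hsr, hH0]
  have a1 : 58 / 100 - ‖FC d 1‖ ≤ ‖En E (4 / 25) 1‖ := by
    have h3 : (29 / 50 : ℂ) = FC d 1 - En E (4 / 25) 1 := by rw [e1]; ring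
    have h4 := norm_sub_le (FC d 1) (En E (4 / 25) 1)
    rw [← h3] at h4
    have h5 : ‖(29 / 50 : ℂ)‖ = 29 / 50 := by norm_num
    rw [h5] at h4
    linarith
  have a0 : ‖En E (4 / 25) 0‖ ≤ 1 + ‖FC d 0‖ := by
    have h3 : En E (4 / 25) 0 = 1 + FC d 0 := by rw [e0]; ring
    rw [h3]
    exact (norm_add_le _ _).trans (by rw [norm_one])
  have hd01 : ‖FC d 0‖ ^ 2 + ‖FC d 1‖ ^ 2 ≤ 3878 / 1000000 := by
    have h3 := bes 0
    simp only [Finset.Icc_eq_empty (by norm_num : ¬ (1 ≤ 0)), Finset.sum_empty] at h3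
    linarith
  exact final_num Y1_val a1 a0 (norm_nonneg _) (norm_nonneg _) hd01 key

end Pool.Agent.HU26
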