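import Mathlib

set_option autoImplicit false

open Complex Set MeasureTheory Filter Topology
open scoped Real Interval

namespace Pool.Agent.HU26

/-- Fourier coefficient on the interval `[-π, π]`. -/
noncomputable def FC (u : ℝ → ℂ) (n : ℤ) : ℂ :=
  (1 / (2 * π) : ℝ) * ∫ x in (-π)..π, cexp (-(n * x * I)) * u x

/-- normalised mean over `[-π, π]`. -/
noncomputable def mean (u : ℝ → ℝ) : ℝ := (1 / (2 * π)) * ∫ x in (-π)..π, u x

theorem negpi_lt_pi : (-π : ℝ) < π := by have := Real.pi_pos; linarith

theorem FC_eq_fourierCoeffOn (u : ℝ → ℂ) (n : ℤ) :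
    FC u n = fourierCoeffOn negpi_lt_pi u n := by
  rw [fourierCoeffOn_eq_integral]
  have hb : π - -π = 2 * π := by ring
  unfold FC
  rw [Complex.real_smul]
  congr 1
  · rw [hb]
  · apply intervalIntegral.integral_congr
    intro x _
    simp only [smul_eq_mul]
    congr 1
    rw [fourier_coe_apply]
    congr 1
    have hp : (π : ℂ) ≠ 0 := by exact_mod_cast Real.pi_ne_zero
    push_cast
    field_simp
    ring

theorem parseval {u : ℝ → ℂ} (hu : Continuous u) :
    HasSum (fun n : ℤ => ‖FC u n‖ ^ 2) (mean fun x => ‖u x‖ ^ 2) := by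
  have hL2 : MemLp u 2 (volume.restrict (Ioc (-π) π)) := by
    obtain ⟨C, hC⟩ := isCompact_Icc.exists_bound_of_continuousOn
      (s := Icc (-π) π) hu.continuousOn
    have : IsFiniteMeasure (volume.restrict (Ioc (-π) π)) :=
      ⟨by rw [Measure.restrict_apply_univ]; exact measure_Ioc_lt_top⟩
    refine MemLp.of_bound hu.aestronglyMeasurable C ?_
    rw [ae_restrict_iff' measurableSet_Ioc]
    exact Eventually.of_forall fun x hx => hC x (Ioc_subset_Icc_self hx)
  have h := hasSum_sq_fourierCoeffOn negpi_lt_pi hL2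
  have hb : π - -π = 2 * π := by ring
  unfold mean
  simp only [FC_eq_fourierCoeffOn]
  convert h using 1
  rw [hb, smul_eq_mul, one_div]

theorem bessel {u : ℝ → ℂ} (hu : Continuous u) (s : Finset ℤ) :
    ∑ n ∈ s, ‖FC u n‖ ^ 2 ≤ mean fun x => ‖u x‖ ^ 2 :=
  sum_le_hasSum s (fun _ _ => by positivity) (parseval hu)

theorem FC_add {u v : ℝ → ℂ} (hu : Continuous u) (hv : Continuous v) (n : ℤ) :
    FC (fun x => u x + v x) n = FC u n + FC v n := by
  unfold FC
  rw [← mul_add, ← intervalIntegral.integral_add]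
  · simp only [mul_add]
  · exact (Continuous.intervalIntegrable (by fun_prop) _ _)
  · exact (Continuous.intervalIntegrable (by fun_prop) _ _)

theorem FC_const_mul (c : ℂ) (u : ℝ → ℂ) (n : ℤ) :
    FC (fun x => c * u x) n = c * FC u n := by
  unfold FC
  have h : (fun x : ℝ => cexp (-(n * x * I)) * (c * u x)) =
    fun x : ℝ => c * (cexp (-(n * x * I)) * u x) := by ext x; ring
  simp only [h]
  rw [intervalIntegral.integral_const_mul]
  ring

theorem FC_sub {u v : ℝ → ℂ} (hu : Continuous u) (hv : Continuous v) (n : ℤ) :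
    FC (fun x => u x - v x) n = FC u n - FC v n := by
  have h := FC_add hu (v := fun x => (-1 : ℂ) * v x) (by fun_prop) n
  rw [FC_const_mul] at h
  rw [show (fun x => u x - v x) = fun x => u x + (-1 : ℂ) * v x by ext x; ring, h]
  ring

/-- Fourier coefficient of a derivative of a periodic function. -/
theorem FC_deriv {u u' : ℝ → ℂ} (hu : ∀ x, HasDerivAt u (u' x) x) (hu' : Continuous u')
    (hper : u π = u (-π)) (n : ℤ) : FC u' n = n * I * FC u n := by
  unfold FC
  have hd : ∀ x : ℝ, HasDerivAt (fun x : ℝ => cexp (-(n * x * I)))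
      (-(n * I) * cexp (-(n * x * I))) x := by
    intro x
    have h1 : HasDerivAt (fun x : ℝ => (-(n * (x : ℂ) * I))) (-(n * I)) x := by
      have := ((Complex.ofRealCLM.hasDerivAt (x := x)).const_mul (n : ℂ)).mul_const I
      simp only [Complex.ofRealCLM_apply, Complex.ofReal_one, mul_one] at this
      exact this.neg
    convert h1.cexp using 1
    ring
  have hip := intervalIntegral.integral_mul_deriv_eq_deriv_mul (a := -π) (b := π)
    (u := fun x : ℝ => cexp (-(n * x * I))) (v := u)
    (u' := fun x : ℝ => -(n * I) * cexp (-(n * x * I))) (v' := u')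
    (fun x _ => hd x) (fun x _ => hu x)
    (Continuous.intervalIntegrable (by fun_prop) _ _)
    (hu'.intervalIntegrable _ _)
  have he : cexp (-(n * (π : ℝ) * I)) = cexp (-(n * ((-π : ℝ) : ℂ) * I)) := by
    rw [Complex.exp_eq_exp_iff_exists_int]
    refine ⟨-n, ?_⟩
    push_cast
    ring
  rw [hip, hper, he, sub_self, zero_sub]
  have h2 : (fun x : ℝ => -(n * I) * cexp (-(n * x * I)) * u x) =
      fun x : ℝ => -(n * I) * (cexp (-(n * x * I)) * u x) := by ext x; ring
  rw [h2, intervalIntegral.integral_const_mul]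
  ring

theorem mean_mono {u v : ℝ → ℝ} (hu : Continuous u) (hv : Continuous v) (h : ∀ x, u x ≤ v x) :
    mean u ≤ mean v := by
  unfold mean
  apply mul_le_mul_of_nonneg_left _ (by positivity)
  exact intervalIntegral.integral_mono negpi_lt_pi.le (hu.intervalIntegrable _ _)
    (hv.intervalIntegrable _ _) h

theorem mean_add {u v : ℝ → ℝ} (hu : Continuous u) (hv : Continuous v) :
    mean (fun x => u x + v x) = mean u + mean v := by
  unfold mean
  rw [intervalIntegral.integral_add (hu.intervalIntegrable _ _) (hv.intervalIntegrable _ _)]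
  ring

theorem mean_const_mul (c : ℝ) (u : ℝ → ℝ) : mean (fun x => c * u x) = c * mean u := by
  unfold mean
  rw [intervalIntegral.integral_const_mul]
  ring

theorem mean_sub {u v : ℝ → ℝ} (hu : Continuous u) (hv : Continuous v) :
    mean (fun x => u x - v x) = mean u - mean v := by
  unfold mean
  rw [intervalIntegral.integral_sub (hu.intervalIntegrable _ _) (hv.intervalIntegrable _ _)]
  ring

theorem mean_const (c : ℝ) : mean (fun _ => c) = c := by
  unfold mean
  rw [intervalIntegral.integral_const, smul_eq_mul]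
  have := Real.pi_pos
  field_simp
  ring

theorem norm_FC_le (u : ℝ → ℂ) (n : ℤ) : ‖FC u n‖ ≤ mean fun x => ‖u x‖ := by
  unfold FC mean
  rw [norm_mul, Complex.norm_real, Real.norm_of_nonneg (by positivity)]
  apply mul_le_mul_of_nonneg_left _ (by positivity)
  refine (intervalIntegral.norm_integral_le_integral_norm negpi_lt_pi.le).trans ?_
  apply le_of_eq
  apply intervalIntegral.integral_congr
  intro x _
  simp only [norm_mul]
  rw [show (-(n * (x : ℂ) * I)) = ((-(n * x) : ℝ) : ℂ) * I by push_cast; ring,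
    Complex.norm_exp_ofReal_mul_I, one_mul]

/-- Parseval for the pairing with the derivative. -/
theorem hasSum_two_n {u u' : ℝ → ℂ} (hu : ∀ x, HasDerivAt u (u' x) x) (hu' : Continuous u')
    (hper : u π = u (-π)) :
    HasSum (fun n : ℤ => (2 * (n : ℝ) - 1) * ‖FC u n‖ ^ 2)
      (mean fun x => 2 * ((starRingEnd ℂ (u x)) * (-I * u' x)).re - ‖u x‖ ^ 2) := by
  have huc : Continuous u := continuous_iff_continuousAt.2 fun x => (hu x).continuousAt
  have hDc : Continuous (fun x => -I * u' x) := by fun_prop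
  have hD : ∀ n : ℤ, FC (fun x => -I * u' x) n = n * FC u n := by
    intro n
    rw [FC_const_mul, FC_deriv hu hu' hper]
    linear_combination (-(n : ℂ) * FC u n) * Complex.I_mul_I
  have h1 := parseval (u := fun x => u x + -I * u' x) (by fun_prop)
  have h2 := parseval hDc
  have h3 := parseval huc
  have h4 := (h1.sub h2).sub (h3.mul_left 2)
  have hfun : (fun n : ℤ => (2 * (n : ℝ) - 1) * ‖FC u n‖ ^ 2) =
      fun n : ℤ => ‖FC (fun x => u x + -I * u' x) n‖ ^ 2 - ‖FC (fun x => -I * u' x) n‖ ^ 2
        - 2 * ‖FC u n‖ ^ 2 := by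
    ext n
    rw [FC_add huc hDc, hD]
    have hn : ‖(n : ℂ)‖ = |(n : ℝ)| := by
      rw [← Complex.ofReal_intCast, Complex.norm_real, Real.norm_eq_abs]
    rw [show FC u n + n * FC u n = ((1 + n : ℝ) : ℂ) * FC u n by push_cast; ring,
      norm_mul, Complex.norm_real, norm_mul, hn]
    rw [mul_pow, mul_pow, Real.norm_eq_abs, sq_abs, sq_abs]
    ring
  have hmean : (mean fun x => 2 * ((starRingEnd ℂ (u x)) * (-I * u' x)).re - ‖u x‖ ^ 2) =
      ((mean fun x => ‖u x + -I * u' x‖ ^ 2) - mean fun x => ‖-I * u' x‖ ^ 2)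
        - 2 * mean fun x => ‖u x‖ ^ 2 := by
    rw [← mean_const_mul, ← mean_sub (by fun_prop) (by fun_prop),
      ← mean_sub (by fun_prop) (by fun_prop)]
    congr 1
    ext x
    have h5 : ‖u x + -I * u' x‖ ^ 2 = ‖u x‖ ^ 2 + ‖-I * u' x‖ ^ 2
        + 2 * ((starRingEnd ℂ (u x)) * (-I * u' x)).re := by
      rw [← Complex.normSq_eq_norm_sq, ← Complex.normSq_eq_norm_sq, ← Complex.normSq_eq_norm_sq,
        Complex.normSq_add]
      congr 2
      simp [Complex.mul_re, Complex.mul_im]
      ring
    rw [h5]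
    ring
  rw [hfun, hmean]
  exact h4

end Pool.Agent.HU26
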