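import Pool.Agent.HU26.Anti

set_option autoImplicit false

open Complex Set MeasureTheory Filter Topology Metric
open scoped Real ComplexConjugate

namespace Pool.Agent.HU26

/-- hypotheses near the origin -/
structure Inner (R : ℝ) (h g L : ℂ → ℂ) : Prop where
  dat : Dat 1 1 R h g
  hexp : ∀ z : ℂ, ‖z‖ ≤ 4 / 25 → deriv h z = cexp (L z)
  hL : ∀ z : ℂ, ‖z‖ ≤ 4 / 25 → ‖L z - 29 / 2 * z‖ ≤ 83 / 20 * ‖z‖ ^ 2

theorem exp_sub_one_le {x : ℝ} (h0 : 0 ≤ x) (h1 : x ≤ 332 / 3125) :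
    Real.exp x - 1 ≤ (113 / 1000) * (x / (332 / 3125)) := by
  have h2 := exp_le_pe (y := x) (by linarith) (by linarith)
  have h3 : pe x - 1 ≤ (113 / 1000) * (x / (332 / 3125)) := by
    unfold pe
    have h4 : x * (1 + x / 2 + x ^ 2 / 6 + 63 / 1000 * x ^ 3) ≤ x * (113 / 1000 / (332 / 3125)) := by
      apply mul_le_mul_of_nonneg_left _ h0
      have h5 : x ^ 2 ≤ (332 / 3125) ^ 2 := pow_le_pow_left₀ h0 h1 2
      have h6 : x ^ 3 ≤ (332 / 3125) ^ 3 := pow_le_pow_left₀ h0 h1 3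
      norm_num at h5 h6 ⊢
      linarith
    have h7 : x * (113 / 1000 / (332 / 3125)) = (113 / 1000) * (x / (332 / 3125)) := by ring
    rw [← h7]
    refine le_trans (le_of_eq ?_) h4
    ring
  linarith

theorem norm_exp_sub_one {δ : ℂ} {z : ℂ} (hz : ‖z‖ ≤ 4 / 25) (hδ : ‖δ‖ ≤ 83 / 20 * ‖z‖ ^ 2) :
    ‖cexp δ - 1‖ ≤ 113 / 1000 * (‖z‖ / (4 / 25)) ^ 2 := by
  have h1 := Complex.norm_exp_sub_sum_le_exp_norm_sub_sum δ 1
  simp only [Finset.sum_range_one, pow_zero, Nat.factorial_zero, Nat.cast_one, div_one] at h1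
  have h2 : ‖z‖ ^ 2 ≤ (4 / 25) ^ 2 := pow_le_pow_left₀ (norm_nonneg _) hz 2
  have h3 : ‖δ‖ ≤ 332 / 3125 := by
    refine hδ.trans ?_
    norm_num at h2 ⊢
    linarith
  have h4 := exp_sub_one_le (norm_nonneg δ) h3
  refine h1.trans (h4.trans ?_)
  have h5 : (113 / 1000) * (‖δ‖ / (332 / 3125)) ≤
      (113 / 1000) * ((83 / 20 * ‖z‖ ^ 2) / (332 / 3125)) := by gcongr
  refine h5.trans (le_of_eq ?_)
  ring

namespace Inner

variable {R : ℝ} {h g L : ℂ → ℂ}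

theorem d_sub (I : Inner R h g L) {z : ℂ} (hz : ‖z‖ ≤ 4 / 25) :
    ‖deriv h z - cexp (29 / 2 * z)‖
      ≤ Real.exp (29 / 2 * z.re) * (113 / 1000 * (‖z‖ / (4 / 25)) ^ 2) := by
  rw [I.hexp z hz]
  have h1 : cexp (L z) - cexp (29 / 2 * z)
      = cexp (29 / 2 * z) * (cexp (L z - 29 / 2 * z) - 1) := by
    rw [mul_sub, ← Complex.exp_add]
    ring_nf
  rw [h1, norm_mul, Complex.norm_exp]
  have h2 : (29 / 2 * z).re = 29 / 2 * z.re := by
    rw [Complex.mul_re]; norm_num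
  rw [h2]
  exact mul_le_mul_of_nonneg_left (norm_exp_sub_one hz (I.hL z hz)) (Real.exp_pos _).le

theorem d_le (I : Inner R h g L) {z : ℂ} (hz : ‖z‖ ≤ 4 / 25) :
    ‖deriv h z‖ ≤ Real.exp (29 / 2 * z.re) * (1 + 113 / 1000 * (‖z‖ / (4 / 25)) ^ 2) := by
  have h1 := I.d_sub hz
  have h2 : ‖cexp (29 / 2 * z)‖ = Real.exp (29 / 2 * z.re) := by
    rw [Complex.norm_exp]
    congr 1
    rw [Complex.mul_re]; norm_num
  have h3 : ‖deriv h z‖ ≤ ‖deriv h z - cexp (29 / 2 * z)‖ + ‖cexp (29 / 2 * z)‖ := by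
    have := norm_add_le (deriv h z - cexp (29 / 2 * z)) (cexp (29 / 2 * z))
    simpa using this
  rw [h2] at h3
  nlinarith

theorem mem (I : Inner R h g L) {z : ℂ} (hz : ‖z‖ ≤ 4 / 25) : z ∈ ball (0 : ℂ) R := by
  rw [mem_ball_zero_iff]
  linarith [I.dat.R1]

theorem xi_bd {z : ℂ} (hz : ‖z‖ ≤ 4 / 25) : |29 / 4 * z.re| ≤ 29 / 25 := by
  rw [abs_mul, abs_of_nonneg (by norm_num : (0:ℝ) ≤ 29 / 4)]
  have := Complex.abs_re_le_norm z
  linarith

theorem tz {z : ℂ} (hz : ‖z‖ ≤ 4 / 25) {t : ℝ} (ht : t ∈ Icc (0 : ℝ) 1) :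
    ‖(t : ℂ) * z‖ = t * ‖z‖ ∧ ‖(t : ℂ) * z‖ ≤ 4 / 25 ∧ ((t : ℂ) * z).re = t * z.re := by
  have h1 : ‖(t : ℂ) * z‖ = t * ‖z‖ := by
    rw [norm_mul, Complex.norm_real, Real.norm_of_nonneg ht.1]
  refine ⟨h1, ?_, Complex.re_ofReal_mul _ _⟩
  rw [h1]
  nlinarith [norm_nonneg z, ht.1, ht.2]

theorem ratio_le {z : ℂ} (hz : ‖z‖ ≤ 4 / 25) {t : ℝ} (ht : t ∈ Icc (0 : ℝ) 1) :
    (t * ‖z‖ / (4 / 25)) ^ 2 ≤ t ^ 2 := by
  apply pow_le_pow_left₀ (div_nonneg (mul_nonneg ht.1 (norm_nonneg _)) (by norm_num))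
  rw [div_le_iff₀ (by norm_num)]
  nlinarith [norm_nonneg z, ht.1]

theorem smul_hasDerivAt (z : ℂ) (t : ℝ) : HasDerivAt (fun t : ℝ => (t : ℂ) * z) z t := by
  have := (Complex.ofRealCLM.hasDerivAt (x := t)).mul_const z
  simpa using this

/-- comparison of `h` with the exponential model -/
theorem h_sub (I : Inner R h g L) {z : ℂ} (hz : ‖z‖ ≤ 4 / 25) :
    ‖h z - (cexp (29 / 2 * z) - 1) / (29 / 2)‖
      ≤ ‖z‖ * Real.exp (29 / 4 * z.re) * (113 / 1000) * JJ (29 / 4 * z.re) := by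
  set x := 29 / 4 * z.re with hx
  have hxb := abs_le.1 (xi_bd hz)
  have hpath := Pool.Agent.HU85.path_le
    (k := fun t : ℝ => h ((t : ℂ) * z) - (cexp (29 / 2 * ((t : ℂ) * z)) - 1) / (29 / 2))
    (k' := fun t : ℝ => z * (deriv h ((t : ℂ) * z) - cexp (29 / 2 * ((t : ℂ) * z))))
    (B := fun t => ‖z‖ * Real.exp x * (113 / 1000) * JI x t)
    (B' := fun t => ‖z‖ * Real.exp x * (113 / 1000) * (t ^ 2 * pe (2 * x * (t - 1 / 2)))) ?_ ?_ ?_ ?_
  · simpa [JI_one] using hpath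
  · intro t ht
    obtain ⟨h1, h2, h3⟩ := tz hz ht
    have hd := (I.dat.hda (I.mem h2)).comp_of_eq t (smul_hasDerivAt z t) rfl
    have he : HasDerivAt (fun t : ℝ => cexp (29 / 2 * ((t : ℂ) * z)))
        (cexp (29 / 2 * ((t : ℂ) * z)) * (29 / 2 * z)) t :=
      ((smul_hasDerivAt z t).const_mul (29 / 2 : ℂ)).cexp
    refine (hd.sub ((he.sub_const 1).div_const (29 / 2))).congr_deriv ?_
    ring
  · intro t
    exact (JI_deriv x t).const_mul _
  · intro t ht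
    obtain ⟨h1, h2, h3⟩ := tz hz ht
    rw [norm_mul]
    have h4 := I.d_sub h2
    rw [h1, h3] at h4
    have h5 := ratio_le hz ht
    have h6 : Real.exp (29 / 2 * (t * z.re)) ≤ Real.exp x * pe (2 * x * (t - 1 / 2)) := by
      have h7 : 29 / 2 * (t * z.re) = x + 2 * x * (t - 1 / 2) := by rw [hx]; ring
      rw [h7, Real.exp_add]
      apply mul_le_mul_of_nonneg_left _ (Real.exp_pos _).le
      apply exp_le_pe
      · nlinarith [ht.1, ht.2, hxb.1, hxb.2]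
      · nlinarith [ht.1, ht.2, hxb.1, hxb.2]
    calc ‖z‖ * ‖deriv h ((t : ℂ) * z) - cexp (29 / 2 * ((t : ℂ) * z))‖
        ≤ ‖z‖ * (Real.exp (29 / 2 * (t * z.re)) * (113 / 1000 * (t * ‖z‖ / (4 / 25)) ^ 2)) :=
          mul_le_mul_of_nonneg_left h4 (norm_nonneg _)
      _ ≤ ‖z‖ * ((Real.exp x * pe (2 * x * (t - 1 / 2))) * (113 / 1000 * t ^ 2)) := by
          apply mul_le_mul_of_nonneg_left _ (norm_nonneg _)
          apply mul_le_mul h6 _ (by positivity) ((Real.exp_pos _).le.trans h6)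
          linarith
      _ = ‖z‖ * Real.exp x * (113 / 1000) * (t ^ 2 * pe (2 * x * (t - 1 / 2))) := by ring
  · simp [I.dat.h0, JI_zero]

/-- bound of `g` -/
theorem g_le (I : Inner R h g L) {z : ℂ} (hz : ‖z‖ ≤ 4 / 25) :
    ‖g z‖ ≤ ‖z‖ ^ 2 * Real.exp (3 / 2 * (29 / 4 * z.re)) * PsiG (29 / 4 * z.re) := by
  set x := 29 / 4 * z.re with hx
  have hxb := abs_le.1 (xi_bd hz)
  have hpath := Pool.Agent.HU85.path_le
    (k := fun t : ℝ => g ((t : ℂ) * z))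
    (k' := fun t : ℝ => z * deriv g ((t : ℂ) * z))
    (B := fun t => ‖z‖ ^ 2 * Real.exp (3 / 2 * x) * GI x t)
    (B' := fun t => ‖z‖ ^ 2 * Real.exp (3 / 2 * x) *
      (t * (1 + 113 / 1000 * t ^ 2) * pe (2 * x * (t - 3 / 4)))) ?_ ?_ ?_ ?_
  · simpa [GI_one] using hpath
  · intro t ht
    obtain ⟨h1, h2, h3⟩ := tz hz ht
    have hd := (I.dat.gda (I.mem h2)).comp_of_eq t (smul_hasDerivAt z t) rfl
    refine hd.congr_deriv ?_
    ring
  · intro t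
    exact (GI_deriv x t).const_mul _
  · intro t ht
    obtain ⟨h1, h2, h3⟩ := tz hz ht
    rw [norm_mul]
    have h4 := I.d_le h2
    have h8 := I.dat.dil ((t : ℂ) * z) (by linarith)
    rw [one_mul, pow_one] at h8
    rw [h1, h3] at h4
    rw [h1] at h8
    have h5 := ratio_le hz ht
    have h6 : Real.exp (29 / 2 * (t * z.re)) ≤ Real.exp (3 / 2 * x) * pe (2 * x * (t - 3 / 4)) := by
      have h7 : 29 / 2 * (t * z.re) = 3 / 2 * x + 2 * x * (t - 3 / 4) := by rw [hx]; ring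
      rw [h7, Real.exp_add]
      apply mul_le_mul_of_nonneg_left _ (Real.exp_pos _).le
      apply exp_le_pe
      · nlinarith [ht.1, ht.2, hxb.1, hxb.2]
      · nlinarith [ht.1, ht.2, hxb.1, hxb.2]
    have ht0 := ht.1
    calc ‖z‖ * ‖deriv g ((t : ℂ) * z)‖
        ≤ ‖z‖ * (t * ‖z‖ * (Real.exp (29 / 2 * (t * z.re))
            * (1 + 113 / 1000 * (t * ‖z‖ / (4 / 25)) ^ 2))) := by
          apply mul_le_mul_of_nonneg_left _ (norm_nonneg _)
          exact h8.trans (mul_le_mul_of_nonneg_left h4 (by positivity))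
      _ ≤ ‖z‖ * (t * ‖z‖ * ((Real.exp (3 / 2 * x) * pe (2 * x * (t - 3 / 4)))
            * (1 + 113 / 1000 * t ^ 2))) := by
          apply mul_le_mul_of_nonneg_left _ (norm_nonneg _)
          apply mul_le_mul_of_nonneg_left _ (by positivity)
          apply mul_le_mul h6 _ (by positivity) ((Real.exp_pos _).le.trans h6)
          linarith
      _ = ‖z‖ ^ 2 * Real.exp (3 / 2 * x) *
            (t * (1 + 113 / 1000 * t ^ 2) * pe (2 * x * (t - 3 / 4))) := by ring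
  · simp [I.dat.g0, GI_zero]

end Inner

/-! the model -/

theorem half_sq_le_cosh (x : ℝ) : 1 + x ^ 2 / 2 ≤ Real.cosh x := by
  have h1 : Real.cosh x = 1 + 2 * Real.sinh (x / 2) ^ 2 := by
    have h2 := Real.cosh_two_mul (x / 2)
    have h3 := Real.cosh_sq (x / 2)
    rw [show 2 * (x / 2) = x by ring] at h2
    linarith
  have h4 : (x / 2) ^ 2 ≤ Real.sinh (x / 2) ^ 2 := by
    rw [← sq_abs (x / 2), ← sq_abs (Real.sinh (x / 2)), Real.abs_sinh]
    apply pow_le_pow_left₀ (abs_nonneg _)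
    exact Real.self_le_sinh_iff.2 (abs_nonneg _)
  rw [h1]
  nlinarith

theorem sinh_ge {x : ℝ} (hx : 0 ≤ x) : x + x ^ 3 / 6 ≤ Real.sinh x := by
  have h1 : MonotoneOn (fun x : ℝ => Real.sinh x - (x + x ^ 3 / 6)) (Ici 0) := by
    apply monotoneOn_of_deriv_nonneg (convex_Ici 0)
    · fun_prop
    · fun_prop
    · intro y _
      have h2 : HasDerivAt (fun x : ℝ => Real.sinh x - (x + x ^ 3 / 6))
          (Real.cosh y - (1 + y ^ 2 / 2)) y := by
        have h3 := (Real.hasDerivAt_sinh y).sub ((hasDerivAt_id y).add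
          ((hasDerivAt_pow 3 y).div_const 6))
        refine h3.congr_deriv ?_
        push_cast
        ring
      rw [h2.deriv]
      linarith [half_sq_le_cosh y]
  have h4 := h1 (show (0 : ℝ) ∈ Ici (0 : ℝ) by simp) (show x ∈ Ici (0 : ℝ) by simpa using hx) hx
  simp at h4
  linarith

theorem sinh_sq_ge (x : ℝ) : x ^ 2 + x ^ 4 / 3 ≤ Real.sinh x ^ 2 := by
  have h1 := sinh_ge (abs_nonneg x)
  have h2 : Real.sinh x ^ 2 = Real.sinh |x| ^ 2 := by
    rw [← sq_abs (Real.sinh x), Real.abs_sinh]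
  have h3 : x ^ 2 = |x| ^ 2 := (sq_abs x).symm
  have h4 : x ^ 4 = |x| ^ 4 := by
    rw [show x ^ 4 = (x ^ 2) ^ 2 by ring, h3]; ring
  rw [h2, h3, h4]
  have h0 := abs_nonneg x
  calc |x| ^ 2 + |x| ^ 4 / 3 ≤ (|x| + |x| ^ 3 / 6) ^ 2 := by
        have : (|x| + |x| ^ 3 / 6) ^ 2 = |x| ^ 2 + |x| ^ 4 / 3 + |x| ^ 6 / 36 := by ring
        rw [this]
        have : 0 ≤ |x| ^ 6 / 36 := by positivity
        linarith
    _ ≤ Real.sinh |x| ^ 2 := pow_le_pow_left₀ (by positivity) h1 2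

theorem sin_sq_ge {y : ℝ} (hy : y ^ 2 ≤ 6) : y ^ 2 - y ^ 4 / 3 ≤ Real.sin y ^ 2 := by
  have h1 := Real.sin_ge_sub_cube (abs_nonneg y)
  have h2 : Real.sin y ^ 2 = Real.sin |y| ^ 2 := by
    rcases abs_choice y with h | h
    · rw [h]
    · rw [h, Real.sin_neg]; ring
  have h3 : y ^ 2 = |y| ^ 2 := (sq_abs y).symm
  have h4 : y ^ 4 = |y| ^ 4 := by
    rw [show y ^ 4 = (y ^ 2) ^ 2 by ring, h3]; ring
  rw [h3] at hy
  rw [h2, h3, h4]
  have h0 := abs_nonneg y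
  have h5 : 0 ≤ |y| - |y| ^ 3 / 6 := by nlinarith
  calc |y| ^ 2 - |y| ^ 4 / 3 ≤ (|y| - |y| ^ 3 / 6) ^ 2 := by
        have : (|y| - |y| ^ 3 / 6) ^ 2 = |y| ^ 2 - |y| ^ 4 / 3 + |y| ^ 6 / 36 := by ring
        rw [this]
        have : 0 ≤ |y| ^ 6 / 36 := by positivity
        linarith
    _ ≤ Real.sin |y| ^ 2 := pow_le_pow_left₀ h5 h1 2

theorem norm_sinh_sq (w : ℂ) : ‖Complex.sinh w‖ ^ 2 = Real.sinh w.re ^ 2 + Real.sin w.im ^ 2 := by
  have h1 : Complex.sinh w = ⟨Real.sinh w.re * Real.cos w.im, Real.cosh w.re * Real.sin w.im⟩ := by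
    conv_lhs => rw [← Complex.re_add_im w]
    rw [Complex.sinh_add, Complex.sinh_mul_I, Complex.cosh_mul_I]
    apply Complex.ext
    · simp [Complex.mul_re, ← Complex.ofReal_sinh, ← Complex.ofReal_cosh, ← Complex.ofReal_sin,
        ← Complex.ofReal_cos]
    · simp [Complex.mul_im, ← Complex.ofReal_sinh, ← Complex.ofReal_cosh, ← Complex.ofReal_sin,
        ← Complex.ofReal_cos]
  rw [h1, Complex.sq_norm, Complex.normSq_mk]
  have h2 := Real.cosh_sq w.re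
  have h3 := Real.sin_sq_add_cos_sq w.im
  linear_combination (Real.sinh w.re ^ 2) * h3 + (Real.sin w.im ^ 2) * h2

theorem model_ge {z : ℂ} (hz : ‖z‖ ≤ 4 / 25) :
    ‖z‖ * Real.exp (29 / 4 * z.re) * WW ((29 / 4 * z.re) ^ 2)
      ≤ ‖(cexp (29 / 2 * z) - 1) / (29 / 2)‖ := by
  set w : ℂ := 29 / 4 * z with hw
  have hwre : w.re = 29 / 4 * z.re := by rw [hw, Complex.mul_re]; norm_num
  have hwim : w.im = 29 / 4 * z.im := by rw [hw, Complex.mul_im]; norm_num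
  have hwn : ‖w‖ = 29 / 4 * ‖z‖ := by rw [hw, norm_mul]; norm_num
  have e1 : (cexp (29 / 2 * z) - 1) / (29 / 2) = cexp w * Complex.sinh w / (29 / 4) := by
    have h1 : cexp (29 / 2 * z) = cexp w * cexp w := by
      rw [← Complex.exp_add, hw]; ring_nf
    have h2 : cexp w * cexp (-w) = 1 := by rw [← Complex.exp_add]; simp
    rw [h1, Complex.sinh]
    linear_combination (1 / (29 / 2)) * h2
  rw [e1, norm_div, norm_mul, Complex.norm_exp, hwre]
  have h29 : ‖(29 / 4 : ℂ)‖ = 29 / 4 := by norm_num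
  rw [h29, le_div_iff₀ (by norm_num)]
  set x := 29 / 4 * z.re with hx
  have hxb : x ^ 2 ≤ (29 / 25) ^ 2 := by
    rw [← sq_abs x]
    exact pow_le_pow_left₀ (abs_nonneg _) (Inner.xi_bd hz) 2
  have hW0 := WW_nonneg (x := x ^ 2) (by positivity) (by norm_num at hxb ⊢; linarith)
  have hW1 := WW_sq (x := x ^ 2) (by positivity) (by norm_num at hxb ⊢; linarith)
  have h3 : ‖w‖ * WW (x ^ 2) ≤ ‖Complex.sinh w‖ := by
    apply le_of_sq_le_sq _ (norm_nonneg _)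
    have hwsq : ‖w‖ ^ 2 = x ^ 2 + w.im ^ 2 := by
      rw [Complex.sq_norm, Complex.normSq_apply, hwre]; ring
    have hwle : ‖w‖ ^ 2 ≤ (29 / 25) ^ 2 := by
      apply pow_le_pow_left₀ (norm_nonneg _)
      rw [hwn]; linarith
    rw [norm_sinh_sq, hwre, mul_pow]
    have hs1 := sinh_sq_ge x
    have hs2 := sin_sq_ge (y := w.im) (by
      have : 0 ≤ x ^ 2 := sq_nonneg x
      norm_num at hwle ⊢
      linarith)
    have h5 : WW (x ^ 2) ^ 2 ≤ 1 + (x ^ 2 - w.im ^ 2) / 3 := by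
      norm_num at hwle hW1 ⊢
      linarith
    have h6 := mul_le_mul_of_nonneg_left h5 (sq_nonneg ‖w‖)
    have h7 : ‖w‖ ^ 2 * (1 + (x ^ 2 - w.im ^ 2) / 3)
        = x ^ 2 + x ^ 4 / 3 + (w.im ^ 2 - w.im ^ 4 / 3) := by
      rw [hwsq]; ring
    linarith
  have h4 := mul_le_mul_of_nonneg_left h3 (Real.exp_pos x).le
  rw [hwn] at h4
  linarith

end Pool.Agent.HU26
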