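import Pool.Agent.HU26.Lyap

set_option autoImplicit false

open Complex Set MeasureTheory Filter Topology Metric
open scoped Real

namespace Pool.Agent.HU26

theorem sum_Icc_sym (F : ℤ → ℝ) (M : ℕ) :
    ∑ n ∈ Finset.Icc (-(M : ℤ)) M, F n = F 0 + ∑ k ∈ Finset.Icc 1 M, (F k + F (-(k : ℤ))) := by
  induction M with
  | zero => simp
  | succ M ih =>
    have h1 : Finset.Icc (-((M + 1 : ℕ) : ℤ)) ((M + 1 : ℕ) : ℤ)
        = insert (((M + 1 : ℕ) : ℤ)) (insert (-((M + 1 : ℕ) : ℤ)) (Finset.Icc (-(M : ℤ)) M)) := by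
      ext n
      simp only [Finset.mem_Icc, Finset.mem_insert]
      push_cast
      omega
    rw [h1, Finset.sum_insert, Finset.sum_insert, ih, Finset.sum_Icc_succ_top (by omega)]
    · ring
    · simp only [Finset.mem_Icc, not_and, not_le]
      push_cast
      omega
    · simp only [Finset.mem_Icc, Finset.mem_insert, not_or, not_and, not_le]
      push_cast
      omega

theorem tendsto_Icc_sym : Tendsto (fun M : ℕ => Finset.Icc (-(M : ℤ)) (M : ℤ)) atTop atTop := by
  apply tendsto_atTop_finset_of_monotone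
  · intro a b hab
    apply Finset.Icc_subset_Icc
    · have : (a : ℤ) ≤ b := by exact_mod_cast hab
      omega
    · exact_mod_cast hab
  · intro n
    refine ⟨n.natAbs, ?_⟩
    simp only [Finset.mem_Icc]
    omega

theorem tendsto_sum_sym {F : ℤ → ℝ} {S : ℝ} (h : HasSum F S) :
    Tendsto (fun M : ℕ => ∑ n ∈ Finset.Icc (-(M : ℤ)) (M : ℤ), F n) atTop (𝓝 S) :=
  h.comp tendsto_Icc_sym

variable {κ R : ℝ} {m : ℕ} {h g E : ℂ → ℂ}

theorem Q_le_P (D : Dat κ m R h g) (E : ℂ → ℂ) {t : ℝ} (ht0 : 0 ≤ t) (ht1 : t ≤ 1) (x : ℝ) :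
    ‖Q E g t x‖ ^ 2 ≤ (κ * t ^ m) ^ 2 * ‖P E h t x‖ ^ 2 := by
  rw [← mul_pow]
  apply pow_le_pow_left₀ (norm_nonneg _)
  unfold Q P
  have h1 := D.dil (pt t x) (by rw [norm_pt, abs_of_nonneg ht0]; exact ht1)
  rw [norm_pt, abs_of_nonneg ht0] at h1
  rw [norm_neg, norm_neg, norm_mul, norm_mul, norm_mul, RCLike.norm_conj]
  rw [show (-(2 * (x : ℂ) * I)) = ((-(2 * x) : ℝ) : ℂ) * I by push_cast; ring,
    Complex.norm_exp_ofReal_mul_I, mul_one]
  calc ‖E (pt t x) ^ 3‖ * ‖deriv g (pt t x)‖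
      ≤ ‖E (pt t x) ^ 3‖ * (κ * t ^ m * ‖deriv h (pt t x)‖) :=
        mul_le_mul_of_nonneg_left h1 (norm_nonneg _)
    _ = κ * t ^ m * (‖E (pt t x) ^ 3‖ * ‖deriv h (pt t x)‖) := by ring

/-- the truncated Lyapunov functional -/
noncomputable def VM (κ : ℝ) (m : ℕ) (Y : ℝ → ℝ) (E : ℂ → ℂ) (M : ℕ) (t : ℝ) : ℝ :=
  ∑ n ∈ Finset.Icc (-(M : ℤ)) M, wt κ m Y n t * ‖En E t n‖ ^ 2

/-- the tail -/
noncomputable def TM (E h : ℂ → ℂ) (M : ℕ) (t : ℝ) : ℝ :=
  (mean fun x => ‖P E h t x‖ ^ 2) - ∑ n ∈ Finset.Icc (-(M : ℤ)) M, ‖Pn E h t n‖ ^ 2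

theorem TM_nonneg (D : Dat κ m R h g) (hE : IsE R h g E) (M : ℕ) {t : ℝ} (ht : t ∈ Ioo 0 R) :
    0 ≤ TM E h M t := by
  have := bessel (slice (cont_P D hE) (pos_sub D ht)) (Finset.Icc (-(M : ℤ)) M)
  unfold TM Pn
  linarith

theorem VM_hasDerivAt (D : Dat κ m R h g) (hE : IsE R h g E) {Y Y' : ℝ → ℝ} (M : ℕ) {t : ℝ}
    (ht : t ∈ Ioo 0 R) (hY : 0 < Y t) (hd : HasDerivAt Y (Y' t) t) :
    HasDerivAt (VM κ m Y E M) (∑ n ∈ Finset.Icc (-(M : ℤ)) M,
      (wt' κ m Y Y' n t * ‖En E t n‖ ^ 2 + wt κ m Y n t *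
        (2 * (((starRingEnd ℂ) (En E t n) * Qn E g t n).re + n * ‖En E t n‖ ^ 2) / t))) t := by
  unfold VM
  apply HasDerivAt.fun_sum
  intro n _
  have h1 := wt_hasDerivAt κ m n ht.1 hY hd
  have h2 := (En_hasDerivAt D hE ht n).norm_sq
  refine (h1.mul h2).congr_deriv ?_
  congr 2
  rw [Complex.inner]
  have ht0 : t ≠ 0 := ht.1.ne'
  have h3 : (starRingEnd ℂ) (En E t n) * ((Qn E g t n + n * En E t n) / t)
      = (((1 / t : ℝ)) : ℂ) * ((starRingEnd ℂ) (En E t n) * Qn E g t n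
        + n * ((‖En E t n‖ ^ 2 : ℝ) : ℂ)) := by
    rw [← Complex.normSq_eq_norm_sq, Complex.normSq_eq_conj_mul_self]
    have ht0 : (t : ℂ) ≠ 0 := by exact_mod_cast ht.1.ne'
    push_cast
    field_simp
  rw [mul_comm ((Qn E g t n + n * En E t n) / t), h3, Complex.re_ofReal_mul, Complex.add_re]
  have h4 : ((n : ℂ) * ((‖En E t n‖ ^ 2 : ℝ) : ℂ)).re = n * ‖En E t n‖ ^ 2 := by
    rw [← Complex.ofReal_intCast, ← Complex.ofReal_mul, Complex.ofReal_re]
  rw [h4]
  ring

theorem VM_deriv_ge (D : Dat κ m R h g) (hE : IsE R h g E) {Y Y' : ℝ → ℝ} (M : ℕ) {t : ℝ}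
    (ht0 : 0 < t) (ht1 : t < 1) (hY : 0 < Y t)
    (hode : κ * t ^ m * (Y t / t - κ * t ^ m) ^ 2 ≤ (1 - (κ * t ^ m) ^ 2) * (Y' t - κ * t ^ m)) :
    -(κ * t ^ m) ^ 2 * TM E h M t ≤ t ^ 2 * (κ * t ^ m) * ∑ n ∈ Finset.Icc (-(M : ℤ)) M,
      (wt' κ m Y Y' n t * ‖En E t n‖ ^ 2 + wt κ m Y n t *
        (2 * (((starRingEnd ℂ) (En E t n) * Qn E g t n).re + n * ‖En E t n‖ ^ 2) / t)) := by
  have ht : t ∈ Ioo 0 R := ⟨ht0, by linarith [D.R1]⟩
  have hcP := slice (cont_P D hE) (pos_sub D ht)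
  have hcQ := slice (cont_Q D hE) (pos_sub D ht)
  have h1 : ∑ n ∈ Finset.Icc (-(M : ℤ)) M, ‖Qn E g t n‖ ^ 2
      ≤ (κ * t ^ m) ^ 2 * mean fun x => ‖P E h t x‖ ^ 2 := by
    refine (bessel hcQ _).trans ?_
    rw [← mean_const_mul]
    exact mean_mono (by fun_prop) (by fun_prop) (fun x => Q_le_P D E ht0.le ht1.le x)
  have h2 : 0 ≤ ∑ n ∈ Finset.Icc (-(M : ℤ)) M, (t ^ 2 * (κ * t ^ m) *
      (wt' κ m Y Y' n t * ‖En E t n‖ ^ 2 + wt κ m Y n t *
        (2 * (((starRingEnd ℂ) (En E t n) * Qn E g t n).re + n * ‖En E t n‖ ^ 2) / t))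
      + ‖Qn E g t n‖ ^ 2 - (κ * t ^ m) ^ 2 * ‖Pn E h t n‖ ^ 2) := by
    apply Finset.sum_nonneg
    intro n _
    have h3 := mode_ineq D.κ0 D.κ1 D.m1 (Y' := Y') n ht0 ht1 hY hode (‖En E t n‖ ^ 2)
      (‖Qn E g t n‖ ^ 2) (((starRingEnd ℂ) (En E t n) * Qn E g t n).re) (by positivity)
      (by positivity) (by
        have h4 := Complex.abs_re_le_norm ((starRingEnd ℂ) (En E t n) * Qn E g t n)
        rw [norm_mul, RCLike.norm_conj] at h4
        rw [← mul_pow, ← sq_abs]
        exact pow_le_pow_left₀ (abs_nonneg _) h4 2)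
    have h5 : ‖Pn E h t n‖ ^ 2 = ‖Qn E g t n‖ ^ 2
        + 2 * (2 * n - 1) * ((starRingEnd ℂ) (En E t n) * Qn E g t n).re
        + (2 * n - 1) ^ 2 * ‖En E t n‖ ^ 2 := by
      rw [Pn_eq D hE ht n]
      rw [show ((2 : ℂ) * n - 1) = (((2 * n - 1 : ℝ)) : ℂ) by push_cast; ring]
      rw [← Complex.normSq_eq_norm_sq, ← Complex.normSq_eq_norm_sq, ← Complex.normSq_eq_norm_sq,
        Complex.normSq_add, Complex.normSq_mul, Complex.normSq_ofReal]
      rw [map_mul, Complex.conj_ofReal]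
      have h6 : (Qn E g t n * (((2 * n - 1 : ℝ) : ℂ) * (starRingEnd ℂ) (En E t n))).re
          = (2 * n - 1) * ((starRingEnd ℂ) (En E t n) * Qn E g t n).re := by
        rw [← Complex.re_ofReal_mul]
        congr 1
        ring
      rw [h6]
      ring
    rw [h5]
    refine h3.trans (le_of_eq ?_)
    ring
  rw [Finset.sum_sub_distrib, Finset.sum_add_distrib, ← Finset.mul_sum, ← Finset.mul_sum] at h2
  unfold TM
  linarith

theorem lyapunov (D : Dat κ m R h g) (hE : IsE R h g E) {Y Y' : ℝ → ℝ} {s : ℝ} (hs0 : 0 < s)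
    (hs1 : s < 1) (hYc : ContinuousOn Y (Icc s 1)) (hYd : ∀ t ∈ Ioo s 1, HasDerivAt Y (Y' t) t)
    (hYpos : ∀ t ∈ Icc s 1, 0 < Y t) (hY1 : Y 1 ≤ 1)
    (hode : ∀ t ∈ Ioo s 1, κ * t ^ m * (Y t / t - κ * t ^ m) ^ 2
      ≤ (1 - (κ * t ^ m) ^ 2) * (Y' t - κ * t ^ m))
    (hS : (mean fun x => 2 * ((starRingEnd ℂ (e E 1 x)) * (-I * ex E h g 1 x)).re
      - ‖e E 1 x‖ ^ 2) ≤ 0) {B : ℝ}
    (hB : ∀ M : ℕ, ∑ k ∈ Finset.Icc 1 M, (2 * (k : ℝ) + 1) * ‖En E s (-(k : ℤ))‖ ^ 2 ≤ B) :
    Y s / s ^ 2 * ‖En E s 1‖ ^ 2 ≤ 1 / Y s * ‖En E s 0‖ ^ 2 + 2 / (1 + s ^ 2) * B := by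
  have hR := D.R1
  have hsub : Icc s 1 ⊆ Ioo 0 R := fun t ht => ⟨by linarith [ht.1], by linarith [ht.2]⟩
  have hsub2 : Ioo 0 R ×ˢ (univ : Set ℝ) ⊆ Ioo (-R) R ×ˢ univ :=
    prod_mono (fun s hs => pos_sub D hs) le_rfl
  have hY1p : 0 < Y 1 := hYpos 1 ⟨hs1.le, le_rfl⟩
  -- continuity of the mean of |P|²
  have hcm : ContinuousOn (fun t => mean fun x => ‖P E h t x‖ ^ 2) (Ioo 0 R) := by
    apply continuousOn_mean (F := fun t x => ‖P E h t x‖ ^ 2)
    exact (((cont_P D hE).mono hsub2).norm).pow 2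
  have hcPn : ∀ n : ℤ, ContinuousOn (fun t => Pn E h t n) (Ioo 0 R) := fun n =>
    continuousOn_FC (F := P E h) ((cont_P D hE).mono hsub2) n
  have hcEn : ∀ n : ℤ, ContinuousOn (fun t => En E t n) (Ioo 0 R) := fun n =>
    continuousOn_FC (F := e E) ((cont_e hE).mono hsub2) n
  have hcT : ∀ M, ContinuousOn (TM E h M) (Icc s 1) := by
    intro M
    unfold TM
    apply (hcm.mono hsub).sub
    apply continuousOn_finsetSum
    intro n _
    exact (((hcPn n).mono hsub).norm).pow 2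
  obtain ⟨C, hC⟩ := isCompact_Icc.exists_bound_of_continuousOn (hcm.mono hsub)
  -- limit of the tail integrals
  have hlim1 : Tendsto (fun M => ∫ t in s..1, TM E h M t) atTop (𝓝 (∫ t in s..1, (0 : ℝ))) := by
    apply intervalIntegral.tendsto_integral_filter_of_dominated_convergence (bound := fun _ => C)
    · refine Eventually.of_forall fun M => ?_
      have h1 := (hcT M)
      rw [uIoc_of_le hs1.le]
      exact ((hcT M).mono Ioc_subset_Icc_self).aestronglyMeasurable measurableSet_Ioc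
    · refine Eventually.of_forall fun M => ?_
      refine Eventually.of_forall fun t ht => ?_
      rw [uIoc_of_le hs1.le] at ht
      have ht' := Ioc_subset_Icc_self ht
      rw [Real.norm_of_nonneg (TM_nonneg D hE M (hsub ht'))]
      have h2 := hC t ht'
      have h3 : 0 ≤ ∑ n ∈ Finset.Icc (-(M : ℤ)) M, ‖Pn E h t n‖ ^ 2 := by positivity
      have h4 := le_abs_self (mean fun x => ‖P E h t x‖ ^ 2)
      rw [Real.norm_eq_abs] at h2
      unfold TM
      linarith
    · exact intervalIntegrable_const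
    · refine Eventually.of_forall fun t ht => ?_
      rw [uIoc_of_le hs1.le] at ht
      have ht' := hsub (Ioc_subset_Icc_self ht)
      have h2 := tendsto_sum_sym (parseval (slice (cont_P D hE) (pos_sub D ht')))
      have h3 := (tendsto_const_nhds (x := mean fun x => ‖P E h t x‖ ^ 2)).sub h2
      rw [sub_self] at h3
      exact h3
  rw [intervalIntegral.integral_zero] at hlim1
  -- limit of the boundary term
  have h1mem : (1 : ℝ) ∈ Ioo 0 R := ⟨one_pos, hR⟩
  have hexc : Continuous (ex E h g 1) := by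
    have hc1 := slice (cont_e hE) (pos_sub D h1mem)
    have hc2 := slice (cont_P D hE) (pos_sub D h1mem)
    have hc3 := slice (cont_Q D hE) (pos_sub D h1mem)
    unfold ex
    exact continuous_const.mul ((hc1.add hc2).sub hc3)
  have hlim2 := tendsto_sum_sym
    (hasSum_two_n (fun x => e_hasDerivAt_snd D hE x h1mem) hexc (e_pi E 1))
  -- the main inequality for each M
  have hmain : ∀ M : ℕ, 1 ≤ M → Y s / s ^ 2 * ‖En E s 1‖ ^ 2 - 1 / Y s * ‖En E s 0‖ ^ 2
      - 2 / (1 + s ^ 2) * B ≤ (∑ n ∈ Finset.Icc (-(M : ℤ)) M,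
        (2 * (n : ℝ) - 1) * ‖FC (e E 1) n‖ ^ 2) + 1 / s ^ 2 * ∫ t in s..1, TM E h M t := by
    intro M hM
    have hVc : ContinuousOn (VM κ m Y E M) (Icc s 1) := by
      unfold VM
      apply continuousOn_finsetSum
      intro n _
      refine ContinuousOn.mul ?_ ((((hcEn n).mono hsub).norm).pow 2)
      unfold wt
      by_cases h2 : 2 ≤ n
      · simp only [if_pos h2]; fun_prop
      · simp only [if_neg h2]
        by_cases h3 : n = 1
        · simp only [if_pos h3]
          apply hYc.div (by fun_prop)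
          intro t ht
          have := (hsub ht).1
          positivity
        · simp only [if_neg h3]
          by_cases h4 : n = 0
          · simp only [if_pos h4]
            exact (continuousOn_const.div hYc (fun t ht => (hYpos t ht).ne')).neg
          · simp only [if_neg h4]
            apply ContinuousOn.mul continuousOn_const
            apply ContinuousOn.div continuousOn_const (by fun_prop)
            intro t ht
            positivity
    have hint := intervalIntegral.integral_le_sub_of_hasDeriv_right_of_le (g := VM κ m Y E M)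
      (g' := fun t => ∑ n ∈ Finset.Icc (-(M : ℤ)) M,
        (wt' κ m Y Y' n t * ‖En E t n‖ ^ 2 + wt κ m Y n t *
        (2 * (((starRingEnd ℂ) (En E t n) * Qn E g t n).re + n * ‖En E t n‖ ^ 2) / t)))
      (φ := fun t => -(1 / s ^ 2) * TM E h M t) hs1.le hVc
      (fun t ht => (VM_hasDerivAt D hE M (hsub (Ioo_subset_Icc_self ht))
        (hYpos t (Ioo_subset_Icc_self ht)) (hYd t ht)).hasDerivWithinAt)
      (ContinuousOn.integrableOn_Icc (continuousOn_const.mul (hcT M)))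
      (by
        intro t ht
        have ht0 : 0 < t := by linarith [ht.1]
        have h5 := VM_deriv_ge D hE M ht0 ht.2 (hYpos t (Ioo_subset_Icc_self ht)) (hode t ht)
        have hT := TM_nonneg D hE M (hsub (Ioo_subset_Icc_self ht))
        set W := ∑ n ∈ Finset.Icc (-(M : ℤ)) M,
          (wt' κ m Y Y' n t * ‖En E t n‖ ^ 2 + wt κ m Y n t *
          (2 * (((starRingEnd ℂ) (En E t n) * Qn E g t n).re + n * ‖En E t n‖ ^ 2) / t)) with hW
        have hκ := D.κ0
        have hμ : 0 < κ * t ^ m := by positivity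
        have hμ1 : κ * t ^ m ≤ 1 := mul_le_one₀ D.κ1 (by positivity)
          (pow_le_one₀ ht0.le ht.2.le)
        have h6 : -(κ * t ^ m) * TM E h M t ≤ t ^ 2 * W := by
          have h7 : (κ * t ^ m) * (-(κ * t ^ m) * TM E h M t) ≤ (κ * t ^ m) * (t ^ 2 * W) := by
            linarith
          exact le_of_mul_le_mul_left h7 hμ
        have h8 : -TM E h M t ≤ t ^ 2 * W := by
          have := mul_le_mul_of_nonneg_right hμ1 hT
          linarith
        have h9 : -(1 / t ^ 2) * TM E h M t ≤ W := by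
          have h10 : (1 / t ^ 2) * (-TM E h M t) ≤ (1 / t ^ 2) * (t ^ 2 * W) :=
            mul_le_mul_of_nonneg_left h8 (by positivity)
          have h11 : (1 / t ^ 2) * (t ^ 2 * W) = W := by field_simp
          linarith
        have h12 : 1 / t ^ 2 ≤ 1 / s ^ 2 := by
          apply one_div_le_one_div_of_le (by positivity)
          exact pow_le_pow_left₀ hs0.le ht.1.le 2
        have h13 := mul_le_mul_of_nonneg_right h12 hT
        show -(1 / s ^ 2) * TM E h M t ≤ W
        linarith)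
    rw [intervalIntegral.integral_const_mul] at hint
    -- upper bound at 1
    have hup : VM κ m Y E M 1 ≤ ∑ n ∈ Finset.Icc (-(M : ℤ)) M,
        (2 * (n : ℝ) - 1) * ‖FC (e E 1) n‖ ^ 2 := by
      unfold VM
      apply Finset.sum_le_sum
      intro n _
      apply mul_le_mul_of_nonneg_right _ (by positivity)
      unfold wt
      by_cases h2 : 2 ≤ n
      · simp only [if_pos h2]
        have h3 : (2 : ℝ) ≤ n := by exact_mod_cast h2
        rw [one_pow, mul_one]
        have := D.κ1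
        nlinarith
      · simp only [if_neg h2]
        by_cases h3 : n = 1
        · simp only [if_pos h3]
          rw [h3]
          norm_num
          exact hY1
        · simp only [if_neg h3]
          by_cases h4 : n = 0
          · simp only [if_pos h4]
            rw [h4]
            have : 1 ≤ 1 / Y 1 := by rw [le_div_iff₀ hY1p]; linarith
            push_cast
            linarith
          · simp only [if_neg h4]
            norm_num
    -- lower bound at s
    have hlow : Y s / s ^ 2 * ‖En E s 1‖ ^ 2 - 1 / Y s * ‖En E s 0‖ ^ 2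
        - 2 / (1 + s ^ 2) * B ≤ VM κ m Y E M s := by
      unfold VM
      rw [sum_Icc_sym]
      have hw0 : wt κ m Y 0 s = -(1 / Y s) := by unfold wt; simp
      have hw1 : wt κ m Y 1 s = Y s / s ^ 2 := by unfold wt; simp
      have hwn : ∀ k ∈ Finset.Icc 1 M, wt κ m Y (-(k : ℤ)) s
          = -(2 / (1 + s ^ 2)) * (2 * (k : ℝ) + 1) := by
        intro k hk
        rw [Finset.mem_Icc] at hk
        unfold wt
        rw [if_neg (by omega), if_neg (by omega), if_neg (by omega)]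
        push_cast
        ring
      have hwp : ∀ k ∈ Finset.Icc 1 M, 0 ≤ wt κ m Y (k : ℤ) s * ‖En E s (k : ℤ)‖ ^ 2 := by
        intro k hk
        rw [Finset.mem_Icc] at hk
        apply mul_nonneg _ (by positivity)
        unfold wt
        by_cases h2 : 2 ≤ (k : ℤ)
        · rw [if_pos h2]
          have h3 : (2 : ℝ) ≤ ((k : ℤ) : ℝ) := by exact_mod_cast h2
          have := D.κ0
          apply mul_nonneg (by linarith)
          positivity
        · have h3 : (k : ℤ) = 1 := by omega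
          rw [if_neg h2, if_pos h3]
          have := hYpos s ⟨le_rfl, hs1.le⟩
          positivity
      rw [Finset.sum_add_distrib, hw0]
      have hA : Y s / s ^ 2 * ‖En E s 1‖ ^ 2
          ≤ ∑ k ∈ Finset.Icc 1 M, wt κ m Y (k : ℤ) s * ‖En E s (k : ℤ)‖ ^ 2 := by
        have h2 := Finset.single_le_sum hwp (Finset.mem_Icc.2 ⟨le_rfl, hM⟩)
        rw [← hw1]
        exact_mod_cast h2
      have hBB : ∑ k ∈ Finset.Icc 1 M, wt κ m Y (-(k : ℤ)) s * ‖En E s (-(k : ℤ))‖ ^ 2
          = -(2 / (1 + s ^ 2)) * ∑ k ∈ Finset.Icc 1 M, (2 * (k : ℝ) + 1)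
            * ‖En E s (-(k : ℤ))‖ ^ 2 := by
        rw [Finset.mul_sum]
        apply Finset.sum_congr rfl
        intro k hk
        rw [hwn k hk]
        ring
      rw [hBB]
      have h3 := mul_le_mul_of_nonneg_left (hB M) (show (0 : ℝ) ≤ 2 / (1 + s ^ 2) by positivity)
      linarith
    linarith
  have hlim := hlim2.add (hlim1.const_mul (1 / s ^ 2))
  have hfin := ge_of_tendsto hlim (by
    filter_upwards [eventually_ge_atTop 1] with M hM
    exact hmain M hM)
  linarith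

end Pool.Agent.HU26
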