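import Pool.Agent.HU26.Modes

set_option autoImplicit false

open Complex Set MeasureTheory Filter Topology Metric
open scoped Real

namespace Pool.Agent.HU26

theorem psd {α β γ A B r : ℝ} (hα : 0 ≤ α) (hγ : 0 ≤ γ) (hβ : β ^ 2 ≤ α * γ) (hA : 0 ≤ A)
    (hB : 0 ≤ B) (hr : r ^ 2 ≤ A * B) : 0 ≤ α * B + 2 * β * r + γ * A := by
  have h1 : (2 * β * r) ^ 2 ≤ (α * B + γ * A) ^ 2 := by
    have h2 : (β * r) ^ 2 ≤ (α * γ) * (A * B) := by
      rw [mul_pow]
      exact mul_le_mul hβ hr (sq_nonneg _) (by positivity)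
    nlinarith [sq_nonneg (α * B - γ * A)]
  have h3 : 0 ≤ α * B + γ * A := by positivity
  have h4 := abs_le_of_sq_le_sq' h1 h3
  linarith [h4.1]

/-- the weights -/
noncomputable def wt (κ : ℝ) (m : ℕ) (Y : ℝ → ℝ) (n : ℤ) (t : ℝ) : ℝ :=
  if 2 ≤ n then (2 * n - 1) * (κ * t ^ (m - 1))
  else if n = 1 then Y t / t ^ 2
  else if n = 0 then -(1 / Y t)
  else (2 * n - 1) * (2 / (1 + t ^ 2))

noncomputable def wt' (κ : ℝ) (m : ℕ) (Y Y' : ℝ → ℝ) (n : ℤ) (t : ℝ) : ℝ :=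
  if 2 ≤ n then (2 * n - 1) * (κ * ((m - 1 : ℕ) * t ^ (m - 1 - 1)))
  else if n = 1 then Y' t / t ^ 2 - 2 * Y t / t ^ 3
  else if n = 0 then Y' t / Y t ^ 2
  else (2 * n - 1) * (-(4 * t) / (1 + t ^ 2) ^ 2)

theorem wt_hasDerivAt (κ : ℝ) (m : ℕ) {Y Y' : ℝ → ℝ} (n : ℤ) {t : ℝ} (ht : 0 < t)
    (hY : 0 < Y t) (hd : HasDerivAt Y (Y' t) t) :
    HasDerivAt (wt κ m Y n) (wt' κ m Y Y' n t) t := by
  unfold wt wt'
  by_cases h2 : 2 ≤ n
  · simp only [if_pos h2]
    exact ((hasDerivAt_pow (m - 1) t).const_mul κ).const_mul _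
  · simp only [if_neg h2]
    by_cases h1 : n = 1
    · simp only [if_pos h1]
      have h := hd.div (hasDerivAt_pow 2 t) (by positivity)
      refine h.congr_deriv ?_
      field_simp
      simp
      ring
    · simp only [if_neg h1]
      by_cases h0 : n = 0
      · simp only [if_pos h0]
        have h := (hd.inv hY.ne').neg
        refine (h.congr_deriv ?_).congr_of_eventuallyEq ?_
        · field_simp
        · filter_upwards with s
          simp
      · simp only [if_neg h0]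
        have h3 : HasDerivAt (fun t : ℝ => 1 + t ^ 2) (2 * t) t := by
          have := (hasDerivAt_pow 2 t).const_add (1 : ℝ)
          simpa using this
        have hpos : (1 + t ^ 2) ≠ 0 := by positivity
        have h := ((h3.inv hpos).const_mul 2).const_mul (2 * (n : ℝ) - 1)
        have h5 : (fun s : ℝ => (2 * (n : ℝ) - 1) * (2 / (1 + s ^ 2)))
            = fun s : ℝ => (2 * (n : ℝ) - 1) * (2 * (fun s : ℝ => 1 + s ^ 2)⁻¹ s) := by
          funext s
          simp [div_eq_mul_inv]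
        rw [h5]
        refine h.congr_deriv ?_
        field_simp
        ring

theorem gam_id (t μ N : ℝ) :
    t ^ 2 * μ * (N * (-(4 * t) / (1 + t ^ 2) ^ 2)) + (N + 1) * (t * μ) * (N * (2 / (1 + t ^ 2)))
      - μ ^ 2 * N ^ 2 = μ * (N ^ 2 * (t * (2 / (1 + t ^ 2)) - μ)
        + 2 * N * (t * ((1 - t ^ 2) / (1 + t ^ 2) ^ 2))) := by
  have hs : (1 + t ^ 2) ≠ 0 := by positivity
  field_simp
  ring

theorem last_id (t μ N b c A B r : ℝ) (ht : t ≠ 0) :
    (1 - μ ^ 2) * B + 2 * (N * μ * (t * b - μ)) * r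
      + (t ^ 2 * μ * c + (N + 1) * (t * μ) * (N * b) - μ ^ 2 * N ^ 2) * A =
    t ^ 2 * μ * (c * A + 2 * (N * b) * ((r + (N + 1) / 2 * A) / t))
      + B - μ ^ 2 * (B + 2 * N * r + N ^ 2 * A) := by
  field_simp
  ring

theorem neg_case {t μ N A B r : ℝ} (ht : 0 < t) (ht1 : t < 1) (hμ0 : 0 < μ) (hμt : μ ≤ t)
    (hN3 : N ≤ -3) (hA : 0 ≤ A) (hB : 0 ≤ B) (hr : r ^ 2 ≤ A * B) :
    0 ≤ t ^ 2 * μ * (N * (-(4 * t) / (1 + t ^ 2) ^ 2) * A
        + 2 * (N * (2 / (1 + t ^ 2))) * ((r + (N + 1) / 2 * A) / t))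
      + B - μ ^ 2 * (B + 2 * N * r + N ^ 2 * A) := by
  have hα : 0 < 1 - μ ^ 2 := by nlinarith
  have hs : 0 < 1 + t ^ 2 := by positivity
  have hbt : t * (2 / (1 + t ^ 2)) - μ = (2 * t - μ * (1 + t ^ 2)) / (1 + t ^ 2) := by
    field_simp
  have hDpos : 0 ≤ t * (2 / (1 + t ^ 2)) - μ := by
    rw [hbt]
    apply div_nonneg _ hs.le
    nlinarith [mul_le_mul_of_nonneg_right hμt hs.le]
  -- the key inequality `(tb-μ)(1-μ t b) ≥ (1-μ²) t c`
  have hkey : (1 - μ ^ 2) * (t * ((1 - t ^ 2) / (1 + t ^ 2) ^ 2))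
      ≤ (t * (2 / (1 + t ^ 2)) - μ) * (1 - μ * (t * (2 / (1 + t ^ 2)))) := by
    have h11 : (t * (2 / (1 + t ^ 2)) - μ) * (1 - μ * (t * (2 / (1 + t ^ 2))))
        - (1 - μ ^ 2) * (t * ((1 - t ^ 2) / (1 + t ^ 2) ^ 2))
        = (t - μ) * ((1 + 3 * t ^ 2) - μ * t * (3 + t ^ 2)) / (1 + t ^ 2) ^ 2 := by
      field_simp
      ring
    have h12 : 0 ≤ (t - μ) * ((1 + 3 * t ^ 2) - μ * t * (3 + t ^ 2)) / (1 + t ^ 2) ^ 2 := by
      apply div_nonneg _ (by positivity)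
      apply mul_nonneg (by linarith)
      have h13 : μ * t * (3 + t ^ 2) ≤ t * t * (3 + t ^ 2) := by
        apply mul_le_mul_of_nonneg_right _ (by positivity)
        exact mul_le_mul_of_nonneg_right hμt ht.le
      nlinarith [pow_le_one₀ ht.le ht1.le (n := 4)]
    linarith
  have hc0 : 0 ≤ t * ((1 - t ^ 2) / (1 + t ^ 2) ^ 2) := by
    apply mul_nonneg ht.le
    apply div_nonneg _ (by positivity)
    nlinarith
  have hγeq := gam_id t μ N
  have hid := last_id t μ N (2 / (1 + t ^ 2)) (N * (-(4 * t) / (1 + t ^ 2) ^ 2)) A B r ht.ne'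
  rw [← hid, hγeq]
  clear hid hγeq hbt
  generalize (1 - t ^ 2) / (1 + t ^ 2) ^ 2 = c at hkey hc0 ⊢
  generalize 2 / (1 + t ^ 2) = b at hkey hDpos ⊢
  have h17 : 0 ≤ N ^ 2 + 2 * N := by nlinarith
  have h14 : t * c ≤ t * b - μ := by
    have h15 : (t * b - μ) * (1 - μ * (t * b)) ≤ (t * b - μ) * (1 - μ ^ 2) := by
      apply mul_le_mul_of_nonneg_left _ hDpos
      have := mul_nonneg hμ0.le hDpos
      linarith
    have h16 : (1 - μ ^ 2) * (t * c) ≤ (1 - μ ^ 2) * (t * b - μ) := by linarith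
    exact le_of_mul_le_mul_left h16 hα
  have hγ0 : 0 ≤ N ^ 2 * (t * b - μ) + 2 * N * (t * c) := by
    calc 0 ≤ (N ^ 2 + 2 * N) * (t * c) := mul_nonneg h17 hc0
      _ = N ^ 2 * (t * c) + 2 * N * (t * c) := by ring
      _ ≤ N ^ 2 * (t * b - μ) + 2 * N * (t * c) := by
          have := mul_le_mul_of_nonneg_left h14 (sq_nonneg N)
          linarith
  have h18 : μ * (t * b - μ) ^ 2 * N ^ 2
      ≤ (1 - μ ^ 2) * (N ^ 2 * (t * b - μ) + 2 * N * (t * c)) := by
    have h19 : μ * (t * b - μ) ^ 2 + (1 - μ ^ 2) * (t * c)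
        ≤ (1 - μ ^ 2) * (t * b - μ) := by
      have : (t * b - μ) * (1 - μ * (t * b)) + μ * (t * b - μ) ^ 2
        = (1 - μ ^ 2) * (t * b - μ) := by ring
      linarith
    have h20 := mul_le_mul_of_nonneg_right h19 (sq_nonneg N)
    have h21 : 0 ≤ (N ^ 2 + 2 * N) * ((1 - μ ^ 2) * (t * c)) :=
      mul_nonneg h17 (mul_nonneg hα.le hc0)
    linarith
  exact psd (α := 1 - μ ^ 2) (β := N * μ * (t * b - μ))
    (γ := μ * (N ^ 2 * (t * b - μ) + 2 * N * (t * c))) hα.le (by positivity) (by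
      calc (N * μ * (t * b - μ)) ^ 2 = μ * (μ * (t * b - μ) ^ 2 * N ^ 2) := by ring
        _ ≤ μ * ((1 - μ ^ 2) * (N ^ 2 * (t * b - μ) + 2 * N * (t * c))) :=
            mul_le_mul_of_nonneg_left h18 hμ0.le
        _ = (1 - μ ^ 2) * (μ * (N ^ 2 * (t * b - μ) + 2 * N * (t * c))) := by ring)
    hA hB hr

/-- the mode inequality -/
theorem mode_ineq {κ : ℝ} {m : ℕ} (hκ0 : 0 < κ) (hκ1 : κ ≤ 1) (hm : 1 ≤ m) {Y Y' : ℝ → ℝ}
    (n : ℤ) {t : ℝ} (ht : 0 < t) (ht1 : t < 1) (hY : 0 < Y t)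
    (hode : κ * t ^ m * (Y t / t - κ * t ^ m) ^ 2 ≤ (1 - (κ * t ^ m) ^ 2) * (Y' t - κ * t ^ m))
    (A B r : ℝ) (hA : 0 ≤ A) (hB : 0 ≤ B) (hr : r ^ 2 ≤ A * B) :
    0 ≤ t ^ 2 * (κ * t ^ m) * (wt' κ m Y Y' n t * A + 2 * wt κ m Y n t * ((r + n * A) / t))
      + B - (κ * t ^ m) ^ 2 * (B + 2 * (2 * n - 1) * r + (2 * n - 1) ^ 2 * A) := by
  obtain ⟨k, rfl⟩ : ∃ k, m = k + 1 := ⟨m - 1, by omega⟩
  set μ := κ * t ^ (k + 1) with hμ
  have hμ0 : 0 < μ := by positivity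
  have htk : t ^ (k + 1) ≤ t := by
    calc t ^ (k + 1) = t ^ k * t := pow_succ t k
      _ ≤ 1 * t := mul_le_mul_of_nonneg_right (pow_le_one₀ ht.le ht1.le) ht.le
      _ = t := one_mul t
  have hμt : μ ≤ t := by
    calc μ ≤ 1 * t ^ (k + 1) := mul_le_mul_of_nonneg_right hκ1 (by positivity)
      _ ≤ t := by rw [one_mul]; exact htk
  have hμ1 : μ < 1 := lt_of_le_of_lt hμt ht1
  have hα : 0 < 1 - μ ^ 2 := by nlinarith
  unfold wt wt'
  by_cases h2 : 2 ≤ n
  · simp only [if_pos h2]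
    have hn : (2 : ℝ) ≤ n := by exact_mod_cast h2
    have h3 := psd (α := 1 - μ ^ 2) (β := 0) (γ := (2 * n - 1) * μ ^ 2 * (k + 1)) hα.le
      (by have : (0:ℝ) ≤ 2 * n - 1 := by linarith
          positivity) (by
        have : (0:ℝ) ≤ 2 * n - 1 := by linarith
        have h5 : 0 ≤ (1 - μ ^ 2) * ((2 * n - 1) * μ ^ 2 * (k + 1)) := by positivity
        simpa using h5) hA hB hr
    refine h3.trans (le_of_eq ?_)
    have e1 : t ^ 2 * μ * ((2 * n - 1) * (κ * (((k + 1 - 1 : ℕ) : ℝ) * t ^ (k + 1 - 1 - 1))) * A)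
        = (2 * n - 1) * μ ^ 2 * k * A := by
      rcases Nat.eq_zero_or_pos k with hk | hk
      · subst hk; simp
      · obtain ⟨j, rfl⟩ : ∃ j, k = j + 1 := ⟨k - 1, by omega⟩
        rw [hμ]
        simp only [Nat.add_sub_cancel]
        push_cast
        ring
    have e2 : t ^ 2 * μ * (2 * ((2 * n - 1) * (κ * t ^ (k + 1 - 1))) * ((r + n * A) / t))
        = 2 * (2 * n - 1) * μ ^ 2 * (r + n * A) := by
      rw [hμ]
      simp only [Nat.add_sub_cancel]
      field_simp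
      ring
    rw [mul_add (t ^ 2 * μ), e1, e2]
    ring
  · simp only [if_neg h2]
    by_cases h1 : n = 1
    · simp only [if_pos h1]
      subst h1
      have hγ : 0 ≤ μ * Y' t - μ ^ 2 := by
        have h5 : 0 ≤ (1 - μ ^ 2) * (Y' t - μ) := le_trans (by positivity) hode
        have h6 : 0 ≤ Y' t - μ := by
          by_contra hc
          rw [not_le] at hc
          nlinarith
        nlinarith
      have h3 := psd (α := 1 - μ ^ 2) (β := μ * Y t / t - μ ^ 2) (γ := μ * Y' t - μ ^ 2) hα.le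
        hγ (by
          have h7 : (μ * Y t / t - μ ^ 2) ^ 2 = μ * (μ * (Y t / t - μ) ^ 2) := by ring
          rw [h7]
          calc μ * (μ * (Y t / t - μ) ^ 2) ≤ μ * ((1 - μ ^ 2) * (Y' t - μ)) :=
                mul_le_mul_of_nonneg_left hode hμ0.le
            _ = (1 - μ ^ 2) * (μ * Y' t - μ ^ 2) := by ring) hA hB hr
      refine h3.trans (le_of_eq ?_)
      push_cast
      field_simp
      ring
    · simp only [if_neg h1]
      by_cases h0 : n = 0
      · simp only [if_pos h0]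
        subst h0
        have hY2 : 0 < Y t ^ 2 := by positivity
        have key : μ * (t / Y t - μ) ^ 2 ≤ (1 - μ ^ 2) * (t ^ 2 * Y' t / Y t ^ 2 - μ) := by
          have h8 : μ * (Y t / t - μ) ^ 2 * (t ^ 2 / Y t ^ 2)
              ≤ (1 - μ ^ 2) * (Y' t - μ) * (t ^ 2 / Y t ^ 2) :=
            mul_le_mul_of_nonneg_right hode (by positivity)
          have h9 : μ * (Y t / t - μ) ^ 2 * (t ^ 2 / Y t ^ 2)
              = μ * (1 - 2 * μ * (t / Y t) + μ ^ 2 * (t / Y t) ^ 2) := by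
            field_simp
            ring
          have h10 : (1 - μ ^ 2) * (Y' t - μ) * (t ^ 2 / Y t ^ 2)
              = (1 - μ ^ 2) * (t ^ 2 * Y' t / Y t ^ 2) - (1 - μ ^ 2) * μ * (t / Y t) ^ 2 := by
            field_simp
          rw [h9, h10] at h8
          nlinarith
        have hγ : 0 ≤ t ^ 2 * μ * (Y' t / Y t ^ 2) - μ ^ 2 := by
          have h5 : 0 ≤ (1 - μ ^ 2) * (t ^ 2 * Y' t / Y t ^ 2 - μ) := le_trans (by positivity) key
          have h6 : 0 ≤ t ^ 2 * Y' t / Y t ^ 2 - μ := by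
            by_contra hc
            rw [not_le] at hc
            nlinarith
          have h7 : t ^ 2 * μ * (Y' t / Y t ^ 2) - μ ^ 2 = μ * (t ^ 2 * Y' t / Y t ^ 2 - μ) := by
            ring
          rw [h7]
          positivity
        have h3 := psd (α := 1 - μ ^ 2) (β := μ ^ 2 - t * μ / Y t)
          (γ := t ^ 2 * μ * (Y' t / Y t ^ 2) - μ ^ 2) hα.le
          hγ (by
            have h7 : (μ ^ 2 - t * μ / Y t) ^ 2 = μ * (μ * (t / Y t - μ) ^ 2) := by ring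
            rw [h7]
            calc μ * (μ * (t / Y t - μ) ^ 2)
                ≤ μ * ((1 - μ ^ 2) * (t ^ 2 * Y' t / Y t ^ 2 - μ)) :=
                  mul_le_mul_of_nonneg_left key hμ0.le
              _ = (1 - μ ^ 2) * (t ^ 2 * μ * (Y' t / Y t ^ 2) - μ ^ 2) := by ring) hA hB hr
        refine h3.trans (le_of_eq ?_)
        push_cast
        field_simp
        ring
      · simp only [if_neg h0]
        have hn1 : n ≤ -1 := by omega
        have hn : (n : ℝ) ≤ -1 := by exact_mod_cast hn1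
        have h := neg_case (N := 2 * (n : ℝ) - 1) ht ht1 hμ0 hμt (by linarith) hA hB hr
        have e1 : ((2 * (n : ℝ) - 1) + 1) / 2 = n := by ring
        rw [e1] at h
        exact h

end Pool.Agent.HU26
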