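import Pool.Agent.HU26.ModesH

set_option autoImplicit false

open Complex Set MeasureTheory Filter Topology Metric
open scoped Real ComplexConjugate

namespace Pool.Agent.HU26

/-! means of powers of the cosine -/

theorem mean_cos_one : (mean fun x => Real.cos x) = 0 := by
  unfold mean
  rw [integral_cos, Real.sin_pi, Real.sin_neg, Real.sin_pi]
  simp

theorem mean_cos_two : (mean fun x => Real.cos x ^ 2) = 1 / 2 := by
  unfold mean
  rw [integral_cos_sq, Real.sin_neg, Real.sin_pi]
  have := Real.pi_ne_zero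
  field_simp
  ring

theorem mean_cos_three : (mean fun x => Real.cos x ^ 3) = 0 := by
  have h1 := mean_cos_one
  unfold mean at h1 ⊢
  have h := integral_cos_pow (a := -π) (b := π) (n := 1)
  rw [Real.sin_neg, Real.sin_pi] at h
  simp only [Nat.reduceAdd, neg_zero, mul_zero, sub_zero, zero_div, pow_one, zero_add] at h
  rw [h, integral_cos, Real.sin_pi, Real.sin_neg, Real.sin_pi]
  simp

theorem mean_cos_four : (mean fun x => Real.cos x ^ 4) = 3 / 8 := by
  unfold mean
  have h := integral_cos_pow (a := -π) (b := π) (n := 2)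
  rw [Real.sin_neg, Real.sin_pi, integral_cos_sq, Real.sin_neg, Real.sin_pi] at h
  simp only [Nat.reduceAdd, neg_zero, mul_zero, sub_zero, zero_div, zero_add] at h
  rw [h]
  have := Real.pi_ne_zero
  field_simp
  norm_num

theorem mean_quartic (a b c d e : ℝ) :
    (mean fun x => a + b * Real.cos x + c * Real.cos x ^ 2 + d * Real.cos x ^ 3
      + e * Real.cos x ^ 4) = a + c / 2 + 3 * e / 8 := by
  rw [mean_add (by fun_prop) (by fun_prop), mean_add (by fun_prop) (by fun_prop),
    mean_add (by fun_prop) (by fun_prop), mean_add (by fun_prop) (by fun_prop),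
    mean_const, mean_const_mul, mean_const_mul, mean_const_mul, mean_const_mul,
    mean_cos_one, mean_cos_two, mean_cos_three, mean_cos_four]
  ring

theorem final_num {y a b d0 d1 : ℝ} (hy : 3191 / 10000 ≤ y) (ha : 58 / 100 - d1 ≤ a)
    (hb : b ≤ 1 + d0) (hb0 : 0 ≤ b) (h1 : 0 ≤ d1)
    (hd : d0 ^ 2 + d1 ^ 2 ≤ 3878 / 1000000)
    (h : y / (4 / 25) ^ 2 * a ^ 2 ≤ 1 / y * b ^ 2 + 2 / (1 + (4 / 25) ^ 2) *
      (1 / 2 * (1 / 100 * (789 / 1000) + 100 * (3878 / 1000000 - (d0 ^ 2 + d1 ^ 2))))) : False := by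
  have hd1 : d1 ≤ 58 / 100 := by nlinarith
  have h2 : (3191 / 10000) / (4 / 25) ^ 2 * (58 / 100 - d1) ^ 2 ≤ y / (4 / 25) ^ 2 * a ^ 2 := by
    apply mul_le_mul
    · gcongr
    · exact pow_le_pow_left₀ (by linarith) ha 2
    · positivity
    · have : 0 < y := by linarith
      positivity
  have h3 : 1 / y * b ^ 2 ≤ 1 / (3191 / 10000) * (1 + d0) ^ 2 := by
    apply mul_le_mul
    · exact one_div_le_one_div_of_le (by norm_num) hy
    · exact pow_le_pow_left₀ hb0 hb 2
    · positivity
    · norm_num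
  norm_num at h2 h3 h
  nlinarith [sq_nonneg (d1 - 6574 / 100000), sq_nonneg (d0 - 3321 / 100000)]

end Pool.Agent.HU26
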