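import Pool.Agent.HU26.Polar

set_option autoImplicit false

open Complex Set MeasureTheory Filter Topology Metric
open scoped Real

namespace Pool.Agent.HU26

theorem hasDerivAt_FC {F F' : ℝ → ℝ → ℂ} {a b t0 : ℝ} (ht0 : t0 ∈ Ioo a b)
    (hd : ∀ t ∈ Ioo a b, ∀ x, HasDerivAt (fun t => F t x) (F' t x) t)
    (hF : ∀ t ∈ Ioo a b, Continuous (F t))
    (hF' : ContinuousOn (fun p : ℝ × ℝ => F' p.1 p.2) (Ioo a b ×ˢ univ)) (n : ℤ) :
    HasDerivAt (fun t => FC (F t) n) (FC (F' t0) n) t0 := by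
  obtain ⟨ε, hε, hball⟩ := Metric.isOpen_iff.1 (isOpen_Ioo (a := a) (b := b)) t0 ht0
  have hcb : closedBall t0 (ε / 2) ⊆ Ioo a b :=
    (closedBall_subset_ball (by linarith)).trans hball
  have hcomp : IsCompact (closedBall t0 (ε / 2) ×ˢ Icc (-π) π) :=
    (isCompact_closedBall t0 (ε / 2)).prod isCompact_Icc
  obtain ⟨C, hC⟩ := hcomp.exists_bound_of_continuousOn
    (hF'.mono (prod_mono hcb (subset_univ _)))
  have hF'c : ∀ t ∈ Ioo a b, Continuous (F' t) := by
    intro t ht
    have h1 : Continuous (fun x : ℝ => (t, x)) := by fun_prop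
    have h2 := hF'.comp_continuous h1 (fun x => ⟨ht, mem_univ _⟩)
    exact h2
  unfold FC
  apply HasDerivAt.const_mul
  have key := intervalIntegral.hasDerivAt_integral_of_dominated_loc_of_deriv_le
    (μ := volume) (a := -π) (b := π) (s := ball t0 (ε / 2)) (x₀ := t0)
    (F := fun t x => cexp (-(n * x * I)) * F t x)
    (F' := fun t x => cexp (-(n * x * I)) * F' t x) (bound := fun _ => C)
    (ball_mem_nhds t0 (by linarith)) ?_ ?_ ?_ ?_ ?_ ?_
  · exact key.2
  · filter_upwards [isOpen_Ioo.mem_nhds ht0] with t ht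
    exact (Continuous.aestronglyMeasurable (by have := hF t ht; fun_prop))
  · exact Continuous.intervalIntegrable (by have := hF t0 ht0; fun_prop) _ _
  · exact (Continuous.aestronglyMeasurable (by have := hF'c t0 ht0; fun_prop))
  · refine Eventually.of_forall fun x hx t ht => ?_
    have hx' : x ∈ Icc (-π) π := by
      rw [uIoc_of_le negpi_lt_pi.le] at hx
      exact Ioc_subset_Icc_self hx
    rw [norm_mul]
    rw [show (-(n * (x : ℂ) * I)) = ((-(n * x) : ℝ) : ℂ) * I by push_cast; ring,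
      Complex.norm_exp_ofReal_mul_I, one_mul]
    exact hC (t, x) ⟨ball_subset_closedBall ht, hx'⟩
  · exact intervalIntegrable_const
  · refine Eventually.of_forall fun x _ t ht => ?_
    exact (hd t (hcb (ball_subset_closedBall ht)) x).const_mul _

theorem continuousOn_FC {F : ℝ → ℝ → ℂ} {a b : ℝ}
    (hF' : ContinuousOn (fun p : ℝ × ℝ => F p.1 p.2) (Ioo a b ×ˢ univ)) (n : ℤ) :
    ContinuousOn (fun t => FC (F t) n) (Ioo a b) := by
  intro t0 ht0
  apply ContinuousAt.continuousWithinAt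
  obtain ⟨ε, hε, hball⟩ := Metric.isOpen_iff.1 (isOpen_Ioo (a := a) (b := b)) t0 ht0
  have hcb : closedBall t0 (ε / 2) ⊆ Ioo a b :=
    (closedBall_subset_ball (by linarith)).trans hball
  have hcomp : IsCompact (closedBall t0 (ε / 2) ×ˢ Icc (-π) π) :=
    (isCompact_closedBall t0 (ε / 2)).prod isCompact_Icc
  obtain ⟨C, hC⟩ := hcomp.exists_bound_of_continuousOn
    (hF'.mono (prod_mono hcb (subset_univ _)))
  unfold FC
  apply ContinuousAt.const_mul
  have hF'c : ∀ t ∈ Ioo a b, Continuous (F t) := by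
    intro t ht
    have h1 : Continuous (fun x : ℝ => (t, x)) := by fun_prop
    exact hF'.comp_continuous h1 (fun x => ⟨ht, mem_univ _⟩)
  apply intervalIntegral.continuousAt_of_dominated_interval (bound := fun _ => C)
  · filter_upwards [isOpen_Ioo.mem_nhds ht0] with t ht
    exact (Continuous.aestronglyMeasurable (by have := hF'c t ht; fun_prop))
  · filter_upwards [ball_mem_nhds t0 (show (0:ℝ) < ε / 2 by linarith)] with t ht
    refine Eventually.of_forall fun x hx => ?_
    have hx' : x ∈ Icc (-π) π := by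
      rw [uIoc_of_le negpi_lt_pi.le] at hx
      exact Ioc_subset_Icc_self hx
    rw [norm_mul]
    rw [show (-(n * (x : ℂ) * I)) = ((-(n * x) : ℝ) : ℂ) * I by push_cast; ring,
      Complex.norm_exp_ofReal_mul_I, one_mul]
    exact hC (t, x) ⟨ball_subset_closedBall ht, hx'⟩
  · exact intervalIntegrable_const
  · refine Eventually.of_forall fun x _ => ?_
    apply ContinuousAt.mul continuousAt_const
    have h1 : ContinuousAt (fun p : ℝ × ℝ => F p.1 p.2) (t0, x) :=
      hF'.continuousAt ((isOpen_Ioo.prod isOpen_univ).mem_nhds ⟨ht0, mem_univ _⟩)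
    exact ContinuousAt.comp (f := fun t => (t, x)) h1 (by fun_prop)

theorem continuousOn_mean {F : ℝ → ℝ → ℝ} {a b : ℝ}
    (hF' : ContinuousOn (fun p : ℝ × ℝ => F p.1 p.2) (Ioo a b ×ˢ univ)) :
    ContinuousOn (fun t => mean (F t)) (Ioo a b) := by
  have h1 : ContinuousOn (fun p : ℝ × ℝ => ((F p.1 p.2 : ℝ) : ℂ)) (Ioo a b ×ˢ univ) :=
    Complex.continuous_ofReal.comp_continuousOn hF'
  have h2 := continuousOn_FC (F := fun t x => ((F t x : ℝ) : ℂ)) h1 0
  have h3 : ∀ t, FC (fun x => ((F t x : ℝ) : ℂ)) 0 = ((mean (F t) : ℝ) : ℂ) := by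
    intro t
    unfold FC mean
    push_cast
    congr 1
    rw [← intervalIntegral.integral_ofReal]
    apply intervalIntegral.integral_congr
    intro x _
    simp
  simp only [h3] at h2
  exact (Complex.continuous_re.comp_continuousOn h2).congr (fun t _ => by simp)

variable {κ R : ℝ} {m : ℕ} {h g E : ℂ → ℂ}

theorem mapsTo_pt (R : ℝ) : MapsTo (fun p : ℝ × ℝ => pt p.1 p.2) (Ioo (-R) R ×ˢ univ)
    (ball (0 : ℂ) R) := fun p hp => pt_mem_ball p.2 hp.1

theorem cont_e (hE : IsE R h g E) :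
    ContinuousOn (fun p : ℝ × ℝ => e E p.1 p.2) (Ioo (-R) R ×ˢ univ) :=
  hE.cont.comp continuous_pt.continuousOn (mapsTo_pt R)

theorem cont_P (D : Dat κ m R h g) (hE : IsE R h g E) :
    ContinuousOn (fun p : ℝ × ℝ => P E h p.1 p.2) (Ioo (-R) R ×ˢ univ) := by
  unfold P
  have h1 := cont_e hE
  unfold e at h1
  have h2 : ContinuousOn (fun p : ℝ × ℝ => deriv h (pt p.1 p.2)) (Ioo (-R) R ×ˢ univ) :=
    D.dh'.continuousOn.comp continuous_pt.continuousOn (mapsTo_pt R)
  exact ((h1.pow 3).mul h2).neg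

theorem cont_Q (D : Dat κ m R h g) (hE : IsE R h g E) :
    ContinuousOn (fun p : ℝ × ℝ => Q E g p.1 p.2) (Ioo (-R) R ×ˢ univ) := by
  unfold Q
  have h1 := cont_e hE
  unfold e at h1
  have h2 : ContinuousOn (fun p : ℝ × ℝ => (starRingEnd ℂ) (deriv g (pt p.1 p.2)))
      (Ioo (-R) R ×ˢ univ) :=
    Complex.continuous_conj.comp_continuousOn
      (D.dg'.continuousOn.comp continuous_pt.continuousOn (mapsTo_pt R))
  have h3 : Continuous (fun p : ℝ × ℝ => cexp (-(2 * (p.2 : ℂ) * I))) := by fun_prop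
  exact (((h1.pow 3).mul h3.continuousOn).mul h2).neg

theorem slice {G : ℝ → ℝ → ℂ} {a b t : ℝ}
    (h : ContinuousOn (fun p : ℝ × ℝ => G p.1 p.2) (Ioo a b ×ˢ univ)) (ht : t ∈ Ioo a b) :
    Continuous (G t) := by
  have h1 : Continuous (fun x : ℝ => (t, x)) := by fun_prop
  exact h.comp_continuous h1 (fun x => ⟨ht, mem_univ _⟩)

/-- the modes -/
noncomputable def En (E : ℂ → ℂ) (t : ℝ) (n : ℤ) : ℂ := FC (e E t) n
noncomputable def Pn (E h : ℂ → ℂ) (t : ℝ) (n : ℤ) : ℂ := FC (P E h t) n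
noncomputable def Qn (E g : ℂ → ℂ) (t : ℝ) (n : ℤ) : ℂ := FC (Q E g t) n

theorem pos_sub {t : ℝ} (D : Dat κ m R h g) (ht : t ∈ Ioo 0 R) : t ∈ Ioo (-R) R :=
  ⟨by linarith [ht.1, D.R0], ht.2⟩

theorem e_pi (E : ℂ → ℂ) (t : ℝ) : e E t π = e E t (-π) := by
  unfold e; rw [pt_pi]

theorem Pn_eq (D : Dat κ m R h g) (hE : IsE R h g E) {t : ℝ} (ht : t ∈ Ioo 0 R) (n : ℤ) :
    Pn E h t n = Qn E g t n + (2 * n - 1) * En E t n := by
  have ht' := pos_sub D ht
  have hc1 := slice (cont_e hE) ht'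
  have hc2 := slice (cont_P D hE) ht'
  have hc3 := slice (cont_Q D hE) ht'
  have hexc : Continuous (ex E h g t) := by
    unfold ex
    exact continuous_const.mul ((hc1.add hc2).sub hc3)
  have h1 := FC_deriv (fun x => e_hasDerivAt_snd D hE x ht) hexc (e_pi E t) n
  have h2 : FC (ex E h g t) n = I / 2 * (En E t n + Pn E h t n - Qn E g t n) := by
    unfold ex
    have hc12 : Continuous (fun x => e E t x + P E h t x) := hc1.add hc2
    rw [FC_const_mul, FC_sub hc12 hc3, FC_add hc1 hc2]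
    rfl
  rw [h2] at h1
  have h3 : FC (e E t) n = En E t n := rfl
  rw [show FC (fun x => e E t x) n = En E t n from rfl] at h1
  have h4 : I * (En E t n + Pn E h t n - Qn E g t n) = I * (2 * n * En E t n) := by
    linear_combination 2 * h1
  have h5 := mul_left_cancel₀ Complex.I_ne_zero h4
  linear_combination h5

theorem En_hasDerivAt (D : Dat κ m R h g) (hE : IsE R h g E) {t : ℝ} (ht : t ∈ Ioo 0 R)
    (n : ℤ) : HasDerivAt (fun t => En E t n) ((Qn E g t n + n * En E t n) / t) t := by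
  have ht' := pos_sub D ht
  have hsub : Ioo 0 R ×ˢ (univ : Set ℝ) ⊆ Ioo (-R) R ×ˢ univ :=
    prod_mono (fun s hs => pos_sub D hs) le_rfl
  have hcet : ContinuousOn (fun p : ℝ × ℝ => et E h g p.1 p.2) (Ioo 0 R ×ˢ univ) := by
    unfold et
    apply ContinuousOn.div
    · exact (((cont_e hE).add (cont_P D hE)).add (cont_Q D hE)).mono hsub
    · fun_prop
    · intro p hp
      have : (p.1 : ℂ) ≠ 0 := by exact_mod_cast hp.1.1.ne'
      exact mul_ne_zero two_ne_zero this
  have h1 := hasDerivAt_FC (F := e E) (F' := et E h g) ht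
    (fun s hs x => e_hasDerivAt_fst D hE x hs)
    (fun s hs => slice (cont_e hE) (pos_sub D hs)) hcet n
  have hc1 := slice (cont_e hE) ht'
  have hc2 := slice (cont_P D hE) ht'
  have hc3 := slice (cont_Q D hE) ht'
  have h2 : FC (et E h g t) n = (En E t n + Pn E h t n + Qn E g t n) / (2 * t) := by
    have : et E h g t = fun x => (1 / (2 * t) : ℂ) * (e E t x + P E h t x + Q E g t x) := by
      ext x
      unfold et
      ring
    have hc12 : Continuous (fun x => e E t x + P E h t x) := hc1.add hc2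
    rw [this, FC_const_mul, FC_add hc12 hc3, FC_add hc1 hc2]
    unfold En Pn Qn
    ring
  rw [h2, Pn_eq D hE ht n] at h1
  refine h1.congr_deriv ?_
  have ht0 : (t : ℂ) ≠ 0 := by exact_mod_cast ht.1.ne'
  field_simp
  ring

end Pool.Agent.HU26
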