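import Pool.Agent.HU26.Branch

set_option autoImplicit false

open Complex Set MeasureTheory Filter Topology Metric
open scoped Real ComplexConjugate

namespace Pool.Agent.HU26

section

variable {F : ℂ → ℂ} {r : ℝ}

theorem an_cont (hF : DifferentiableOn ℂ F (ball 0 r)) :
    ContinuousOn (fun p : ℝ × ℝ => F (pt p.1 p.2)) (Ioo (-r) r ×ˢ univ) :=
  hF.continuousOn.comp continuous_pt.continuousOn (mapsTo_pt r)

theorem an_modes_deriv (hF : DifferentiableOn ℂ F (ball 0 r)) (n : ℤ) {t : ℝ}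
    (ht : t ∈ Ioo 0 r) :
    HasDerivAt (fun t => FC (fun x => F (pt t x)) n) (n * FC (fun x => F (pt t x)) n / t) t := by
  have hr : 0 < r := ht.1.trans ht.2
  have ht' : t ∈ Ioo (-r) r := ⟨by linarith [ht.1], ht.2⟩
  have hd' : DifferentiableOn ℂ (deriv F) (ball 0 r) := hF.deriv isOpen_ball
  have hda : ∀ z ∈ ball (0 : ℂ) r, HasDerivAt F (deriv F z) z := fun z hz =>
    ((hF z hz).differentiableAt (isOpen_ball.mem_nhds hz)).hasDerivAt
  have hc' : ContinuousOn (fun p : ℝ × ℝ => deriv F (pt p.1 p.2) * cexp (p.2 * I))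
      (Ioo (-r) r ×ˢ univ) := by
    have h1 := an_cont hd'
    have h2 : ContinuousOn (fun p : ℝ × ℝ => cexp ((p.2 : ℂ) * I)) (Ioo (-r) r ×ˢ univ) := by
      fun_prop
    exact h1.mul h2
  have h1 := hasDerivAt_FC (F := fun t x => F (pt t x))
    (F' := fun t x => deriv F (pt t x) * cexp (x * I)) ht'
    (fun s hs x => (hda _ (pt_mem_ball x hs)).comp_of_eq s (pt_hasDerivAt_fst s x) rfl)
    (fun s hs => slice (G := fun t x => F (pt t x)) (an_cont hF) hs) hc' n
  refine h1.congr_deriv ?_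
  have hcs : Continuous (fun x : ℝ => deriv F (pt t x) * cexp (x * I)) :=
    slice (G := fun t x => deriv F (pt t x) * cexp (x * I)) hc' ht'
  have h2 := FC_deriv (u := fun x => F (pt t x)) (u' := fun x => (I * t) *
      (deriv F (pt t x) * cexp (x * I))) (fun x => by
      have h3 := (hda _ (pt_mem_ball x ht')).comp_of_eq x (pt_hasDerivAt_snd t x) rfl
      refine h3.congr_deriv ?_
      unfold pt
      ring) (by fun_prop) (by simp only [pt_pi]) n
  rw [FC_const_mul] at h2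
  have ht0 : (t : ℂ) ≠ 0 := by exact_mod_cast ht.1.ne'
  rw [eq_div_iff ht0]
  have h3 : I * (FC (fun x => deriv F (pt t x) * cexp (x * I)) n * t)
      = I * (n * FC (fun x => F (pt t x)) n) := by
    linear_combination h2
  exact mul_left_cancel₀ Complex.I_ne_zero h3

theorem an_tendsto (hr : 0 < r) (hF : DifferentiableOn ℂ F (ball 0 r)) (n : ℤ) :
    Tendsto (fun t : ℝ => FC (fun x => F (pt t x)) n) (𝓝[>] 0) (𝓝 (FC (fun _ => F 0) n)) := by
  have h1 := continuousOn_FC (F := fun t x => F (pt t x)) (an_cont hF) n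
  have h2 : ContinuousAt (fun t : ℝ => FC (fun x => F (pt t x)) n) 0 :=
    h1.continuousAt (isOpen_Ioo.mem_nhds ⟨by linarith, hr⟩)
  have h3 := h2.tendsto.mono_left (nhdsWithin_le_nhds (s := Ioi (0 : ℝ)))
  have h4 : (fun x => F (pt 0 x)) = fun _ => F 0 := by
    funext x
    unfold pt
    simp
  rw [h4] at h3
  exact h3

/-- a function on `(0,r)` with zero derivative is equal to its limit at `0`. -/
theorem const_of_deriv_zero {c : ℝ → ℂ} {K : ℂ} (hd : ∀ t ∈ Ioo 0 r, HasDerivAt c 0 t)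
    (hl : Tendsto c (𝓝[>] 0) (𝓝 K)) {t : ℝ} (ht : t ∈ Ioo 0 r) : c t = K := by
  have h1 : ∀ s ∈ Ioo 0 r, c s = c t := by
    intro s hs
    exact isOpen_Ioo.is_const_of_deriv_eq_zero isPreconnected_Ioo
      (fun y hy => (hd y hy).differentiableAt.differentiableWithinAt)
      (fun y hy => (hd y hy).deriv) hs ht
  have h2 : Tendsto c (𝓝[>] 0) (𝓝 (c t)) := by
    apply tendsto_const_nhds.congr'
    filter_upwards [Ioo_mem_nhdsGT (ht.1.trans ht.2)] with s hs
    exact (h1 s hs).symm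
  exact tendsto_nhds_unique h2 hl

theorem an_modes_neg (hF : DifferentiableOn ℂ F (ball 0 r)) {n : ℤ} (hn : n < 0) {t : ℝ}
    (ht : t ∈ Ioo 0 r) : FC (fun x => F (pt t x)) n = 0 := by
  have hr : 0 < r := ht.1.trans ht.2
  obtain ⟨N, hN⟩ : ∃ N : ℕ, n = -(N + 1 : ℕ) := ⟨(-n - 1).toNat, by omega⟩
  have hd : ∀ s ∈ Ioo 0 r, HasDerivAt
      (fun t : ℝ => (t : ℂ) ^ (N + 1) * FC (fun x => F (pt t x)) n) 0 s := by
    intro s hs
    have h1 := an_modes_deriv hF n hs
    have h2 : HasDerivAt (fun t : ℝ => (t : ℂ) ^ (N + 1)) ((N + 1 : ℕ) * (s : ℂ) ^ N) s := by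
      have h3 := (Complex.ofRealCLM.hasDerivAt (x := s)).pow (N + 1)
      refine HasDerivAt.congr_deriv (f := fun t : ℝ => (t : ℂ) ^ (N + 1)) h3 ?_
      simp
    refine (h2.mul h1).congr_deriv ?_
    have hs0 : (s : ℂ) ≠ 0 := by exact_mod_cast hs.1.ne'
    rw [hN]
    push_cast
    field_simp
    ring
  have hl : Tendsto (fun t : ℝ => (t : ℂ) ^ (N + 1) * FC (fun x => F (pt t x)) n) (𝓝[>] 0)
      (𝓝 0) := by
    have h1 := an_tendsto hr hF n
    have h2 : Tendsto (fun t : ℝ => (t : ℂ) ^ (N + 1)) (𝓝[>] 0) (𝓝 0) := by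
      have h3 : ContinuousAt (fun t : ℝ => (t : ℂ) ^ (N + 1)) 0 := by fun_prop
      have h4 := h3.tendsto.mono_left (nhdsWithin_le_nhds (s := Ioi (0 : ℝ)))
      simpa using h4
    have h5 := h2.mul h1
    rw [zero_mul] at h5
    exact h5
  have h6 := const_of_deriv_zero hd hl ht
  have ht0 : (t : ℂ) ^ (N + 1) ≠ 0 := pow_ne_zero _ (by exact_mod_cast ht.1.ne')
  exact (mul_eq_zero.1 h6).resolve_left ht0

theorem an_modes_zero (hF : DifferentiableOn ℂ F (ball 0 r)) {t : ℝ}
    (ht : t ∈ Ioo 0 r) : FC (fun x => F (pt t x)) 0 = F 0 := by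
  have hr : 0 < r := ht.1.trans ht.2
  have h1 := an_tendsto hr hF 0
  rw [FC_const_zero] at h1
  refine const_of_deriv_zero (c := fun t => FC (fun x => F (pt t x)) 0) (fun s hs => ?_) h1 ht
  have h2 := an_modes_deriv hF 0 hs
  refine h2.congr_deriv ?_
  simp

theorem FC_shift (u : ℝ → ℂ) (n : ℤ) :
    FC (fun x => cexp (x * I) * u x) (n + 1) = FC u n := by
  unfold FC
  congr 1
  apply intervalIntegral.integral_congr
  intro x _
  simp only
  rw [← mul_assoc, ← Complex.exp_add]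
  congr 2
  push_cast
  ring

theorem an_modes_one (hF : DifferentiableOn ℂ F (ball 0 r)) {t : ℝ}
    (ht : t ∈ Ioo 0 r) : FC (fun x => F (pt t x)) 1 = t * deriv F 0 := by
  have hr : 0 < r := ht.1.trans ht.2
  have ht' : t ∈ Ioo (-r) r := ⟨by linarith [ht.1], ht.2⟩
  have hds : DifferentiableOn ℂ (dslope F 0) (ball 0 r) := by
    rw [Complex.differentiableOn_dslope (ball_mem_nhds 0 hr)]
    exact hF
  have hc : Continuous (fun x => dslope F 0 (pt t x)) :=
    slice (G := fun t x => dslope F 0 (pt t x)) (an_cont hds) ht'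
  have h1 : (fun x : ℝ => F (pt t x))
      = fun x : ℝ => F 0 + t * (cexp (x * I) * dslope F 0 (pt t x)) := by
    funext x
    have h2 := sub_smul_dslope F 0 (pt t x)
    rw [sub_zero, smul_eq_mul] at h2
    have h3 : pt t x = t * cexp (x * I) := rfl
    linear_combination (-1 : ℂ) * h2 + dslope F 0 (pt t x) * h3
  have h4 := an_modes_zero hds ht
  rw [dslope_same] at h4
  rw [h1, FC_add continuous_const (by fun_prop), FC_const_ne _ one_ne_zero, FC_const_mul,
    show (1 : ℤ) = 0 + 1 by norm_num, FC_shift, h4, zero_add]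

end

end Pool.Agent.HU26
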