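import Pool.Agent.HU26.Ypoly

set_option autoImplicit false

open Complex Set MeasureTheory Filter Topology Metric
open scoped Real ComplexConjugate

namespace Pool.Agent.HU26

/-- the class `S_H` -/
structure SH (h g : ℂ → ℂ) : Prop where
  dh : DifferentiableOn ℂ h (ball 0 1)
  dg : DifferentiableOn ℂ g (ball 0 1)
  h0 : h 0 = 0
  g0 : g 0 = 0
  h1 : deriv h 0 = 1
  sense : ∀ z ∈ ball (0 : ℂ) 1, ‖deriv g z‖ < ‖deriv h z‖
  inj : InjOn (hm h g) (ball 0 1)

theorem zero_mem : (0 : ℂ) ∈ ball (0 : ℂ) 1 := mem_ball_self one_pos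

namespace SH

variable {h g : ℂ → ℂ}

theorem hda (S : SH h g) {z : ℂ} (hz : z ∈ ball (0 : ℂ) 1) : HasDerivAt h (deriv h z) z :=
  ((S.dh z hz).differentiableAt (isOpen_ball.mem_nhds hz)).hasDerivAt

theorem gda (S : SH h g) {z : ℂ} (hz : z ∈ ball (0 : ℂ) 1) : HasDerivAt g (deriv g z) z :=
  ((S.dg z hz).differentiableAt (isOpen_ball.mem_nhds hz)).hasDerivAt

theorem b_lt (S : SH h g) : ‖deriv g 0‖ < 1 := by
  have := S.sense 0 zero_mem
  rwa [S.h1, norm_one] at this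

theorem h'_ne (S : SH h g) {z : ℂ} (hz : z ∈ ball (0 : ℂ) 1) : deriv h z ≠ 0 := by
  intro hc
  have := S.sense z hz
  rw [hc, norm_zero] at this
  exact absurd this (not_lt.2 (norm_nonneg _))

end SH

/-- the normalising constant -/
noncomputable def cc (g : ℂ → ℂ) : ℂ := ((1 - ‖deriv g 0‖ ^ 2 : ℝ) : ℂ)

/-- affine normalisation -/
noncomputable def hA (h g : ℂ → ℂ) (z : ℂ) : ℂ := (h z - conj (deriv g 0) * g z) / cc g
noncomputable def gA (h g : ℂ → ℂ) (z : ℂ) : ℂ := (g z - deriv g 0 * h z) / cc g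

theorem SH.cc_ne {h g : ℂ → ℂ} (S : SH h g) : cc g ≠ 0 := by
  have h1 := S.b_lt
  have h2 : 0 < 1 - ‖deriv g 0‖ ^ 2 := by nlinarith [norm_nonneg (deriv g 0)]
  unfold cc
  exact_mod_cast h2.ne'

theorem SH.hA_deriv {h g : ℂ → ℂ} (S : SH h g) {z : ℂ} (hz : z ∈ ball (0 : ℂ) 1) :
    HasDerivAt (hA h g) ((deriv h z - conj (deriv g 0) * deriv g z) / cc g) z :=
  ((S.hda hz).sub ((S.gda hz).const_mul _)).div_const _

theorem SH.gA_deriv {h g : ℂ → ℂ} (S : SH h g) {z : ℂ} (hz : z ∈ ball (0 : ℂ) 1) :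
    HasDerivAt (gA h g) ((deriv g z - deriv g 0 * deriv h z) / cc g) z :=
  ((S.gda hz).sub ((S.hda hz).const_mul _)).div_const _

theorem aff_norm (a b u : ℂ) : ‖a - conj u * b‖ ^ 2 - ‖b - u * a‖ ^ 2
    = (1 - ‖u‖ ^ 2) * (‖a‖ ^ 2 - ‖b‖ ^ 2) := by
  simp only [Complex.sq_norm, Complex.normSq_apply, Complex.sub_re, Complex.sub_im,
    Complex.mul_re, Complex.mul_im, Complex.conj_re, Complex.conj_im]
  ring

theorem cc_mul (g : ℂ → ℂ) : deriv g 0 * conj (deriv g 0) = 1 - cc g := by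
  unfold cc
  rw [Complex.mul_conj, Complex.normSq_eq_norm_sq]
  push_cast
  ring

theorem SH.affine {h g : ℂ → ℂ} (S : SH h g) : SH (hA h g) (gA h g) := by
  have hb := S.b_lt
  have hc := S.cc_ne
  have hb2 : 0 < 1 - ‖deriv g 0‖ ^ 2 := by nlinarith [norm_nonneg (deriv g 0)]
  refine ⟨fun z hz => (S.hA_deriv hz).differentiableAt.differentiableWithinAt,
    fun z hz => (S.gA_deriv hz).differentiableAt.differentiableWithinAt, ?_, ?_, ?_, ?_, ?_⟩
  · simp [hA, S.h0, S.g0]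
  · simp [gA, S.h0, S.g0]
  · rw [(S.hA_deriv zero_mem).deriv, S.h1, mul_comm, (cc_mul g), sub_sub_cancel, div_self hc]
  · intro z hz
    rw [(S.hA_deriv hz).deriv, (S.gA_deriv hz).deriv, norm_div, norm_div]
    apply div_lt_div_of_pos_right _ (norm_pos_iff.2 hc)
    have h1 := aff_norm (deriv h z) (deriv g z) (deriv g 0)
    have h2 := S.sense z hz
    have h3 : 0 < ‖deriv h z‖ ^ 2 - ‖deriv g z‖ ^ 2 := by nlinarith [norm_nonneg (deriv g z)]
    have h4 : 0 < (1 - ‖deriv g 0‖ ^ 2) * (‖deriv h z‖ ^ 2 - ‖deriv g z‖ ^ 2) := mul_pos hb2 h3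
    apply lt_of_pow_lt_pow_left₀ 2 (norm_nonneg _)
    linarith
  · intro z hz w hw hzw
    apply S.inj hz hw
    have key : ∀ v, hm (hA h g) (gA h g) v
        = (hm h g v - conj (deriv g 0) * conj (hm h g v)) / cc g := by
      intro v
      have hcc : conj (cc g) = cc g := by unfold cc; exact Complex.conj_ofReal _
      unfold hm hA gA
      simp only [map_div₀, map_sub, map_mul, map_add, Complex.conj_conj, hcc]
      ring
    rw [key, key] at hzw
    have h1 : hm h g z - conj (deriv g 0) * conj (hm h g z)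
        = hm h g w - conj (deriv g 0) * conj (hm h g w) := by
      have := congrArg (fun v => v * cc g) hzw
      simpa [div_mul_cancel₀ _ hc] using this
    set d := hm h g z - hm h g w with hd
    have h2 : d = conj (deriv g 0) * conj d := by
      rw [hd, map_sub]
      linear_combination h1
    have h3 : ‖d‖ = ‖deriv g 0‖ * ‖d‖ := by
      have := congrArg norm h2
      rwa [norm_mul, RCLike.norm_conj, RCLike.norm_conj] at this
    have h4 : ‖d‖ = 0 := by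
      by_contra h5
      have h6 : 0 < ‖d‖ := lt_of_le_of_ne (norm_nonneg _) (Ne.symm h5)
      nlinarith
    exact sub_eq_zero.1 (norm_eq_zero.1 h4)

/-- Schwarz' lemma for the dilatation -/
theorem SH.dilA {h g : ℂ → ℂ} (S : SH h g) {m : ℕ} (hm1 : 1 ≤ m)
    (hc : ∀ k, 2 ≤ k → k ≤ m → iteratedDeriv k g 0 = deriv g 0 * iteratedDeriv k h 0)
    {z : ℂ} (hz : z ∈ ball (0 : ℂ) 1) :
    ‖deriv (gA h g) z‖ ≤ ‖z‖ ^ m * ‖deriv (hA h g) z‖ := by
  have SA := S.affine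
  have ah : AnalyticAt ℂ h 0 := S.dh.analyticAt (isOpen_ball.mem_nhds zero_mem)
  have ag : AnalyticAt ℂ g 0 := S.dg.analyticAt (isOpen_ball.mem_nhds zero_mem)
  set F : ℂ → ℂ := fun z => deriv g z - deriv g 0 * deriv h z with hF
  have aF : AnalyticAt ℂ F 0 := ag.deriv.sub (analyticAt_const.mul ah.deriv)
  have hord : (m : ℕ∞) ≤ analyticOrderAt F 0 := by
    rw [natCast_le_analyticOrderAt_iff_iteratedDeriv_eq_zero aF]
    intro i hi
    have e1 : F = deriv g - (fun z => deriv g 0 * deriv h z) := rfl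
    have hcd : ContDiffAt ℂ i (fun z => deriv g 0 * deriv h z) 0 :=
      (analyticAt_const.mul ah.deriv).contDiffAt
    rw [e1, iteratedDeriv_sub (ag.deriv.contDiffAt) hcd, iteratedDeriv_const_mul_field,
      ← iteratedDeriv_succ', ← iteratedDeriv_succ']
    rcases Nat.eq_zero_or_pos i with h0 | h0
    · subst h0
      rw [iteratedDeriv_one, iteratedDeriv_one, S.h1]
      ring
    · rw [hc (i + 1) (by omega) (by omega)]
      ring
  rw [natCast_le_analyticOrderAt aF] at hord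
  obtain ⟨G, hG, hFG⟩ := hord
  -- the quotient
  set φ : ℂ → ℂ := fun z => deriv (gA h g) z / deriv (hA h g) z with hφ
  have hdh' : DifferentiableOn ℂ (deriv (hA h g)) (ball 0 1) := SA.dh.deriv isOpen_ball
  have hdg' : DifferentiableOn ℂ (deriv (gA h g)) (ball 0 1) := SA.dg.deriv isOpen_ball
  have hφd : DifferentiableOn ℂ φ (ball 0 1) := hdg'.div hdh' (fun z hz => SA.h'_ne hz)
  have hg1 : deriv (gA h g) 0 = 0 := by
    rw [(S.gA_deriv zero_mem).deriv, S.h1]; simp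
  have hφ0 : φ 0 = 0 := by simp only [hφ]; rw [hg1, zero_div]
  have hmaps : MapsTo φ (ball 0 1) (closedBall (φ 0) 1) := by
    intro w hw
    rw [hφ0, mem_closedBall_zero_iff]
    simp only [hφ]
    rw [norm_div, div_le_one (norm_pos_iff.2 (SA.h'_ne hw))]
    exact (SA.sense w hw).le
  have hlo : (fun w => φ w - φ 0) =o[𝓝 0] (fun w => ‖w - 0‖ ^ (m - 1)) := by
    -- φ = w^m * bounded
    have hcont : ContinuousAt (fun w => G w / cc g / deriv (hA h g) w) 0 :=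
      (hG.continuousAt.div_const _).div
        (hdh'.continuousOn.continuousAt (isOpen_ball.mem_nhds zero_mem)) (SA.h'_ne zero_mem)
    have hO : (fun w => G w / cc g / deriv (hA h g) w) =O[𝓝 0] (fun _ => (1 : ℝ)) :=
      hcont.tendsto.isBigO_one ℝ
    have e1 : (fun w => φ w - φ 0) =ᶠ[𝓝 0]
        fun w => w ^ m * (G w / cc g / deriv (hA h g) w) := by
      filter_upwards [hFG, isOpen_ball.mem_nhds zero_mem] with w hw hwb
      rw [hφ0, sub_zero]
      simp only [hφ]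
      rw [(S.gA_deriv hwb).deriv]
      have h5 : deriv g w - deriv g 0 * deriv h w = w ^ m * G w := by
        have := hw
        simp only [hF, sub_zero, smul_eq_mul] at this
        exact this
      rw [h5]
      ring
    have hO1 : (fun w : ℂ => w ^ m) =o[𝓝 0] (fun w => ‖w - 0‖ ^ (m - 1)) := by
      have h6 : (fun w : ℂ => w ^ m) =o[𝓝 0] (fun w => w ^ (m - 1)) :=
        Asymptotics.isLittleO_pow_pow (by omega)
      refine h6.trans_isBigO ?_
      apply Asymptotics.IsBigO.of_bound 1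
      filter_upwards with w
      rw [norm_pow, sub_zero, norm_pow, norm_norm, one_mul]
    have h7 := hO1.mul_isBigO hO
    refine Asymptotics.IsLittleO.congr' h7 e1.symm ?_
    filter_upwards with w
    rw [mul_one]
  have hs := Complex.dist_le_mul_div_pow_of_mapsTo_ball_of_isLittleO hφd hmaps hlo hz
  rw [hφ0, dist_zero_right, dist_zero_right, div_one, one_mul, Nat.sub_add_cancel hm1] at hs
  simp only [hφ] at hs
  rw [norm_div, div_le_iff₀ (norm_pos_iff.2 (SA.h'_ne hz))] at hs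
  exact hs

/-- scaling -/
noncomputable def scl (ρ : ℝ) (h : ℂ → ℂ) (z : ℂ) : ℂ := h (ρ * z) / ρ

theorem scl_deriv {ρ : ℝ} (hρ : ρ ≠ 0) (h : ℂ → ℂ) (z : ℂ) :
    deriv (scl ρ h) z = deriv h (ρ * z) := by
  have hρ' : (ρ : ℂ) ≠ 0 := by exact_mod_cast hρ
  unfold scl
  rw [deriv_div_const, deriv_comp_mul_left (ρ : ℂ) h z, smul_eq_mul, mul_div_cancel_left₀ _ hρ']

theorem mem_scl {ρ : ℝ} (hρ : 0 < ρ) {z : ℂ} (hz : z ∈ ball (0 : ℂ) (1 / ρ)) :
    (ρ : ℂ) * z ∈ ball (0 : ℂ) 1 := by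
  rw [mem_ball_zero_iff] at hz ⊢
  rw [norm_mul, Complex.norm_real, Real.norm_of_nonneg hρ.le]
  calc ρ * ‖z‖ < ρ * (1 / ρ) := mul_lt_mul_of_pos_left hz hρ
    _ = 1 := by field_simp

theorem SH.dat {h g : ℂ → ℂ} (S : SH h g) {m : ℕ} (hm1 : 1 ≤ m)
    (hd : ∀ z ∈ ball (0 : ℂ) 1, ‖deriv g z‖ ≤ ‖z‖ ^ m * ‖deriv h z‖) {ρ : ℝ} (hρ : 0 < ρ)
    (hρ1 : ρ < 1) : Dat 1 m (1 / ρ) (scl ρ h) (scl ρ g) := by
  have hρ' : (ρ : ℂ) ≠ 0 := by exact_mod_cast hρ.ne'
  have hmul : DifferentiableOn ℂ (fun z : ℂ => (ρ : ℂ) * z) (ball 0 (1 / ρ)) := by fun_prop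
  refine ⟨?_, one_pos, le_rfl, hm1, ?_, ?_, ?_, ?_, ?_, ?_, ?_, ?_⟩
  · rw [lt_div_iff₀ hρ]; linarith
  · exact (S.dh.comp hmul (fun z hz => mem_scl hρ hz)).div_const _
  · exact (S.dg.comp hmul (fun z hz => mem_scl hρ hz)).div_const _
  · simp [scl, S.h0]
  · simp [scl, S.g0]
  · rw [scl_deriv hρ.ne', mul_zero, S.h1]
  · intro z hz
    rw [scl_deriv hρ.ne', scl_deriv hρ.ne']
    exact S.sense _ (mem_scl hρ hz)
  · intro z hz w hw hzw
    have h1 : hm h g (ρ * z) = hm h g (ρ * w) := by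
      simp only [scl] at hzw
      unfold hm
      rw [map_div₀, map_div₀, Complex.conj_ofReal, ← add_div, ← add_div] at hzw
      have := congrArg (fun v => v * (ρ : ℂ)) hzw
      simpa [div_mul_cancel₀ _ hρ'] using this
    exact mul_left_cancel₀ hρ' (S.inj (mem_scl hρ hz) (mem_scl hρ hw) h1)
  · intro z hz
    rw [scl_deriv hρ.ne', scl_deriv hρ.ne', one_mul]
    have hz1 : (ρ : ℂ) * z ∈ ball (0 : ℂ) 1 := by
      rw [mem_ball_zero_iff, norm_mul, Complex.norm_real, Real.norm_of_nonneg hρ.le]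
      nlinarith [norm_nonneg z]
    refine (hd _ hz1).trans ?_
    apply mul_le_mul_of_nonneg_right _ (norm_nonneg _)
    apply pow_le_pow_left₀ (norm_nonneg _)
    rw [norm_mul, Complex.norm_real, Real.norm_of_nonneg hρ.le]
    nlinarith [norm_nonneg z]

/-- from bounds for `Dat` to bounds for `S_H` -/
theorem SH.bound {h g : ℂ → ℂ} (S : SH h g) {m : ℕ} (hm2 : 2 ≤ m)
    (hc : ∀ k, 2 ≤ k → k ≤ m → iteratedDeriv k g 0 = deriv g 0 * iteratedDeriv k h 0) {C : ℝ}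
    (hC : ∀ (R : ℝ) (h g : ℂ → ℂ), Dat 1 m R h g → ‖ds2 h 0‖ ≤ C) :
    ‖iteratedDeriv 2 h 0‖ / 2 ≤ C ∧ ‖iteratedDeriv 2 g 0‖ / 2 ≤ C := by
  have SA := S.affine
  have hb := S.b_lt
  have ah : AnalyticAt ℂ h 0 := S.dh.analyticAt (isOpen_ball.mem_nhds zero_mem)
  have ag : AnalyticAt ℂ g 0 := S.dg.analyticAt (isOpen_ball.mem_nhds zero_mem)
  have h2g := hc 2 le_rfl hm2
  have hA2 : iteratedDeriv 2 (hA h g) 0 = iteratedDeriv 2 h 0 := by
    have e1 : hA h g = fun z => (cc g)⁻¹ * (h - fun z => conj (deriv g 0) * g z) z := by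
      funext z
      unfold hA
      rw [div_eq_inv_mul]
      rfl
    have hcd : ContDiffAt ℂ (2 : ℕ) (fun z => conj (deriv g 0) * g z) 0 :=
      (analyticAt_const.mul ag).contDiffAt
    rw [e1, iteratedDeriv_const_mul_field, iteratedDeriv_sub ah.contDiffAt hcd,
      iteratedDeriv_const_mul_field, h2g]
    have hcc := S.cc_ne
    have h3 := (cc_mul g)
    field_simp
    linear_combination (-iteratedDeriv 2 h 0) * h3
  have hmain : ‖iteratedDeriv 2 h 0‖ / 2 ≤ C := by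
    have h1 : ∀ ρ ∈ Ioo (0 : ℝ) 1, ρ * ‖iteratedDeriv 2 h 0‖ / 2 ≤ C := by
      intro ρ hρ
      have D := SA.dat (by omega) (fun z hz => S.dilA (by omega) hc hz) hρ.1 hρ.2
      have h2 := hC _ _ _ D
      have h3 := ds2_zero D.R0 D.dh
      have h4 : iteratedDeriv 2 (scl ρ (hA h g)) 0 = ρ * iteratedDeriv 2 (hA h g) 0 := by
        rw [iteratedDeriv_succ, iteratedDeriv_one, iteratedDeriv_succ, iteratedDeriv_one]
        have e1 : deriv (scl ρ (hA h g)) = fun z => deriv (hA h g) (ρ * z) := by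
          funext z
          exact scl_deriv hρ.1.ne' _ _
        rw [e1, deriv_comp_mul_left (ρ : ℂ) (deriv (hA h g)) 0, mul_zero, smul_eq_mul]
      rw [h4, hA2] at h3
      have h5 := congrArg norm h3
      rw [norm_mul, norm_mul, Complex.norm_real, Real.norm_of_nonneg hρ.1.le] at h5
      have h6 : ‖(2 : ℂ)‖ = 2 := by norm_num
      rw [h6] at h5
      linarith
    have hlim : Tendsto (fun ρ : ℝ => ρ * ‖iteratedDeriv 2 h 0‖ / 2) (𝓝[<] 1)
        (𝓝 (1 * ‖iteratedDeriv 2 h 0‖ / 2)) := by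
      have : ContinuousAt (fun ρ : ℝ => ρ * ‖iteratedDeriv 2 h 0‖ / 2) 1 := by fun_prop
      exact this.tendsto.mono_left nhdsWithin_le_nhds
    rw [one_mul] at hlim
    apply le_of_tendsto hlim
    filter_upwards [Ioo_mem_nhdsLT (show (0 : ℝ) < 1 by norm_num)] with ρ hρ
    exact h1 ρ hρ
  refine ⟨hmain, ?_⟩
  rw [h2g, norm_mul]
  have h5 := norm_nonneg (iteratedDeriv 2 h 0)
  have h6 : ‖deriv g 0‖ * ‖iteratedDeriv 2 h 0‖ ≤ 1 * ‖iteratedDeriv 2 h 0‖ :=
    mul_le_mul_of_nonneg_right hb.le h5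
  linarith

theorem C2 (R : ℝ) (h g : ℂ → ℂ) (D : Dat 1 2 R h g) : ‖ds2 h 0‖ ≤ 443 / 100 :=
  (coeff_two D (Y := Y2) (Y' := Y2') (fun t _ => (Y2_deriv t).continuousAt.continuousWithinAt)
    (fun t _ => Y2_deriv t) (fun _ ht => Y2_pos ht.1 ht.2) Y2_one
    (fun _ ht => Y2_ode ht.1 ht.2)).trans Y2_val

theorem C3 (R : ℝ) (h g : ℂ → ℂ) (D : Dat 1 3 R h g) : ‖ds2 h 0‖ ≤ 33 / 10 :=
  (coeff_two D (Y := Y3) (Y' := Y3') (fun t _ => (Y3_deriv t).continuousAt.continuousWithinAt)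
    (fun t _ => Y3_deriv t) (fun _ ht => Y3_pos ht.1 ht.2) Y3_one
    (fun _ ht => Y3_ode ht.1 ht.2)).trans Y3_val

theorem C4 (R : ℝ) (h g : ℂ → ℂ) (D : Dat 1 4 R h g) : ‖ds2 h 0‖ ≤ 72 / 25 :=
  (coeff_two D (Y := Y4) (Y' := Y4') (fun t _ => (Y4_deriv t).continuousAt.continuousWithinAt)
    (fun t _ => Y4_deriv t) (fun _ ht => Y4_pos ht.1 ht.2) Y4_one
    (fun _ ht => Y4_ode ht.1 ht.2)).trans Y4_val

theorem C7 (R : ℝ) (h g : ℂ → ℂ) (D : Dat 1 7 R h g) : ‖ds2 h 0‖ ≤ 247 / 100 :=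
  (coeff_two D (Y := Y7) (Y' := Y7') (fun t _ => (Y7_deriv t).continuousAt.continuousWithinAt)
    (fun t _ => Y7_deriv t) (fun _ ht => Y7_pos ht.1 ht.2) Y7_one
    (fun _ ht => Y7_ode ht.1 ht.2)).trans Y7_val

end Pool.Agent.HU26
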