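import Pool.Agent.HU26.Defs

set_option autoImplicit false

open Complex Set MeasureTheory Filter Topology Metric
open scoped Real

namespace Pool.Agent.HU26

/-- derivative of a continuous branch of the square root -/
theorem hasDerivAt_sqrt_branch {w q : ℝ → ℂ} {q' : ℂ} {x : ℝ} (hw : ContinuousAt w x)
    (hwx : w x ≠ 0) (hq : ∀ᶠ y in 𝓝 x, w y ^ 2 = q y) (hq' : HasDerivAt q q' x) :
    HasDerivAt w (q' / (2 * w x)) x := by
  rw [hasDerivAt_iff_tendsto_slope] at hq' ⊢
  have hsum : Tendsto (fun y => w y + w x) (𝓝[≠] x) (𝓝 (2 * w x)) := by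
    rw [two_mul]
    exact (hw.tendsto.mono_left nhdsWithin_le_nhds).add tendsto_const_nhds
  have h2 : (2 * w x) ≠ 0 := mul_ne_zero two_ne_zero hwx
  have h1 := hq'.div hsum h2
  apply h1.congr'
  have hne : ∀ᶠ y in 𝓝[≠] x, w y + w x ≠ 0 := hsum.eventually_ne h2
  filter_upwards [hq.filter_mono nhdsWithin_le_nhds, hne] with y hy hy2
  simp only [Pi.div_apply, slope_def_module, Complex.real_smul]
  rw [← hy, ← hq.self_of_nhds, mul_div_assoc]
  congr 1
  rw [div_eq_iff hy2]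
  ring

section

variable (E h g : ℂ → ℂ)

/-- `E` in polar coordinates -/
noncomputable def e (t x : ℝ) : ℂ := E (pt t x)

noncomputable def P (t x : ℝ) : ℂ := -(E (pt t x) ^ 3 * deriv h (pt t x))

noncomputable def Q (t x : ℝ) : ℂ :=
  -(E (pt t x) ^ 3 * cexp (-(2 * x * I)) * (starRingEnd ℂ) (deriv g (pt t x)))

noncomputable def et (t x : ℝ) : ℂ := (e E t x + P E h t x + Q E g t x) / (2 * t)

noncomputable def ex (t x : ℝ) : ℂ := I / 2 * (e E t x + P E h t x - Q E g t x)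

end

variable {κ R : ℝ} {m : ℕ} {h g E : ℂ → ℂ}

structure IsE (R : ℝ) (h g E : ℂ → ℂ) : Prop where
  cont : ContinuousOn E (ball 0 R)
  zero : E 0 = 1
  sq : ∀ z ∈ ball (0 : ℂ) R, E z ^ 2 * hm h g z = z
  ne : ∀ z ∈ ball (0 : ℂ) R, E z ≠ 0

theorem hm_hasDerivAt_fst (D : Dat κ m R h g) {t : ℝ} (x : ℝ) (ht : t ∈ Ioo (-R) R) :
    HasDerivAt (fun t => hm h g (pt t x))
      (deriv h (pt t x) * cexp (x * I) + (starRingEnd ℂ) (deriv g (pt t x) * cexp (x * I))) t := by
  have hz := pt_mem_ball x ht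
  have hp := pt_hasDerivAt_fst t x
  have h1 := (D.hda hz).comp_of_eq t hp rfl
  have h2 := (D.gda hz).comp_of_eq t hp rfl
  have h3 := (Complex.conjCLE.toContinuousLinearMap.hasFDerivAt (x := g (pt t x))).comp_hasDerivAt t h2
  exact h1.add h3

theorem hm_hasDerivAt_snd (D : Dat κ m R h g) {t : ℝ} (x : ℝ) (ht : t ∈ Ioo (-R) R) :
    HasDerivAt (fun x => hm h g (pt t x))
      (deriv h (pt t x) * (I * pt t x) + (starRingEnd ℂ) (deriv g (pt t x) * (I * pt t x))) x := by
  have hz := pt_mem_ball x ht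
  have hp := pt_hasDerivAt_snd t x
  have h1 := (D.hda hz).comp_of_eq x hp rfl
  have h2 := (D.gda hz).comp_of_eq x hp rfl
  have h3 := (Complex.conjCLE.toContinuousLinearMap.hasFDerivAt (x := g (pt t x))).comp_hasDerivAt x h2
  exact h1.add h3

theorem conj_exp (x : ℝ) : (starRingEnd ℂ) (cexp (x * I)) = cexp (-(2 * x * I)) * cexp (x * I) := by
  rw [← Complex.exp_conj, ← Complex.exp_add]
  congr 1
  simp
  ring

theorem e_hasDerivAt_fst (D : Dat κ m R h g) (hE : IsE R h g E) {t : ℝ} (x : ℝ)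
    (ht : t ∈ Ioo 0 R) : HasDerivAt (fun t => e E t x) (et E h g t x) t := by
  have ht' : t ∈ Ioo (-R) R := ⟨by linarith [ht.1, D.R0], ht.2⟩
  have hz := pt_mem_ball x ht'
  have ht0 : (t : ℂ) ≠ 0 := by exact_mod_cast ht.1.ne'
  have hf0 := D.f_ne hz (pt_ne_zero x ht.1.ne')
  have hE0 := hE.ne _ hz
  have hsq := hE.sq _ hz
  have hcont : ContinuousAt (fun t => e E t x) t := by
    have h1 : ContinuousAt E (pt t x) := hE.cont.continuousAt (isOpen_ball.mem_nhds hz)
    have h2 : ContinuousAt (fun t => pt t x) t := (pt_hasDerivAt_fst t x).continuousAt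
    exact ContinuousAt.comp_of_eq h1 h2 rfl
  have hq : ∀ᶠ s in 𝓝 t, e E s x ^ 2 = pt s x / hm h g (pt s x) := by
    filter_upwards [isOpen_Ioo.mem_nhds ht] with s hs
    have hs' : s ∈ Ioo (-R) R := ⟨by linarith [hs.1, D.R0], hs.2⟩
    have hzs := pt_mem_ball x hs'
    rw [eq_div_iff (D.f_ne hzs (pt_ne_zero x hs.1.ne'))]
    exact hE.sq _ hzs
  have hd := (pt_hasDerivAt_fst t x).div (hm_hasDerivAt_fst D x ht') hf0
  have h3 := hasDerivAt_sqrt_branch hcont hE0 hq hd
  refine h3.congr_deriv ?_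
  have hpt : pt t x = t * cexp (x * I) := rfl
  have hexp : cexp (x * I) ≠ 0 := Complex.exp_ne_zero _
  unfold et P Q e
  rw [map_mul, conj_exp]
  set u := cexp (x * I) with hu
  set F := hm h g (pt t x) with hF
  set a := E (pt t x) with ha
  set H := deriv h (pt t x)
  set G := (starRingEnd ℂ) (deriv g (pt t x))
  set v := cexp (-(2 * x * I))
  have hFv : F = t * u / a ^ 2 := by
    rw [eq_div_iff (pow_ne_zero 2 hE0), ← hpt, mul_comm]; exact hsq
  have hE0' : a ≠ 0 := hE0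
  rw [hFv, hpt]
  field_simp
  ring

theorem e_hasDerivAt_snd (D : Dat κ m R h g) (hE : IsE R h g E) {t : ℝ} (x : ℝ)
    (ht : t ∈ Ioo 0 R) : HasDerivAt (fun x => e E t x) (ex E h g t x) x := by
  have ht' : t ∈ Ioo (-R) R := ⟨by linarith [ht.1, D.R0], ht.2⟩
  have hz := pt_mem_ball x ht'
  have ht0 : (t : ℂ) ≠ 0 := by exact_mod_cast ht.1.ne'
  have hf0 := D.f_ne hz (pt_ne_zero x ht.1.ne')
  have hE0 := hE.ne _ hz
  have hsq := hE.sq _ hz
  have hcont : ContinuousAt (fun x => e E t x) x := by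
    have h1 : ContinuousAt E (pt t x) := hE.cont.continuousAt (isOpen_ball.mem_nhds hz)
    have h2 : ContinuousAt (fun x => pt t x) x := (pt_hasDerivAt_snd t x).continuousAt
    exact ContinuousAt.comp_of_eq h1 h2 rfl
  have hq : ∀ᶠ s in 𝓝 x, e E t s ^ 2 = pt t s / hm h g (pt t s) := by
    filter_upwards with s
    have hzs := pt_mem_ball s ht'
    rw [eq_div_iff (D.f_ne hzs (pt_ne_zero s ht.1.ne'))]
    exact hE.sq _ hzs
  have hd := (pt_hasDerivAt_snd t x).div (hm_hasDerivAt_snd D x ht') hf0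
  have h3 := hasDerivAt_sqrt_branch hcont hE0 hq hd
  refine h3.congr_deriv ?_
  have hpt : pt t x = t * cexp (x * I) := rfl
  have hexp : cexp (x * I) ≠ 0 := Complex.exp_ne_zero _
  have hcp : (starRingEnd ℂ) (pt t x) = t * (cexp (-(2 * x * I)) * cexp (x * I)) := by
    rw [hpt, map_mul, conj_exp, Complex.conj_ofReal]
  unfold ex P Q e
  rw [map_mul, map_mul, hcp, Complex.conj_I]
  set u := cexp (x * I) with hu
  set F := hm h g (pt t x) with hF
  set a := E (pt t x) with ha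
  set H := deriv h (pt t x)
  set G := (starRingEnd ℂ) (deriv g (pt t x))
  set v := cexp (-(2 * x * I))
  have hFv : F = t * u / a ^ 2 := by
    rw [eq_div_iff (pow_ne_zero 2 hE0), ← hpt, mul_comm]; exact hsq
  have hE0' : a ≠ 0 := hE0
  rw [hFv, hpt]
  field_simp
  ring

end Pool.Agent.HU26
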