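import Pool.Agent.HU26.Final
import Pool.Agent.HU85.Renorm

set_option autoImplicit false

open Complex Metric Set Filter Topology
open scoped ComplexConjugate

namespace Pool.Agent.HU26

open Pool.Agent.HU85

theorem sub_lin2 {M : ℝ} {L p : ℂ → ℂ} (hM : 29 / 2 < M) (h : LogHyp M L p) {z : ℂ}
    (hz : ‖z‖ ≤ 4 / 25) : ‖L ((29 / 2 / M : ℝ) * z) - 29 / 2 * z‖ ≤ 83 / 20 * ‖z‖ ^ 2 := by
  have hM0 : 0 < M := by linarith
  set s : ℝ := 29 / 2 / M with hs
  have hs0 : 0 < s := by positivity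
  have hs1 : s ≤ 1 := by rw [hs, div_le_one hM0]; exact hM.le
  have hMs : M * s = 29 / 2 := by rw [hs]; field_simp
  set ζ : ℂ := (s:ℂ) * z with hζ
  have ht0 : 0 ≤ ‖z‖ := norm_nonneg _
  have hζn : ‖ζ‖ = s * ‖z‖ := by
    rw [hζ, norm_mul, Complex.norm_real, Real.norm_of_nonneg hs0.le]
  set t := ‖z‖ with ht
  have hst : s * t ≤ t := mul_le_of_le_one_left ht0 hs1
  have hst0 : 0 ≤ s * t := by positivity
  have h1 := h.norm_Phi hM0.le (z := ζ) (by rw [hζn]; linarith)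
  have h2 : L ζ - 29 / 2 * z = ζ * (Phi M L ζ + ζ) := by
    have h3 := h.mul_Phi ζ
    have h4 : (M:ℂ) * ζ = 29 / 2 * z := by
      rw [hζ, ← mul_assoc, ← Complex.ofReal_mul, hMs]; norm_num
    rw [h4] at h3
    linear_combination -h3
  rw [h2, norm_mul]
  have h5 : ‖Phi M L ζ + ζ‖ ≤ ‖Phi M L ζ‖ + ‖ζ‖ := norm_add_le _ _
  set P := ‖Phi M L ζ‖ with hP
  have hP0 : 0 ≤ P := norm_nonneg _
  rw [hζn] at h1 h5 ⊢
  have h6 : s * t * P * (1 - 4 * t ^ 2) ≤ t ^ 2 / 2 + 145256 / 10000 * t ^ 3 := by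
    have e1 : 1 - 4 * t ^ 2 ≤ 1 - 4 * (s * t) ^ 2 := by nlinarith
    have e2 : s * t * (P * (1 - 4 * t ^ 2)) ≤ s * t * (P * (1 - 4 * (s * t) ^ 2)) := by gcongr
    have e3 : s * t * (P * (1 - 4 * (s * t) ^ 2)) ≤
        s * t * (s * t / 2 + 8 * (M / 10 + 3657 / 10000) * (s * t) ^ 2) :=
      mul_le_mul_of_nonneg_left h1 hst0
    have e4 : s * t * (s * t / 2 + 8 * (M / 10 + 3657 / 10000) * (s * t) ^ 2) =
        (s * t) ^ 2 / 2 + (4 / 5 * (M * s) + 8 * (3657 / 10000) * s) * s ^ 2 * t ^ 3 := by ring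
    rw [hMs] at e4
    have e5 : (s * t) ^ 2 ≤ t ^ 2 := by nlinarith
    have e6 : (4 / 5 * (29 / 2) + 8 * (3657 / 10000) * s) * s ^ 2 ≤ 145256 / 10000 := by
      have : s ^ 2 ≤ 1 := by nlinarith
      have e7 : (4 / 5 * (29 / 2) + 8 * (3657 / 10000) * s) * s ^ 2 ≤
        (4 / 5 * (29 / 2) + 8 * (3657 / 10000) * 1) * 1 := by gcongr
      norm_num at e7 ⊢
      linarith
    have e8 : (4 / 5 * (29 / 2) + 8 * (3657 / 10000) * s) * s ^ 2 * t ^ 3
        ≤ 145256 / 10000 * t ^ 3 := by gcongr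
    calc s * t * P * (1 - 4 * t ^ 2) = s * t * (P * (1 - 4 * t ^ 2)) := by ring
      _ ≤ _ := by linarith
  have h7 : s * t * P ≤ 315 / 100 * t ^ 2 := by
    have e1 : 0 < 1 - 4 * t ^ 2 := by nlinarith
    have e2 : t ^ 2 / 2 + 145256 / 10000 * t ^ 3 ≤ (315 / 100 * t ^ 2) * (1 - 4 * t ^ 2) := by
      have k1 : 0 ≤ t ^ 2 * (315 / 100 * (1 - 4 * t ^ 2) - 1 / 2 - 145256 / 10000 * t) := by
        apply mul_nonneg (by positivity)
        nlinarith
      nlinarith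
    have e3 := h6.trans e2
    exact le_of_mul_le_mul_right e3 e1
  have h8 : (s * t) ^ 2 ≤ t ^ 2 := by nlinarith
  calc s * t * ‖Phi M L ζ + ζ‖ ≤ s * t * (P + s * t) := mul_le_mul_of_nonneg_left h5 hst0
    _ = s * t * P + (s * t) ^ 2 := by ring
    _ ≤ _ := by linarith

theorem norm_contra2 {M : ℝ} (hM : 29 / 2 < M) {L p Ω H G : ℂ → ℂ} (h : LogHyp M L p)
    (hΩD : DifferentiableOn ℂ Ω (ball 0 1)) (hΩ1 : ∀ z ∈ ball (0:ℂ) 1, ‖Ω z‖ ≤ 1)
    (hΩ0 : Ω 0 = 0) (hHd : ∀ z : ℂ, ‖z‖ < 1 → HasDerivAt H (exp (L z)) z)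
    (hGd : ∀ z : ℂ, ‖z‖ < 1 → HasDerivAt G (Ω z * exp (L z)) z)
    (hinj : InjOn (fun z => H z + conj (G z)) (ball 0 1)) : False := by
  have hM0 : 0 < M := by linarith
  set c : ℝ := 29 / 2 / M with hc
  have hc0 : 0 < c := by positivity
  have hc1 : c < 1 := by rw [hc, div_lt_one hM0]; exact hM
  have hMc : M * c = 29 / 2 := by rw [hc]; field_simp
  have hcc : (c : ℂ) ≠ 0 := by exact_mod_cast hc0.ne'
  have hmem : ∀ z ∈ ball (0 : ℂ) (1 / c), ‖(c : ℂ) * z‖ < 1 := by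
    intro z hz
    rw [mem_ball_zero_iff, lt_div_iff₀ hc0] at hz
    rw [norm_mul, Complex.norm_real, Real.norm_of_nonneg hc0.le]
    linarith
  have hR : 1 < 1 / c := by rw [lt_div_iff₀ hc0]; linarith
  have hcd : ∀ z : ℂ, HasDerivAt (fun z : ℂ => (c : ℂ) * z) c z := by
    intro z
    simpa using (hasDerivAt_id z).const_mul (c : ℂ)
  have hΩle : ∀ z : ℂ, ‖z‖ < 1 → ‖Ω z‖ ≤ ‖z‖ := by
    intro z hz
    have h1 := schwarz_pick_zero hΩD hΩ1 hz
    rw [hΩ0] at h1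
    simpa using h1
  set h' : ℂ → ℂ := fun z => (H (c * z) - H 0) / c with hh'
  set g' : ℂ → ℂ := fun z => (G (c * z) - G 0) / c with hg'
  have dh : ∀ z ∈ ball (0 : ℂ) (1 / c), HasDerivAt h' (exp (L (c * z))) z := by
    intro z hz
    have h1 := (((hHd _ (hmem z hz)).comp z (hcd z)).sub_const (H 0)).div_const (c : ℂ)
    refine h1.congr_deriv ?_
    field_simp
  have dg : ∀ z ∈ ball (0 : ℂ) (1 / c), HasDerivAt g' (Ω (c * z) * exp (L (c * z))) z := by
    intro z hz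
    have h1 := (((hGd _ (hmem z hz)).comp z (hcd z)).sub_const (G 0)).div_const (c : ℂ)
    refine h1.congr_deriv ?_
    field_simp
  have h0b : (0 : ℂ) ∈ ball (0 : ℂ) (1 / c) := mem_ball_self (by positivity)
  have D : Dat 1 1 (1 / c) h' g' := by
    refine ⟨hR, one_pos, le_rfl, le_rfl, fun z hz => (dh z hz).differentiableAt.differentiableWithinAt,
      fun z hz => (dg z hz).differentiableAt.differentiableWithinAt, by simp [hh'], by simp [hg'],
      ?_, ?_, ?_, ?_⟩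
    · rw [(dh 0 h0b).deriv, mul_zero, h.zero, exp_zero]
    · intro z hz
      rw [(dh z hz).deriv, (dg z hz).deriv, norm_mul]
      have h1 := hΩle _ (hmem z hz)
      have h2 := hmem z hz
      have h3 : 0 < ‖exp (L (c * z))‖ := norm_pos_iff.2 (exp_ne_zero _)
      exact mul_lt_of_lt_one_left h3 (by linarith)
    · intro z hz w hw hzw
      simp only [hh', hg', map_div₀, map_sub, Complex.conj_ofReal] at hzw
      rw [← add_div, ← add_div, div_left_inj' hcc] at hzw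
      have h1 : H (c * z) + conj (G (c * z)) = H (c * w) + conj (G (c * w)) := by
        linear_combination hzw
      have h2 := hinj (by simpa using hmem z hz) (by simpa using hmem w hw) h1
      exact mul_left_cancel₀ hcc h2
    · intro z hz
      have hz' : z ∈ ball (0 : ℂ) (1 / c) := by
        rw [mem_ball_zero_iff]; linarith
      rw [(dh z hz').deriv, (dg z hz').deriv, norm_mul, one_mul, pow_one]
      apply mul_le_mul_of_nonneg_right _ (norm_nonneg _)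
      refine (hΩle _ (hmem z hz')).trans ?_
      rw [norm_mul, Complex.norm_real, Real.norm_of_nonneg hc0.le]
      exact mul_le_of_le_one_left (norm_nonneg _) hc1.le
  have J : Inner (1 / c) h' g' (fun z => L (c * z)) := by
    refine ⟨D, fun z hz => ?_, fun z hz => sub_lin2 hM h hz⟩
    have hz' : z ∈ ball (0 : ℂ) (1 / c) := by
      rw [mem_ball_zero_iff]; linarith
    exact (dh z hz').deriv
  refine inner_contra J ?_
  have h1 := ds2_zero (by positivity) D.dh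
  have h2 : deriv h' =ᶠ[𝓝 0] fun z => exp (L (c * z)) := by
    filter_upwards [isOpen_ball.mem_nhds h0b] with z hz
    exact (dh z hz).deriv
  have h3 : HasDerivAt L (M : ℂ) (c * 0) := by
    rw [mul_zero, ← h.p0]
    exact h.der 0 (by simp)
  have h4 : HasDerivAt (fun z : ℂ => exp (L (c * z))) (29 / 2) 0 := by
    have h5 := (h3.comp (0 : ℂ) (hcd 0)).cexp
    refine h5.congr_deriv ?_
    have h6 : (M : ℂ) * c = 29 / 2 := by
      rw [← Complex.ofReal_mul, hMc]; norm_num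
    simp only [Function.comp_apply, mul_zero, h.zero, exp_zero, one_mul]
    exact h6
  rw [iteratedDeriv_succ, iteratedDeriv_one, h2.deriv_eq, h4.deriv] at h1
  linear_combination (-1 / 2 : ℂ) * h1

/-- renormalisation at an extremal point of the harmonic pre-Schwarzian -/
theorem renorm2 {h g : ℂ → ℂ} (H : HarmU h g) {r : ℝ} (hr0 : 0 < r) (hr1 : r < 1) {M : ℝ}
    (hM : 29 / 2 < M) {a ξ : ℂ} (ha : ‖a‖ < 1) (hξ : ‖ξ‖ = 1)
    (hbd : ∀ z : ℂ, ‖z‖ < 1 → ‖Ph h g r z‖ ≤ M) (hext : ξ * Ph h g r a = M) : False := by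
  set c : ℂ := conj a * ξ with hc
  have hcn : ‖c‖ < 1 := by rw [hc, norm_mul, hξ, mul_one, RCLike.norm_conj]; exact ha
  have hξξ : ξ * conj ξ = 1 := by rw [mul_conj_sq, hξ]; simp
  have hξ0 : ξ ≠ 0 := by intro h0; rw [h0, norm_zero] at hξ; exact zero_ne_one hξ
  set D : ℂ → ℂ := fun z => 1 + c * z with hD
  have hDne : ∀ z : ℂ, ‖z‖ < 1 → D z ≠ 0 := by
    intro z hz h0
    have h1 : ‖c * z‖ < 1 := by
      rw [norm_mul]; nlinarith [norm_nonneg c, norm_nonneg z]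
    have h2 : c * z = -1 := by linear_combination h0
    rw [h2] at h1
    simp at h1
  set T : ℂ → ℂ := fun z => (ξ * z + a) / D z with hT
  have hA : 1 - a * conj a ≠ 0 := one_sub_mul_conj_ne ha
  -- modulus identity
  have hmod : ∀ z : ℂ, ‖z‖ < 1 →
      (1 - T z * conj (T z)) * (D z * conj (D z)) = (1 - a * conj a) * (1 - z * conj z) := by
    intro z hz
    have h1 := hDne z hz
    have h2 : conj (D z) ≠ 0 := by rwa [Ne, map_eq_zero]
    simp only [hT, map_div₀]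
    field_simp
    simp only [hD, hc, map_add, map_mul, map_one, Complex.conj_conj]
    linear_combination (a * conj a * z * conj z - z * conj z) * hξξ
  have hTlt : ∀ z : ℂ, ‖z‖ < 1 → ‖T z‖ < 1 := by
    intro z hz
    have h1 := hmod z hz
    rw [mul_conj_sq, mul_conj_sq, mul_conj_sq, mul_conj_sq] at h1
    have h2 : (1 - ‖T z‖ ^ 2) * ‖D z‖ ^ 2 = (1 - ‖a‖ ^ 2) * (1 - ‖z‖ ^ 2) := by exact_mod_cast h1
    have h3 : 0 < (1 - ‖a‖ ^ 2) * (1 - ‖z‖ ^ 2) := by
      apply mul_pos <;> nlinarith [norm_nonneg a, norm_nonneg z]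
    rw [← h2] at h3
    have h4 : 0 < ‖D z‖ ^ 2 := by
      have := norm_pos_iff.mpr (hDne z hz); positivity
    have h5 := (mul_pos_iff_of_pos_right h4).mp h3
    nlinarith [norm_nonneg (T z)]
  have hDd : ∀ z : ℂ, HasDerivAt D c z := by
    intro z
    exact (((hasDerivAt_id z).const_mul c).const_add 1).congr_deriv (by simp)
  have hTd : ∀ z : ℂ, ‖z‖ < 1 → HasDerivAt T (ξ * (1 - a * conj a) / D z ^ 2) z := by
    intro z hz
    have h1 : HasDerivAt (fun z : ℂ => ξ * z + a) ξ z := by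
      simpa using ((hasDerivAt_id z).const_mul ξ).add_const a
    refine (h1.div (hDd z) (hDne z hz)).congr_deriv ?_
    congr 1
    simp only [hD, hc]; ring
  set Ψ : ℂ → ℂ := fun z => r * T z with hΨ
  have hΨlt : ∀ z : ℂ, ‖z‖ < 1 → ‖Ψ z‖ < 1 := by
    intro z hz
    have h1 := hTlt z hz
    simp only [hΨ]
    rw [norm_mul, Complex.norm_real, Real.norm_of_nonneg hr0.le]
    nlinarith [norm_nonneg (T z)]
  set Ψ' : ℂ → ℂ := fun z => r * (ξ * (1 - a * conj a) / D z ^ 2) with hΨ'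
  have hΨd : ∀ z : ℂ, ‖z‖ < 1 → HasDerivAt Ψ (Ψ' z) z := by
    intro z hz
    exact (hTd z hz).const_mul (r:ℂ)
  have hrc : (r:ℂ) ≠ 0 := by exact_mod_cast hr0.ne'
  have hΨ'ne : ∀ z : ℂ, ‖z‖ < 1 → Ψ' z ≠ 0 := by
    intro z hz
    have := hDne z hz
    simp only [hΨ']
    exact mul_ne_zero hrc (div_ne_zero (mul_ne_zero hξ0 hA) (pow_ne_zero 2 this))
  have hΨ'd : ∀ z : ℂ, ‖z‖ < 1 → HasDerivAt Ψ' (Ψ' z * (-2 * c / D z)) z := by
    intro z hz
    have h1 := hDne z hz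
    have h2 := (((hDd z).pow 2).inv (pow_ne_zero 2 h1)).const_mul (ξ * (1 - a * conj a))
    have h3 := h2.const_mul (r:ℂ)
    have h4 : HasDerivAt Ψ' _ z := h3
    refine h4.congr_deriv ?_
    simp only [hΨ', Pi.pow_apply]
    field_simp
    norm_num
    ring
  have hz0 : ‖(0:ℂ)‖ < 1 := by simp
  have hD0 : D 0 = 1 := by simp [hD]
  have hT0 : T 0 = a := by simp [hT, hD0]
  have hΨ0 : Ψ 0 = r * a := by simp only [hΨ, hT0]
  set ω := om h g with hω
  set b : ℂ := ω (r * a) with hb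
  have hral : ‖(r:ℂ) * a‖ < 1 := by rw [← hΨ0]; exact hΨlt 0 hz0
  have hbn : ‖b‖ < 1 := H.om_lt hral
  set φ : ℂ → ℂ := fun z => ω (Ψ z) with hφ
  have hφ0 : φ 0 = b := by simp only [hφ, hΨ0, hb]
  have hφ1 : ∀ z : ℂ, ‖z‖ < 1 → ‖φ z‖ < 1 := fun z hz => H.om_lt (hΨlt z hz)
  have hφd : ∀ z : ℂ, ‖z‖ < 1 → HasDerivAt φ (deriv ω (Ψ z) * Ψ' z) z := by
    intro z hz
    exact (H.om1d (hΨlt z hz)).comp z (hΨd z hz)
  have hφD : DifferentiableOn ℂ φ (ball 0 1) := fun z hz =>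
    (hφd z (by simpa using hz)).differentiableAt.differentiableWithinAt
  have hbφ : ∀ z : ℂ, ‖z‖ < 1 → 1 - conj b * φ z ≠ 0 := fun z hz => one_sub_ne hbn (hφ1 z hz).le
  -- the normalising constant
  set ν : ℂ := (deriv h (r * a) - conj b * deriv g (r * a)) * Ψ' 0 with hν
  have hQ : ∀ z : ℂ, ‖z‖ < 1 → deriv h (Ψ z) - conj b * deriv g (Ψ z) =
      deriv h (Ψ z) * (1 - conj b * φ z) := by
    intro z hz
    rw [H.g1eq (hΨlt z hz)]
    ring
  have hQne : ∀ z : ℂ, ‖z‖ < 1 → deriv h (Ψ z) - conj b * deriv g (Ψ z) ≠ 0 := by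
    intro z hz
    rw [hQ z hz]
    exact mul_ne_zero (H.h1ne (hΨlt z hz)) (hbφ z hz)
  have hν0 : ν ≠ 0 := by
    have h1 := hQne 0 hz0
    rw [hΨ0] at h1
    exact mul_ne_zero h1 (hΨ'ne 0 hz0)
  have hνc : conj ν ≠ 0 := by rwa [Ne, map_eq_zero]
  set F1 : ℂ → ℂ := fun z => (deriv h (Ψ z) - conj b * deriv g (Ψ z)) * Ψ' z / ν with hF1
  have hF1ne : ∀ z ∈ ball (0:ℂ) 1, F1 z ≠ 0 := by
    intro z hz
    have hz1 : ‖z‖ < 1 := by simpa using hz
    exact div_ne_zero (mul_ne_zero (hQne z hz1) (hΨ'ne z hz1)) hν0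
  have hF10 : F1 0 = 1 := by
    simp only [hF1, hΨ0]
    rw [← hν, div_self hν0]
  have hF1d : ∀ z : ℂ, ‖z‖ < 1 → HasDerivAt F1
      (((deriv (deriv h) (Ψ z) * Ψ' z - conj b * (deriv (deriv g) (Ψ z) * Ψ' z)) * Ψ' z +
        (deriv h (Ψ z) - conj b * deriv g (Ψ z)) * (Ψ' z * (-2 * c / D z))) / ν) z := by
    intro z hz
    have h1 := (H.h2d (hΨlt z hz)).comp z (hΨd z hz)
    have h2 := (H.g2d (hΨlt z hz)).comp z (hΨd z hz)
    exact ((h1.sub (h2.const_mul (conj b))).mul (hΨ'd z hz)).div_const ν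
  have hF1D : DifferentiableOn ℂ F1 (ball 0 1) := fun z hz =>
    (hF1d z (by simpa using hz)).differentiableAt.differentiableWithinAt
  obtain ⟨L, hL0, hLd, hLe⟩ := exists_log hF1D hF1ne hF10
  set p : ℂ → ℂ := fun z => deriv F1 z / F1 z with hp
  have hpf : ∀ z : ℂ, ‖z‖ < 1 → p z = (deriv (deriv h) (Ψ z) - conj b * deriv (deriv g) (Ψ z)) /
      (deriv h (Ψ z) - conj b * deriv g (Ψ z)) * Ψ' z + -2 * c / D z := by
    intro z hz
    simp only [hp]
    rw [(hF1d z hz).deriv]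
    simp only [hF1]
    have h1 := hQne z hz
    have h2 := hΨ'ne z hz
    have h3 := hDne z hz
    generalize deriv h (Ψ z) - conj b * deriv g (Ψ z) = Q at h1 ⊢
    generalize Ψ' z = P at h2 ⊢
    field_simp
  -- the key identity
  have hkey : ∀ z : ℂ, ‖z‖ < 1 → (1 - z * conj z) * p z - 2 * conj z =
      ξ * conj (D z) / D z * Ph h g r (T z) + (1 - z * conj z) *
        (deriv ω (Ψ z) * Ψ' z) * ((conj (φ z) - conj b) /
          ((1 - φ z * conj (φ z)) * (1 - conj b * φ z))) := by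
    intro z hz
    have h1 := hDne z hz
    have h2 : conj (D z) ≠ 0 := by rwa [Ne, map_eq_zero]
    have h3 := hΨlt z hz
    have h4 : 1 - φ z * conj (φ z) ≠ 0 := one_sub_mul_conj_ne (hφ1 z hz)
    rw [hpf z hz, alg_PP (ω := φ z) (ωc := conj (φ z)) (ω' := deriv ω (Ψ z))
      (H.h1ne h3) h4 (hbφ z hz) (H.g1eq h3) (H.g2eq h3)]
    have hPP : (deriv (deriv h) (Ψ z) - conj (φ z) * deriv (deriv g) (Ψ z)) /
        (deriv h (Ψ z) * (1 - φ z * conj (φ z))) = PP h g (r * T z) := rfl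
    rw [hPP]
    unfold Ph
    have h5 : (1 - z * conj z) * Ψ' z = ξ * conj (D z) / D z * ((1 - T z * conj (T z)) * r) := by
      have h6 := hmod z hz
      have h7 : 1 - T z * conj (T z) = (1 - a * conj a) * (1 - z * conj z) /
          (D z * conj (D z)) := by
        rw [eq_div_iff (mul_ne_zero h1 h2)]; exact h6
      rw [h7]
      simp only [hΨ']
      field_simp
    have h8 : (1 - z * conj z) * (-2 * c / D z) - 2 * conj z =
        ξ * conj (D z) / D z * (-2 * conj (T z)) := by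
      simp only [hT, map_div₀]
      field_simp
      simp only [hD, hc, map_add, map_mul]
      linear_combination (conj z) * hξξ
    linear_combination (PP h g (r * T z)) * h5 + h8
  -- norms
  have hUn : ∀ z : ℂ, ‖z‖ < 1 → ‖ξ * conj (D z) / D z‖ = 1 := by
    intro z hz
    rw [norm_div, norm_mul, hξ, RCLike.norm_conj, one_mul]
    exact div_self (norm_pos_iff.mpr (hDne z hz)).ne'
  have hLog : LogHyp M L p := by
    refine ⟨hLd, hL0, ?_, ?_⟩
    · have h1 := hkey 0 hz0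
      rw [hφ0, hT0, hD0] at h1
      simp only [map_zero, mul_zero, sub_zero, map_one, sub_self, zero_div, add_zero,
        mul_one, div_one, one_mul] at h1
      rw [h1]
      exact hext
    · intro z hz
      have h1 := hkey z hz
      have hsq : (1 - (‖z‖:ℂ) ^ 2) = 1 - z * conj z := by
        rw [mul_conj_sq]; push_cast; ring
      rw [hsq, h1]
      refine (norm_add_le _ _).trans ?_
      apply add_le_add
      · rw [norm_mul, hUn z hz, one_mul]
        exact hbd _ (hTlt z hz)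
      · have h2 := schwarz_pick hφD (fun x hx => (hφ1 x (by simpa using hx)).le) hz
        rw [(hφd z hz).deriv] at h2
        have h3 := schwarz_pick_zero hφD (fun x hx => (hφ1 x (by simpa using hx)).le) hz
        rw [hφ0] at h3
        have h4 : ‖(1 - φ z * conj (φ z))‖ = 1 - ‖φ z‖ ^ 2 := by
          rw [mul_conj_sq]
          have : (1:ℂ) - ((‖φ z‖ ^ 2 : ℝ) : ℂ) = ((1 - ‖φ z‖ ^ 2 : ℝ) : ℂ) := by push_cast; ring
          rw [this, Complex.norm_real, Real.norm_of_nonneg]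
          nlinarith [norm_nonneg (φ z), hφ1 z hz]
        have h5 : ‖(1 - z * conj z)‖ = 1 - ‖z‖ ^ 2 := by
          rw [mul_conj_sq]
          have : (1:ℂ) - ((‖z‖ ^ 2 : ℝ) : ℂ) = ((1 - ‖z‖ ^ 2 : ℝ) : ℂ) := by push_cast; ring
          rw [this, Complex.norm_real, Real.norm_of_nonneg]
          nlinarith [norm_nonneg z]
        have h6 : ‖conj (φ z) - conj b‖ = ‖φ z - b‖ := by
          rw [← map_sub, RCLike.norm_conj]
        rw [norm_mul, norm_mul (1 - z * conj z), h5, norm_div, norm_mul (1 - φ z * conj (φ z)), h4, h6]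
        have h7 : 0 < 1 - ‖φ z‖ ^ 2 := by nlinarith [norm_nonneg (φ z), hφ1 z hz]
        have h8 : 0 < ‖1 - conj b * φ z‖ := norm_pos_iff.mpr (hbφ z hz)
        rw [mul_div_assoc', div_le_iff₀ (by positivity)]
        calc (1 - ‖z‖ ^ 2) * ‖deriv ω (Ψ z) * Ψ' z‖ * ‖φ z - b‖ ≤
              (1 - ‖φ z‖ ^ 2) * (‖z‖ * ‖1 - conj b * φ z‖) :=
              mul_le_mul h2 h3 (norm_nonneg _) h7.le
          _ = _ := by ring
  -- the dilatation
  set Ω : ℂ → ℂ := fun z => ν / conj ν * ((φ z - b) / (1 - conj b * φ z)) with hΩ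
  have hΩD : DifferentiableOn ℂ Ω (ball 0 1) := by
    intro z hz
    have hz1 : ‖z‖ < 1 := by simpa using hz
    exact (((hφD z hz).sub_const b).div (((hφD z hz).const_mul (conj b)).const_sub 1)
      (hbφ z hz1)).const_mul _
  have hνν : ‖ν / conj ν‖ = 1 := by
    rw [norm_div, RCLike.norm_conj]
    exact div_self (norm_pos_iff.mpr hν0).ne'
  have hΩ1 : ∀ z ∈ ball (0:ℂ) 1, ‖Ω z‖ ≤ 1 := by
    intro z hz
    have hz1 : ‖z‖ < 1 := by simpa using hz
    simp only [hΩ]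
    rw [norm_mul, hνν, one_mul]
    exact moeb_le hbn (hφ1 z hz1).le
  have hΩ0 : Ω 0 = 0 := by simp [hΩ, hφ0]
  -- the map
  have hHd : ∀ z : ℂ, ‖z‖ < 1 → HasDerivAt (fun z => (h (Ψ z) - conj b * g (Ψ z)) / ν)
      (exp (L z)) z := by
    intro z hz
    have h1 := (H.h1d (hΨlt z hz)).comp z (hΨd z hz)
    have h2 := (H.g1d (hΨlt z hz)).comp z (hΨd z hz)
    refine ((h1.sub (h2.const_mul (conj b))).div_const ν).congr_deriv ?_
    rw [hLe z hz]
    simp only [hF1]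
    ring
  have hGd : ∀ z : ℂ, ‖z‖ < 1 → HasDerivAt (fun z => (g (Ψ z) - b * h (Ψ z)) / conj ν)
      (Ω z * exp (L z)) z := by
    intro z hz
    have h1 := (H.h1d (hΨlt z hz)).comp z (hΨd z hz)
    have h2 := (H.g1d (hΨlt z hz)).comp z (hΨd z hz)
    refine ((h2.sub (h1.const_mul b)).div_const (conj ν)).congr_deriv ?_
    rw [hLe z hz]
    simp only [hF1, hΩ]
    rw [hQ z hz, H.g1eq (hΨlt z hz)]
    have h3 := hbφ z hz
    change (ω (Ψ z) * deriv h (Ψ z) * Ψ' z - b * (deriv h (Ψ z) * Ψ' z)) / conj ν = _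
    have h4 : ω (Ψ z) = φ z := rfl
    rw [h4]
    generalize 1 - conj b * φ z = q at h3 ⊢
    field_simp
  refine norm_contra2 hM hLog hΩD hΩ1 hΩ0 hHd hGd ?_
  -- injectivity
  intro z₁ hz1' z₂ hz2' heq
  have hz1 : ‖z₁‖ < 1 := by simpa using hz1'
  have hz2 : ‖z₂‖ < 1 := by simpa using hz2'
  simp only at heq
  set W : ℂ → ℂ := fun z => h (Ψ z) + conj (g (Ψ z)) with hW
  have hHG : ∀ z : ℂ, (h (Ψ z) - conj b * g (Ψ z)) / ν + conj ((g (Ψ z) - b * h (Ψ z)) / conj ν) =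
      (W z - conj b * conj (W z)) / ν := by
    intro z
    simp only [hW, map_div₀, map_sub, map_mul, map_add, Complex.conj_conj]
    ring
  rw [hHG, hHG] at heq
  have h1 : W z₁ - conj b * conj (W z₁) = W z₂ - conj b * conj (W z₂) := by
    have := congrArg (fun x => x * ν) heq
    simpa [div_mul_cancel₀ _ hν0] using this
  have h2 : W z₁ - W z₂ = conj b * conj (W z₁ - W z₂) := by
    rw [map_sub]; linear_combination h1
  have h3 : ‖W z₁ - W z₂‖ = ‖b‖ * ‖W z₁ - W z₂‖ := by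
    have := congrArg norm h2
    rwa [norm_mul, RCLike.norm_conj, RCLike.norm_conj] at this
  have h4 : ‖W z₁ - W z₂‖ = 0 := by nlinarith [norm_nonneg (W z₁ - W z₂)]
  have h5 : W z₁ = W z₂ := sub_eq_zero.mp (norm_eq_zero.mp h4)
  have h6 : Ψ z₁ = Ψ z₂ :=
    H.inj (by simpa using hΨlt z₁ hz1) (by simpa using hΨlt z₂ hz2) h5
  have h7 : T z₁ = T z₂ := mul_left_cancel₀ hrc h6
  have h8 : (ξ * z₁ + a) * D z₂ = (ξ * z₂ + a) * D z₁ := by
    have h9 := h7
    simp only [hT] at h9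
    rwa [div_eq_div_iff (hDne z₁ hz1) (hDne z₂ hz2)] at h9
  have h10 : (z₁ - z₂) * (ξ * (1 - a * conj a)) = 0 := by
    simp only [hD, hc] at h8
    linear_combination h8
  rcases mul_eq_zero.mp h10 with h11 | h11
  · exact sub_eq_zero.mp h11
  · exact absurd h11 (mul_ne_zero hξ0 hA)

end Pool.Agent.HU26
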