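import Pool.Agent.HU26.Integ

set_option autoImplicit false

open Complex Set MeasureTheory Filter Topology Metric
open scoped Real

namespace Pool.Agent.HU26

/-- a univalent sense preserving harmonic map on a disc of radius `R > 1` -/
structure Har (R : ℝ) (h g : ℂ → ℂ) : Prop where
  R1 : 1 < R
  dh : DifferentiableOn ℂ h (ball 0 R)
  dg : DifferentiableOn ℂ g (ball 0 R)
  sense : ∀ z ∈ ball (0 : ℂ) R, ‖deriv g z‖ < ‖deriv h z‖
  inj : InjOn (hm h g) (ball 0 R)

theorem Dat.har {κ R : ℝ} {m : ℕ} {h g : ℂ → ℂ} (D : Dat κ m R h g) : Har R h g :=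
  ⟨D.R1, D.dh, D.dg, D.sense, D.inj⟩

/-- jacobian -/
noncomputable def Jac (h g : ℂ → ℂ) (z : ℂ) : ℝ := ‖deriv h z‖ ^ 2 - ‖deriv g z‖ ^ 2

noncomputable def Ff (h g : ℂ → ℂ) (t x : ℝ) : ℂ := hm h g (pt t x)
noncomputable def Ft (h g : ℂ → ℂ) (t x : ℝ) : ℂ :=
  deriv h (pt t x) * cexp (x * I) + (starRingEnd ℂ) (deriv g (pt t x) * cexp (x * I))
noncomputable def Fx (h g : ℂ → ℂ) (t x : ℝ) : ℂ :=
  deriv h (pt t x) * (I * pt t x) + (starRingEnd ℂ) (deriv g (pt t x) * (I * pt t x))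
noncomputable def Ftx (h g : ℂ → ℂ) (t x : ℝ) : ℂ :=
  (deriv (deriv h) (pt t x) * (I * pt t x) * cexp (x * I)
    + deriv h (pt t x) * (I * cexp (x * I)))
  + (starRingEnd ℂ) (deriv (deriv g) (pt t x) * (I * pt t x) * cexp (x * I)
    + deriv g (pt t x) * (I * cexp (x * I)))

namespace Har

variable {R : ℝ} {h g : ℂ → ℂ}

theorem R0 (D : Har R h g) : 0 < R := by linarith [D.R1]

theorem hda (D : Har R h g) {z : ℂ} (hz : z ∈ ball (0 : ℂ) R) :
    HasDerivAt h (deriv h z) z :=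
  ((D.dh z hz).differentiableAt (isOpen_ball.mem_nhds hz)).hasDerivAt

theorem gda (D : Har R h g) {z : ℂ} (hz : z ∈ ball (0 : ℂ) R) :
    HasDerivAt g (deriv g z) z :=
  ((D.dg z hz).differentiableAt (isOpen_ball.mem_nhds hz)).hasDerivAt

theorem dh' (D : Har R h g) : DifferentiableOn ℂ (deriv h) (ball 0 R) :=
  D.dh.deriv isOpen_ball

theorem dg' (D : Har R h g) : DifferentiableOn ℂ (deriv g) (ball 0 R) :=
  D.dg.deriv isOpen_ball

theorem hda' (D : Har R h g) {z : ℂ} (hz : z ∈ ball (0 : ℂ) R) :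
    HasDerivAt (deriv h) (deriv (deriv h) z) z :=
  ((D.dh' z hz).differentiableAt (isOpen_ball.mem_nhds hz)).hasDerivAt

theorem gda' (D : Har R h g) {z : ℂ} (hz : z ∈ ball (0 : ℂ) R) :
    HasDerivAt (deriv g) (deriv (deriv g) z) z :=
  ((D.dg' z hz).differentiableAt (isOpen_ball.mem_nhds hz)).hasDerivAt

theorem cont_hm (D : Har R h g) : ContinuousOn (hm h g) (ball 0 R) := by
  unfold hm
  exact D.dh.continuousOn.add (Complex.continuous_conj.comp_continuousOn D.dg.continuousOn)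

theorem F_fst (D : Har R h g) {t : ℝ} (x : ℝ) (ht : t ∈ Ioo (-R) R) :
    HasDerivAt (fun t => Ff h g t x) (Ft h g t x) t := by
  have hz := pt_mem_ball x ht
  have hp := pt_hasDerivAt_fst t x
  have h1 := (D.hda hz).comp_of_eq t hp rfl
  have h2 := (D.gda hz).comp_of_eq t hp rfl
  have h3 := (Complex.conjCLE.toContinuousLinearMap.hasFDerivAt (x := g (pt t x))).comp_hasDerivAt t h2
  exact h1.add h3

theorem F_snd (D : Har R h g) {t : ℝ} (x : ℝ) (ht : t ∈ Ioo (-R) R) :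
    HasDerivAt (fun x => Ff h g t x) (Fx h g t x) x := by
  have hz := pt_mem_ball x ht
  have hp := pt_hasDerivAt_snd t x
  have h1 := (D.hda hz).comp_of_eq x hp rfl
  have h2 := (D.gda hz).comp_of_eq x hp rfl
  have h3 := (Complex.conjCLE.toContinuousLinearMap.hasFDerivAt (x := g (pt t x))).comp_hasDerivAt x h2
  exact h1.add h3

theorem Fx_fst (D : Har R h g) {t : ℝ} (x : ℝ) (ht : t ∈ Ioo (-R) R) :
    HasDerivAt (fun t => Fx h g t x) (Ftx h g t x) t := by
  have hz := pt_mem_ball x ht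
  have hp := pt_hasDerivAt_fst t x
  have hp2 := hp.const_mul I
  have h1 := ((D.hda' hz).comp_of_eq t hp rfl).mul hp2
  have h2 := ((D.gda' hz).comp_of_eq t hp rfl).mul hp2
  have h3 := (Complex.conjCLE.toContinuousLinearMap.hasFDerivAt
    (x := deriv g (pt t x) * (I * pt t x))).comp_hasDerivAt t h2
  refine (h1.add h3).congr_deriv ?_
  unfold Ftx
  congr 1
  · simp only [Function.comp_apply]
    ring
  · show (starRingEnd ℂ) _ = _
    congr 1
    simp only [Function.comp_apply]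
    ring

theorem Ft_snd (D : Har R h g) {t : ℝ} (x : ℝ) (ht : t ∈ Ioo (-R) R) :
    HasDerivAt (fun x => Ft h g t x) (Ftx h g t x) x := by
  have hz := pt_mem_ball x ht
  have hp := pt_hasDerivAt_snd t x
  have hp2 : HasDerivAt (fun x : ℝ => cexp (x * I)) (I * cexp (x * I)) x := by
    have h1 : HasDerivAt (fun x : ℝ => ((x : ℂ) * I)) I x := by
      have := (Complex.ofRealCLM.hasDerivAt (x := x)).mul_const I
      simpa using this
    exact h1.cexp.congr_deriv (by ring)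
  have h1 := ((D.hda' hz).comp_of_eq x hp rfl).mul hp2
  have h2 := ((D.gda' hz).comp_of_eq x hp rfl).mul hp2
  have h3 := (Complex.conjCLE.toContinuousLinearMap.hasFDerivAt
    (x := deriv g (pt t x) * cexp (x * I))).comp_hasDerivAt x h2
  exact (h1.add h3)

/-! continuity -/

theorem cF (D : Har R h g) :
    ContinuousOn (fun p : ℝ × ℝ => Ff h g p.1 p.2) (Ioo (-R) R ×ˢ univ) :=
  D.cont_hm.comp continuous_pt.continuousOn (mapsTo_pt R)

theorem cFx (D : Har R h g) :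
    ContinuousOn (fun p : ℝ × ℝ => Fx h g p.1 p.2) (Ioo (-R) R ×ˢ univ) := by
  unfold Fx
  have h1 := D.dh'.continuousOn.comp continuous_pt.continuousOn (mapsTo_pt R)
  have h2 := D.dg'.continuousOn.comp continuous_pt.continuousOn (mapsTo_pt R)
  have h3 : ContinuousOn (fun p : ℝ × ℝ => I * pt p.1 p.2) (Ioo (-R) R ×ˢ univ) :=
    (continuous_const.mul continuous_pt).continuousOn
  exact (h1.mul h3).add (Complex.continuous_conj.comp_continuousOn (h2.mul h3))

theorem cFt (D : Har R h g) :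
    ContinuousOn (fun p : ℝ × ℝ => Ft h g p.1 p.2) (Ioo (-R) R ×ˢ univ) := by
  unfold Ft
  have h1 := D.dh'.continuousOn.comp continuous_pt.continuousOn (mapsTo_pt R)
  have h2 := D.dg'.continuousOn.comp continuous_pt.continuousOn (mapsTo_pt R)
  have h3 : ContinuousOn (fun p : ℝ × ℝ => cexp ((p.2 : ℂ) * I)) (Ioo (-R) R ×ˢ univ) := by
    fun_prop
  exact (h1.mul h3).add (Complex.continuous_conj.comp_continuousOn (h2.mul h3))

theorem cFtx (D : Har R h g) :
    ContinuousOn (fun p : ℝ × ℝ => Ftx h g p.1 p.2) (Ioo (-R) R ×ˢ univ) := by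
  unfold Ftx
  have h1 := D.dh'.continuousOn.comp continuous_pt.continuousOn (mapsTo_pt R)
  have h2 := D.dg'.continuousOn.comp continuous_pt.continuousOn (mapsTo_pt R)
  have h1' := (D.dh'.deriv isOpen_ball).continuousOn.comp continuous_pt.continuousOn (mapsTo_pt R)
  have h2' := (D.dg'.deriv isOpen_ball).continuousOn.comp continuous_pt.continuousOn (mapsTo_pt R)
  have h3 : ContinuousOn (fun p : ℝ × ℝ => cexp ((p.2 : ℂ) * I)) (Ioo (-R) R ×ˢ univ) := by
    fun_prop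
  have h4 : ContinuousOn (fun p : ℝ × ℝ => I * pt p.1 p.2) (Ioo (-R) R ×ˢ univ) :=
    (continuous_const.mul continuous_pt).continuousOn
  have h5 : ContinuousOn (fun p : ℝ × ℝ => I * cexp ((p.2 : ℂ) * I)) (Ioo (-R) R ×ˢ univ) := by
    fun_prop
  exact (((h1'.mul h4).mul h3).add (h1.mul h5)).add
    (Complex.continuous_conj.comp_continuousOn (((h2'.mul h4).mul h3).add (h2.mul h5)))

theorem cJac (D : Har R h g) : ContinuousOn (Jac h g) (ball 0 R) := by
  unfold Jac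
  exact (D.dh'.continuousOn.norm.pow 2).sub (D.dg'.continuousOn.norm.pow 2)

end Har

theorem im_conj_mul (a b : ℂ) : ((starRingEnd ℂ) a * b).im = a.re * b.im - a.im * b.re := by
  simp [Complex.mul_im]; ring

theorem re_conj_mul (a b : ℂ) : ((starRingEnd ℂ) a * b).re = a.re * b.re + a.im * b.im := by
  simp [Complex.mul_re]

/-- derivative of `V(|F|²) Im (conj F * G)` -/
theorem hasDerivAt_VIm {V V' : ℝ → ℝ} {F G : ℝ → ℂ} {F' G' : ℂ} {t : ℝ}
    (hV : ∀ ρ, 0 ≤ ρ → HasDerivAt V (V' ρ) ρ)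
    (hF : HasDerivAt F F' t) (hG : HasDerivAt G G' t) :
    HasDerivAt (fun t => V (‖F t‖ ^ 2) * ((starRingEnd ℂ) (F t) * G t).im)
      (V' (‖F t‖ ^ 2) * (2 * ((starRingEnd ℂ) (F t) * F').re)
          * ((starRingEnd ℂ) (F t) * G t).im
        + V (‖F t‖ ^ 2) * ((starRingEnd ℂ) F' * G t + (starRingEnd ℂ) (F t) * G').im) t := by
  have h1 := hF.norm_sq
  have h2 := (hV (‖F t‖ ^ 2) (by positivity)).comp t h1
  have h3 : HasDerivAt (fun t => (starRingEnd ℂ) (F t)) ((starRingEnd ℂ) F') t :=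
    (Complex.conjCLE.toContinuousLinearMap.hasFDerivAt (x := F t)).comp_hasDerivAt t hF
  have h4 := (Complex.imCLM.hasFDerivAt
    (x := (starRingEnd ℂ) (F t) * G t)).comp_hasDerivAt t (h3.mul hG)
  refine (h2.mul h4).congr_deriv ?_
  rw [Complex.inner, mul_comm F']
  rfl

section

variable (V V' : ℝ → ℝ) (h g : ℂ → ℂ)

noncomputable def Bf (t x : ℝ) : ℝ :=
  V (‖Ff h g t x‖ ^ 2) * ((starRingEnd ℂ) (Ff h g t x) * Fx h g t x).im
noncomputable def Af (t x : ℝ) : ℝ :=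
  V (‖Ff h g t x‖ ^ 2) * ((starRingEnd ℂ) (Ff h g t x) * Ft h g t x).im
noncomputable def Bt (t x : ℝ) : ℝ :=
  V' (‖Ff h g t x‖ ^ 2) * (2 * ((starRingEnd ℂ) (Ff h g t x) * Ft h g t x).re)
      * ((starRingEnd ℂ) (Ff h g t x) * Fx h g t x).im
    + V (‖Ff h g t x‖ ^ 2) * ((starRingEnd ℂ) (Ft h g t x) * Fx h g t x
      + (starRingEnd ℂ) (Ff h g t x) * Ftx h g t x).im
noncomputable def Ax (t x : ℝ) : ℝ :=
  V' (‖Ff h g t x‖ ^ 2) * (2 * ((starRingEnd ℂ) (Ff h g t x) * Fx h g t x).re)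
      * ((starRingEnd ℂ) (Ff h g t x) * Ft h g t x).im
    + V (‖Ff h g t x‖ ^ 2) * ((starRingEnd ℂ) (Fx h g t x) * Ft h g t x
      + (starRingEnd ℂ) (Ff h g t x) * Ftx h g t x).im

/-- the weight `w(ρ) = 2 ρ V'(ρ) + 2 V(ρ)` -/
noncomputable def wV (ρ : ℝ) : ℝ := 2 * ρ * V' ρ + 2 * V ρ

end

theorem im_Ft_Fx (h g : ℂ → ℂ) (t x : ℝ) :
    ((starRingEnd ℂ) (Ft h g t x) * Fx h g t x).im = t * Jac h g (pt t x) := by
  unfold Ft Fx Jac
  have hpt : pt t x = t * cexp (x * I) := rfl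
  have hu : ‖cexp (x * I)‖ = 1 := Complex.norm_exp_ofReal_mul_I x
  have hu2 : (cexp (x * I)).re ^ 2 + (cexp (x * I)).im ^ 2 = 1 := by
    have := Complex.sq_norm (cexp (x * I))
    rw [hu, Complex.normSq_apply] at this
    linarith
  rw [Complex.sq_norm, Complex.sq_norm, Complex.normSq_apply, Complex.normSq_apply]
  set a := deriv h (pt t x)
  set b := deriv g (pt t x)
  rw [hpt]
  set u := cexp (x * I)
  rw [im_conj_mul]
  simp only [Complex.add_re, Complex.add_im, Complex.mul_re, Complex.mul_im, Complex.conj_re,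
    Complex.conj_im, Complex.I_re, Complex.I_im, Complex.ofReal_re, Complex.ofReal_im]
  linear_combination (t * (a.re * a.re + a.im * a.im - (b.re * b.re + b.im * b.im))) * hu2

theorem Bt_sub_Ax (V V' : ℝ → ℝ) (h g : ℂ → ℂ) (t x : ℝ) :
    Bt V V' h g t x = Ax V V' h g t x
      + wV V V' (‖Ff h g t x‖ ^ 2) * (t * Jac h g (pt t x)) := by
  rw [← im_Ft_Fx]
  unfold Bt Ax wV
  have h1 : ‖Ff h g t x‖ ^ 2 = (Ff h g t x).re ^ 2 + (Ff h g t x).im ^ 2 := by
    rw [Complex.sq_norm, Complex.normSq_apply]; ring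
  set ρ := ‖Ff h g t x‖ ^ 2
  simp only [Complex.add_im, im_conj_mul, re_conj_mul]
  rw [h1]
  ring

end Pool.Agent.HU26
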