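import Pool.Agent.HU26.Stokes

set_option autoImplicit false

open Complex Set MeasureTheory Filter Topology Metric
open scoped Real

namespace Pool.Agent.HU26

theorem FC_ofReal (u : ℝ → ℝ) : FC (fun x => ((u x : ℝ) : ℂ)) 0 = ((mean u : ℝ) : ℂ) := by
  unfold FC mean
  push_cast
  congr 1
  rw [← intervalIntegral.integral_ofReal]
  apply intervalIntegral.integral_congr
  intro x _
  simp

theorem hasDerivAt_mean {F F' : ℝ → ℝ → ℝ} {a b t0 : ℝ} (ht0 : t0 ∈ Ioo a b)
    (hd : ∀ t ∈ Ioo a b, ∀ x, HasDerivAt (fun t => F t x) (F' t x) t)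
    (hF : ∀ t ∈ Ioo a b, Continuous (F t))
    (hF' : ContinuousOn (fun p : ℝ × ℝ => F' p.1 p.2) (Ioo a b ×ˢ univ)) :
    HasDerivAt (fun t => mean (F t)) (mean (F' t0)) t0 := by
  have h1 := hasDerivAt_FC (F := fun t x => ((F t x : ℝ) : ℂ))
    (F' := fun t x => ((F' t x : ℝ) : ℂ)) ht0 (fun t ht x => (hd t ht x).ofReal_comp)
    (fun t ht => Complex.continuous_ofReal.comp (hF t ht))
    (Complex.continuous_ofReal.comp_continuousOn hF') 0
  simp only [FC_ofReal] at h1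
  have h2 := (Complex.reCLM.hasFDerivAt (x := ((mean (F t0) : ℝ) : ℂ))).comp_hasDerivAt t0 h1
  exact h2

variable {R : ℝ} {h g : ℂ → ℂ} {V V' : ℝ → ℝ}

theorem sliceR {G : ℝ → ℝ → ℝ} {a b t : ℝ}
    (h : ContinuousOn (fun p : ℝ × ℝ => G p.1 p.2) (Ioo a b ×ˢ univ)) (ht : t ∈ Ioo a b) :
    Continuous (G t) := by
  have h1 : Continuous (fun x : ℝ => (t, x)) := by fun_prop
  exact h.comp_continuous h1 (fun x => ⟨ht, mem_univ _⟩)

theorem cVF (D : Har R h g) (hV : ContinuousOn V (Ici 0)) :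
    ContinuousOn (fun p : ℝ × ℝ => V (‖Ff h g p.1 p.2‖ ^ 2)) (Ioo (-R) R ×ˢ univ) :=
  hV.comp (D.cF.norm.pow 2) (fun p _ => by simp only [mem_Ici]; positivity)

theorem cconj {f : ℝ × ℝ → ℂ} {s : Set (ℝ × ℝ)} (hf : ContinuousOn f s) :
    ContinuousOn (fun p => (starRingEnd ℂ) (f p)) s :=
  Complex.continuous_conj.comp_continuousOn hf

theorem cim {f : ℝ × ℝ → ℂ} {s : Set (ℝ × ℝ)} (hf : ContinuousOn f s) :
    ContinuousOn (fun p => (f p).im) s := Complex.continuous_im.comp_continuousOn hf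

theorem cre {f : ℝ × ℝ → ℂ} {s : Set (ℝ × ℝ)} (hf : ContinuousOn f s) :
    ContinuousOn (fun p => (f p).re) s := Complex.continuous_re.comp_continuousOn hf

theorem cBf (D : Har R h g) (hV : ContinuousOn V (Ici 0)) :
    ContinuousOn (fun p : ℝ × ℝ => Bf V h g p.1 p.2) (Ioo (-R) R ×ˢ univ) := by
  unfold Bf
  exact (cVF D hV).mul (cim ((cconj D.cF).mul D.cFx))

theorem cBt (D : Har R h g) (hV : ContinuousOn V (Ici 0)) (hV' : ContinuousOn V' (Ici 0)) :
    ContinuousOn (fun p : ℝ × ℝ => Bt V V' h g p.1 p.2) (Ioo (-R) R ×ˢ univ) := by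
  unfold Bt
  exact (((cVF D hV').mul (continuousOn_const.mul (cre ((cconj D.cF).mul D.cFt)))).mul
    (cim ((cconj D.cF).mul D.cFx))).add
    ((cVF D hV).mul (cim (((cconj D.cFt).mul D.cFx).add ((cconj D.cF).mul D.cFtx))))

theorem cAx (D : Har R h g) (hV : ContinuousOn V (Ici 0)) (hV' : ContinuousOn V' (Ici 0)) :
    ContinuousOn (fun p : ℝ × ℝ => Ax V V' h g p.1 p.2) (Ioo (-R) R ×ˢ univ) := by
  unfold Ax
  exact (((cVF D hV').mul (continuousOn_const.mul (cre ((cconj D.cF).mul D.cFx)))).mul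
    (cim ((cconj D.cF).mul D.cFt))).add
    ((cVF D hV).mul (cim (((cconj D.cFx).mul D.cFt).add ((cconj D.cF).mul D.cFtx))))

theorem mean_Ax (D : Har R h g) (hV : ∀ ρ, 0 ≤ ρ → HasDerivAt V (V' ρ) ρ)
    (hV' : ContinuousOn V' (Ici 0)) {t : ℝ} (ht : t ∈ Ioo (-R) R) : mean (Ax V V' h g t) = 0 := by
  have hVc : ContinuousOn V (Ici 0) := fun ρ hρ => (hV ρ hρ).continuousAt.continuousWithinAt
  have h1 : ∀ x ∈ uIcc (-π) π, HasDerivAt (Af V h g t) (Ax V V' h g t x) x := by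
    intro x _
    exact hasDerivAt_VIm hV (D.F_snd x ht) (D.Ft_snd x ht)
  have h2 := intervalIntegral.integral_eq_sub_of_hasDerivAt h1
    ((sliceR (cAx D hVc hV') ht).intervalIntegrable _ _)
  unfold mean
  rw [h2]
  have h3 : Af V h g t π = Af V h g t (-π) := by
    have h4 : cexp ((π : ℝ) * I) = cexp (((-π : ℝ) : ℂ) * I) := by
      rw [Complex.exp_eq_exp_iff_exists_int]
      exact ⟨1, by push_cast; ring⟩
    unfold Af Ff Ft
    rw [pt_pi, h4]
  rw [h3, sub_self, mul_zero]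

theorem I_hasDerivAt (D : Har R h g) (hV : ∀ ρ, 0 ≤ ρ → HasDerivAt V (V' ρ) ρ)
    (hV' : ContinuousOn V' (Ici 0)) {t : ℝ} (ht : t ∈ Ioo (-R) R) :
    HasDerivAt (fun t => mean (Bf V h g t))
      (mean fun x => wV V V' (‖Ff h g t x‖ ^ 2) * (t * Jac h g (pt t x))) t := by
  have hVc : ContinuousOn V (Ici 0) := fun ρ hρ => (hV ρ hρ).continuousAt.continuousWithinAt
  have h1 := hasDerivAt_mean (F := Bf V h g) (F' := Bt V V' h g) ht
    (fun s hs x => hasDerivAt_VIm hV (D.F_fst x hs) (D.Fx_fst x hs))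
    (fun s hs => sliceR (cBf D hVc) hs) (cBt D hVc hV')
  refine h1.congr_deriv ?_
  have h2 : (fun x => wV V V' (‖Ff h g t x‖ ^ 2) * (t * Jac h g (pt t x)))
      = fun x => Bt V V' h g t x - Ax V V' h g t x := by
    funext x
    rw [Bt_sub_Ax]; ring
  rw [h2, mean_sub (sliceR (cBt D hVc hV') ht) (sliceR (cAx D hVc hV') ht), mean_Ax D hV hV' ht,
    sub_zero]

theorem cG (D : Har R h g) (hVc : ContinuousOn V (Ici 0))
    (hV' : ContinuousOn V' (Ici 0)) :
    ContinuousOn (fun z => wV V V' (‖hm h g z‖ ^ 2) * Jac h g z) (ball 0 R) := by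
  unfold wV
  have h1 := D.cont_hm.norm.pow 2
  have hmaps : MapsTo (fun z => ‖hm h g z‖ ^ 2) (ball (0 : ℂ) R) (Ici 0) := fun z _ => by
    simp only [mem_Ici]; positivity
  have h2 := hVc.comp h1 hmaps
  have h3 := hV'.comp h1 hmaps
  exact (((continuousOn_const.mul h1).mul h3).add (continuousOn_const.mul h2)).mul D.cJac

theorem polar (D : Har R h g) {G : ℂ → ℝ} (hG : ContinuousOn G (ball 0 R)) :
    ∫ t in (0:ℝ)..1, mean (fun x => G (pt t x) * t) = (1 / (2 * π)) * ∫ z in ball (0 : ℂ) 1, G z := by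
  have h1 := Complex.integral_comp_polarCoord_symm ((ball (0 : ℂ) 1).indicator G)
  rw [integral_indicator measurableSet_ball] at h1
  rw [← h1]
  have hsub : Ioo (0 : ℝ) 1 ×ˢ Ioo (-π) π ⊆ polarCoord.target := by
    rw [polarCoord_target]
    exact prod_mono Ioo_subset_Ioi_self le_rfl
  have hsymm : ∀ p : ℝ × ℝ, Complex.polarCoord.symm p = pt p.1 p.2 := by
    intro p
    rw [Complex.polarCoord_symm_apply]
    unfold pt
    rw [Complex.exp_mul_I]
    push_cast
    ring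
  rw [setIntegral_eq_of_subset_of_forall_sdiff_eq_zero (s := Ioo (0 : ℝ) 1 ×ˢ Ioo (-π) π)
    polarCoord.open_target.measurableSet hsub]
  · have h2 : ∫ p in Ioo (0 : ℝ) 1 ×ˢ Ioo (-π) π,
        p.1 • (ball (0 : ℂ) 1).indicator G (Complex.polarCoord.symm p)
        = ∫ p in Ioo (0 : ℝ) 1 ×ˢ Ioo (-π) π, G (pt p.1 p.2) * p.1 := by
      apply setIntegral_congr_fun (measurableSet_Ioo.prod measurableSet_Ioo)
      intro p hp
      simp only
      rw [hsymm, indicator_of_mem, smul_eq_mul, mul_comm]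
      rw [mem_ball_zero_iff, norm_pt, abs_of_pos hp.1.1]
      exact hp.1.2
    rw [h2]
    rw [Measure.volume_eq_prod, setIntegral_prod]
    · rw [intervalIntegral.integral_of_le zero_le_one, ← integral_const_mul,
        integral_Ioc_eq_integral_Ioo]
      apply setIntegral_congr_fun measurableSet_Ioo
      intro t ht
      simp only
      unfold mean
      rw [intervalIntegral.integral_of_le negpi_lt_pi.le, integral_Ioc_eq_integral_Ioo]
    · rw [← Measure.volume_eq_prod]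
      have hcomp : IsCompact (Icc (0 : ℝ) 1 ×ˢ Icc (-π) π) := isCompact_Icc.prod isCompact_Icc
      have h3 : ContinuousOn (fun p : ℝ × ℝ => G (pt p.1 p.2) * p.1)
          (Icc (0 : ℝ) 1 ×ˢ Icc (-π) π) := by
        have h4 : ContinuousOn (fun p : ℝ × ℝ => G (pt p.1 p.2)) (Ioo (-R) R ×ˢ univ) :=
          hG.comp continuous_pt.continuousOn (mapsTo_pt R)
        have h5 := h4.mono (prod_mono (s₁ := Icc (0 : ℝ) 1) (t₁ := Icc (-π) π)
          (fun t ht => ⟨by linarith [ht.1, D.R0], by linarith [ht.2, D.R1]⟩) (subset_univ _))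
        exact h5.mul (by fun_prop)
      exact (h3.integrableOn_compact hcomp).mono_set
        (prod_mono Ioo_subset_Icc_self Ioo_subset_Icc_self)
  · intro p hp
    rw [polarCoord_target] at hp
    rw [hsymm, indicator_of_notMem, smul_zero]
    intro hb
    apply hp.2
    rw [mem_ball_zero_iff, norm_pt, abs_of_pos hp.1.1] at hb
    exact ⟨⟨hp.1.1, hb⟩, hp.1.2⟩

theorem det_clm (L : ℂ →L[ℝ] ℂ) : LinearMap.det (L : ℂ →ₗ[ℝ] ℂ)
    = (L 1).re * (L Complex.I).im - (L 1).im * (L Complex.I).re := by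
  rw [← LinearMap.det_toMatrix Complex.basisOneI, Matrix.det_fin_two]
  simp only [LinearMap.toMatrix_apply, Complex.coe_basisOneI, Complex.coe_basisOneI_repr,
    ContinuousLinearMap.coe_coe, Matrix.cons_val_zero, Matrix.cons_val_one]
  ring

/-- derivative of the harmonic map -/
theorem hm_hasFDerivAt (D : Har R h g) {z : ℂ} (hz : z ∈ ball (0 : ℂ) R) :
    ∃ L : ℂ →L[ℝ] ℂ, HasFDerivAt (hm h g) L z ∧ L.det = Jac h g z := by
  have h3 := (D.hda hz).hasFDerivAt.restrictScalars ℝ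
  have h4 := (D.gda hz).hasFDerivAt.restrictScalars ℝ
  have h5 := (Complex.conjCLE.toContinuousLinearMap.hasFDerivAt (x := g z)).comp z h4
  refine ⟨_, h3.add h5, ?_⟩
  rw [ContinuousLinearMap.det, det_clm]
  unfold Jac
  simp [Complex.sq_norm, Complex.normSq_apply]
  ring

theorem cov (D : Har R h g) (w : ℂ → ℝ) :
    ∫ y in hm h g '' ball (0 : ℂ) 1, w y = ∫ z in ball (0 : ℂ) 1, w (hm h g z) * Jac h g z := by
  have hsub : ball (0 : ℂ) 1 ⊆ ball 0 R := ball_subset_ball D.R1.le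
  choose! L hL using fun z (hz : z ∈ ball (0 : ℂ) R) => hm_hasFDerivAt D hz
  rw [integral_image_eq_integral_abs_det_fderiv_smul volume measurableSet_ball
    (fun z hz => (hL z (hsub hz)).1.hasFDerivWithinAt) (D.inj.mono hsub)]
  apply setIntegral_congr_fun measurableSet_ball
  intro z hz
  simp only
  rw [(hL z (hsub hz)).2, abs_of_pos, smul_eq_mul, mul_comm]
  unfold Jac
  have h1 := D.sense z (hsub hz)
  have h2 := norm_nonneg (deriv g z)
  nlinarith

/-- the Stokes formula -/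
theorem stokes (D : Har R h g) (hV : ∀ ρ, 0 ≤ ρ → HasDerivAt V (V' ρ) ρ)
    (hV' : ContinuousOn V' (Ici 0)) :
    mean (Bf V h g 1) = (1 / (2 * π)) * ∫ y in hm h g '' ball (0 : ℂ) 1, wV V V' (‖y‖ ^ 2) := by
  have hVc : ContinuousOn V (Ici 0) := fun ρ hρ => (hV ρ hρ).continuousAt.continuousWithinAt
  have hR := D.R1
  rw [cov D (fun y => wV V V' (‖y‖ ^ 2)), ← polar D (cG D hVc hV')]
  have h1 : ∀ t ∈ uIcc (0 : ℝ) 1, HasDerivAt (fun t => mean (Bf V h g t))
      (mean fun x => wV V V' (‖Ff h g t x‖ ^ 2) * (t * Jac h g (pt t x))) t := by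
    intro t ht
    rw [uIcc_of_le zero_le_one] at ht
    exact I_hasDerivAt D hV hV' ⟨by linarith [ht.1, D.R0], by linarith [ht.2, D.R1]⟩
  have hcm : ContinuousOn (fun t => mean fun x => wV V V' (‖Ff h g t x‖ ^ 2) *
      (t * Jac h g (pt t x))) (Ioo (-R) R) := by
    apply continuousOn_mean (F := fun t x => wV V V' (‖Ff h g t x‖ ^ 2) * (t * Jac h g (pt t x)))
    have h4 : ContinuousOn (fun p : ℝ × ℝ => wV V V' (‖hm h g (pt p.1 p.2)‖ ^ 2)
        * Jac h g (pt p.1 p.2)) (Ioo (-R) R ×ˢ univ) :=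
      (cG D hVc hV').comp continuous_pt.continuousOn (mapsTo_pt R)
    have h5 : ContinuousOn (fun p : ℝ × ℝ => p.1) (Ioo (-R) R ×ˢ (univ : Set ℝ)) := by fun_prop
    refine (h4.mul h5).congr ?_
    intro p _
    simp only [Pi.mul_apply, Ff]
    ring
  have hsub : uIcc (0 : ℝ) 1 ⊆ Ioo (-R) R := by
    rw [uIcc_of_le zero_le_one]
    exact fun t ht => ⟨by linarith [ht.1, D.R0], by linarith [ht.2, D.R1]⟩
  have h2 := intervalIntegral.integral_eq_sub_of_hasDerivAt h1
    ((hcm.mono hsub).intervalIntegrable)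
  have h3 : mean (Bf V h g 0) = 0 := by
    have : Bf V h g 0 = fun _ => 0 := by
      funext x
      unfold Bf Fx pt
      simp
    rw [this, mean_const]
  rw [h3, sub_zero] at h2
  rw [← h2]
  apply intervalIntegral.integral_congr
  intro t _
  simp only [Ff]
  congr 1
  funext x
  ring

end Pool.Agent.HU26
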