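import Pool.Agent.HU26.Coeff

set_option autoImplicit false

namespace Pool.Agent.HU26

noncomputable def Y2 (t : ℝ) : ℝ := (271/600) + (21/100) * t + (23/200) * t ^ 2 + (97/300) * t ^ 3 + (-1/10) * t ^ 4
noncomputable def Y2' (t : ℝ) : ℝ := (21/100) + (23/100) * t + (97/100) * t ^ 2 + (-2/5) * t ^ 3

theorem Y2_deriv (t : ℝ) : HasDerivAt Y2 (Y2' t) t := by
  have h := (((((hasDerivAt_const t ((271/600) : ℝ)).add ((hasDerivAt_id t).const_mul ((21/100) : ℝ))).add ((hasDerivAt_pow 2 t).const_mul ((23/200) : ℝ))).add ((hasDerivAt_pow 3 t).const_mul ((97/300) : ℝ))).add ((hasDerivAt_pow 4 t).const_mul ((-1/10) : ℝ)))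
  unfold Y2 Y2'
  refine h.congr_deriv ?_
  push_cast
  ring

theorem Y2_one : Y2 1 ≤ 1 := by
  unfold Y2; norm_num

theorem Y2_pos {t : ℝ} (ht0 : 0 ≤ t) (ht1 : t ≤ 1) : 0 < Y2 t := by
  have hid : ∀ u : ℝ, t + u = 1 → Y2 t = (271/600) * u ^ 4
      + (121/60) * t ^ 1 * u ^ 3
      + (691/200) * t ^ 2 * u ^ 2
      + (299/100) * t ^ 3 * u ^ 1
      + (1) * t ^ 4 := by
    intro u hu
    obtain rfl : u = 1 - t := by linarith
    unfold Y2
    ring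
  obtain ⟨u, hu⟩ : ∃ u, t + u = 1 := ⟨1 - t, by ring⟩
  have hu0 : 0 ≤ u := by linarith
  rw [hid u hu]
  rcases hu0.eq_or_lt with h | h
  · subst h
    have : t = 1 := by linarith
    subst this
    norm_num
  · positivity

theorem Y2_ode {t : ℝ} (ht0 : 0 < t) (ht1 : t < 1) :
    1 * t ^ 2 * (Y2 t / t - 1 * t ^ 2) ^ 2 ≤ (1 - (1 * t ^ 2) ^ 2) * (Y2' t - 1 * t ^ 2) := by
  have hid : ∀ u : ℝ, t + u = 1 → (1 - t ^ 4) * (Y2' t - t ^ 2)
      - (Y2 t - t ^ 3) ^ 2 = u * (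
        (2159/360000) * u ^ 7
        + (1589/18000) * t ^ 1 * u ^ 6
        + (48967/180000) * t ^ 2 * u ^ 5
        + (693/2500) * t ^ 3 * u ^ 4
        + (15197/120000) * t ^ 4 * u ^ 3
        + (3891/10000) * t ^ 5 * u ^ 2
        + (3799/10000) * t ^ 6 * u ^ 1
        + (1/25) * t ^ 7) := by
    intro u hu
    obtain rfl : u = 1 - t := by linarith
    unfold Y2 Y2'
    ring
  obtain ⟨u, hu⟩ : ∃ u, t + u = 1 := ⟨1 - t, by ring⟩
  have hu0 : 0 ≤ u := by linarith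
  have h1 := hid u hu
  have h2 : 0 ≤ (1 - t ^ 4) * (Y2' t - t ^ 2) - (Y2 t - t ^ 3) ^ 2 := by
    rw [h1]
    positivity
  have h3 : 1 * t ^ 2 * (Y2 t / t - 1 * t ^ 2) ^ 2 = (Y2 t - t ^ 3) ^ 2 := by
    field_simp
  rw [h3]
  linarith

theorem Y2_val : 2 / Y2 0 ≤ 443/100 := by
  unfold Y2; norm_num

noncomputable def Y3 (t : ℝ) : ℝ := (1819/3000) + (39/200) * t ^ 2 + (-1/75) * t ^ 3 + (39/100) * t ^ 4 + (-89/500) * t ^ 5
noncomputable def Y3' (t : ℝ) : ℝ := (39/100) * t + (-1/25) * t ^ 2 + (39/25) * t ^ 3 + (-89/100) * t ^ 4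

theorem Y3_deriv (t : ℝ) : HasDerivAt Y3 (Y3' t) t := by
  have h := (((((hasDerivAt_const t ((1819/3000) : ℝ)).add ((hasDerivAt_pow 2 t).const_mul ((39/200) : ℝ))).add ((hasDerivAt_pow 3 t).const_mul ((-1/75) : ℝ))).add ((hasDerivAt_pow 4 t).const_mul ((39/100) : ℝ))).add ((hasDerivAt_pow 5 t).const_mul ((-89/500) : ℝ)))
  unfold Y3 Y3'
  refine h.congr_deriv ?_
  push_cast
  ring

theorem Y3_one : Y3 1 ≤ 1 := by
  unfold Y3; norm_num

theorem Y3_pos {t : ℝ} (ht0 : 0 ≤ t) (ht1 : t ≤ 1) : 0 < Y3 t := by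
  have hid : ∀ u : ℝ, t + u = 1 → Y3 t = (1819/3000) * u ^ 5
      + (1819/600) * t ^ 1 * u ^ 4
      + (751/120) * t ^ 2 * u ^ 3
      + (1327/200) * t ^ 3 * u ^ 2
      + (199/50) * t ^ 4 * u ^ 1
      + (1) * t ^ 5 := by
    intro u hu
    obtain rfl : u = 1 - t := by linarith
    unfold Y3
    ring
  obtain ⟨u, hu⟩ : ∃ u, t + u = 1 := ⟨1 - t, by ring⟩
  have hu0 : 0 ≤ u := by linarith
  rw [hid u hu]
  rcases hu0.eq_or_lt with h | h
  · subst h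
    have : t = 1 := by linarith
    subst this
    norm_num
  · positivity

theorem Y3_ode {t : ℝ} (ht0 : 0 < t) (ht1 : t < 1) :
    1 * t ^ 3 * (Y3 t / t - 1 * t ^ 3) ^ 2 ≤ (1 - (1 * t ^ 3) ^ 2) * (Y3' t - 1 * t ^ 3) := by
  have hid : ∀ u : ℝ, t + u = 1 → (1 - t ^ 6) * (Y3' t - t ^ 3)
      - t ^ 1 * (Y3 t - t ^ 4) ^ 2 = t ^ 1 * u * (
        (201239/9000000) * u ^ 9
        + (165239/900000) * t ^ 1 * u ^ 8
        + (38789/40000) * t ^ 2 * u ^ 7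
        + (665459/225000) * t ^ 3 * u ^ 6
        + (8962741/1800000) * t ^ 4 * u ^ 5
        + (287591/60000) * t ^ 5 * u ^ 4
        + (383653/120000) * t ^ 6 * u ^ 3
        + (12927/5000) * t ^ 7 * u ^ 2
        + (3599/2500) * t ^ 8 * u ^ 1
        + (3/25) * t ^ 9) := by
    intro u hu
    obtain rfl : u = 1 - t := by linarith
    unfold Y3 Y3'
    ring
  obtain ⟨u, hu⟩ : ∃ u, t + u = 1 := ⟨1 - t, by ring⟩
  have hu0 : 0 ≤ u := by linarith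
  have h1 := hid u hu
  have h2 : 0 ≤ (1 - t ^ 6) * (Y3' t - t ^ 3) - t ^ 1 * (Y3 t - t ^ 4) ^ 2 := by
    rw [h1]
    positivity
  have h3 : 1 * t ^ 3 * (Y3 t / t - 1 * t ^ 3) ^ 2 = t ^ 1 * (Y3 t - t ^ 4) ^ 2 := by
    field_simp
  rw [h3]
  linarith

theorem Y3_val : 2 / Y3 0 ≤ 33/10 := by
  unfold Y3; norm_num

noncomputable def Y4 (t : ℝ) : ℝ := (1391/2000) + (17/100) * t ^ 3 + (-21/400) * t ^ 4 + (103/250) * t ^ 5 + (-9/40) * t ^ 6
noncomputable def Y4' (t : ℝ) : ℝ := (51/100) * t ^ 2 + (-21/100) * t ^ 3 + (103/50) * t ^ 4 + (-27/20) * t ^ 5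

theorem Y4_deriv (t : ℝ) : HasDerivAt Y4 (Y4' t) t := by
  have h := (((((hasDerivAt_const t ((1391/2000) : ℝ)).add ((hasDerivAt_pow 3 t).const_mul ((17/100) : ℝ))).add ((hasDerivAt_pow 4 t).const_mul ((-21/400) : ℝ))).add ((hasDerivAt_pow 5 t).const_mul ((103/250) : ℝ))).add ((hasDerivAt_pow 6 t).const_mul ((-9/40) : ℝ)))
  unfold Y4 Y4'
  refine h.congr_deriv ?_
  push_cast
  ring

theorem Y4_one : Y4 1 ≤ 1 := by
  unfold Y4; norm_num

theorem Y4_pos {t : ℝ} (ht0 : 0 ≤ t) (ht1 : t ≤ 1) : 0 < Y4 t := by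
  have hid : ∀ u : ℝ, t + u = 1 → Y4 t = (1391/2000) * u ^ 6
      + (4173/1000) * t ^ 1 * u ^ 5
      + (4173/400) * t ^ 2 * u ^ 4
      + (352/25) * t ^ 3 * u ^ 3
      + (1089/100) * t ^ 4 * u ^ 2
      + (499/100) * t ^ 5 * u ^ 1
      + (1) * t ^ 6 := by
    intro u hu
    obtain rfl : u = 1 - t := by linarith
    unfold Y4
    ring
  obtain ⟨u, hu⟩ : ∃ u, t + u = 1 := ⟨1 - t, by ring⟩
  have hu0 : 0 ≤ u := by linarith
  rw [hid u hu]
  rcases hu0.eq_or_lt with h | h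
  · subst h
    have : t = 1 := by linarith
    subst this
    norm_num
  · positivity

theorem Y4_ode {t : ℝ} (ht0 : 0 < t) (ht1 : t < 1) :
    1 * t ^ 4 * (Y4 t / t - 1 * t ^ 4) ^ 2 ≤ (1 - (1 * t ^ 4) ^ 2) * (Y4' t - 1 * t ^ 4) := by
  have hid : ∀ u : ℝ, t + u = 1 → (1 - t ^ 8) * (Y4' t - t ^ 4)
      - t ^ 2 * (Y4 t - t ^ 5) ^ 2 = t ^ 2 * u * (
        (105119/4000000) * u ^ 11
        + (105357/1000000) * t ^ 1 * u ^ 10
        + (968927/2000000) * t ^ 2 * u ^ 9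
        + (129803/40000) * t ^ 3 * u ^ 8
        + (9482619/800000) * t ^ 4 * u ^ 7
        + (2300277/100000) * t ^ 5 * u ^ 6
        + (2465321/100000) * t ^ 6 * u ^ 5
        + (2241/160) * t ^ 7 * u ^ 4
        + (8379/2000) * t ^ 8 * u ^ 3
        + (13089/5000) * t ^ 9 * u ^ 2
        + (17999/10000) * t ^ 10 * u ^ 1
        + (2/25) * t ^ 11) := by
    intro u hu
    obtain rfl : u = 1 - t := by linarith
    unfold Y4 Y4'
    ring
  obtain ⟨u, hu⟩ : ∃ u, t + u = 1 := ⟨1 - t, by ring⟩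
  have hu0 : 0 ≤ u := by linarith
  have h1 := hid u hu
  have h2 : 0 ≤ (1 - t ^ 8) * (Y4' t - t ^ 4) - t ^ 2 * (Y4 t - t ^ 5) ^ 2 := by
    rw [h1]
    positivity
  have h3 : 1 * t ^ 4 * (Y4 t / t - 1 * t ^ 4) ^ 2 = t ^ 2 * (Y4 t - t ^ 5) ^ 2 := by
    field_simp
  rw [h3]
  linarith

theorem Y4_val : 2 / Y4 0 ≤ 72/25 := by
  unfold Y4; norm_num

noncomputable def Y7 (t : ℝ) : ℝ := (40931/50400) + (73/600) * t ^ 6 + (-57/700) * t ^ 7 + (343/800) * t ^ 8 + (-253/900) * t ^ 9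
noncomputable def Y7' (t : ℝ) : ℝ := (73/100) * t ^ 5 + (-57/100) * t ^ 6 + (343/100) * t ^ 7 + (-253/100) * t ^ 8

theorem Y7_deriv (t : ℝ) : HasDerivAt Y7 (Y7' t) t := by
  have h := (((((hasDerivAt_const t ((40931/50400) : ℝ)).add ((hasDerivAt_pow 6 t).const_mul ((73/600) : ℝ))).add ((hasDerivAt_pow 7 t).const_mul ((-57/700) : ℝ))).add ((hasDerivAt_pow 8 t).const_mul ((343/800) : ℝ))).add ((hasDerivAt_pow 9 t).const_mul ((-253/900) : ℝ)))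
  unfold Y7 Y7'
  refine h.congr_deriv ?_
  push_cast
  ring

theorem Y7_one : Y7 1 ≤ 1 := by
  unfold Y7; norm_num

theorem Y7_pos {t : ℝ} (ht0 : 0 ≤ t) (ht1 : t ≤ 1) : 0 < Y7 t := by
  have hid : ∀ u : ℝ, t + u = 1 → Y7 t = (40931/50400) * u ^ 9
      + (40931/5600) * t ^ 1 * u ^ 8
      + (40931/1400) * t ^ 2 * u ^ 7
      + (40931/600) * t ^ 3 * u ^ 6
      + (40931/400) * t ^ 4 * u ^ 5
      + (40931/400) * t ^ 5 * u ^ 4
      + (3417/50) * t ^ 6 * u ^ 3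
      + (738/25) * t ^ 7 * u ^ 2
      + (397/50) * t ^ 8 * u ^ 1
      + (1) * t ^ 9 := by
    intro u hu
    obtain rfl : u = 1 - t := by linarith
    unfold Y7
    ring
  obtain ⟨u, hu⟩ : ∃ u, t + u = 1 := ⟨1 - t, by ring⟩
  have hu0 : 0 ≤ u := by linarith
  rw [hid u hu]
  rcases hu0.eq_or_lt with h | h
  · subst h
    have : t = 1 := by linarith
    subst this
    norm_num
  · positivity

theorem Y7_ode {t : ℝ} (ht0 : 0 < t) (ht1 : t < 1) :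
    1 * t ^ 7 * (Y7 t / t - 1 * t ^ 7) ^ 2 ≤ (1 - (1 * t ^ 7) ^ 2) * (Y7' t - 1 * t ^ 7) := by
  have hid : ∀ u : ℝ, t + u = 1 → (1 - t ^ 14) * (Y7' t - t ^ 7)
      - t ^ 5 * (Y7 t - t ^ 8) ^ 2 = t ^ 5 * u * (
        (178970039/2540160000) * u ^ 17
        + (98531639/141120000) * t ^ 1 * u ^ 16
        + (993428263/282240000) * t ^ 2 * u ^ 15
        + (863774263/52920000) * t ^ 3 * u ^ 14
        + (1152188263/14112000) * t ^ 4 * u ^ 13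
        + (1724782663/5040000) * t ^ 5 * u ^ 12
        + (1514939633/1440000) * t ^ 6 * u ^ 11
        + (492750131/210000) * t ^ 7 * u ^ 10
        + (38796435469/10080000) * t ^ 8 * u ^ 9
        + (374317163/80000) * t ^ 9 * u ^ 8
        + (4692506577/1120000) * t ^ 10 * u ^ 7
        + (80712037/30000) * t ^ 11 * u ^ 6
        + (11621131/10000) * t ^ 12 * u ^ 5
        + (2890307/10000) * t ^ 13 * u ^ 4
        + (16019/625) * t ^ 14 * u ^ 3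
        + (7053/1250) * t ^ 15 * u ^ 2
        + (17141/2500) * t ^ 16 * u ^ 1
        + (21/25) * t ^ 17) := by
    intro u hu
    obtain rfl : u = 1 - t := by linarith
    unfold Y7 Y7'
    ring
  obtain ⟨u, hu⟩ : ∃ u, t + u = 1 := ⟨1 - t, by ring⟩
  have hu0 : 0 ≤ u := by linarith
  have h1 := hid u hu
  have h2 : 0 ≤ (1 - t ^ 14) * (Y7' t - t ^ 7) - t ^ 5 * (Y7 t - t ^ 8) ^ 2 := by
    rw [h1]
    positivity
  have h3 : 1 * t ^ 7 * (Y7 t / t - 1 * t ^ 7) ^ 2 = t ^ 5 * (Y7 t - t ^ 8) ^ 2 := by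
    field_simp
  rw [h3]
  linarith

theorem Y7_val : 2 / Y7 0 ≤ 247/100 := by
  unfold Y7; norm_num

end Pool.Agent.HU26
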